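import Pool.Agent.R468.RC.A
import Pool.Agent.H499R2.HL.C

/-!
Residue classes, part 2: the averages; the levels of the total stopping time as subsets of `ℕ`.
-/

set_option autoImplicit false

namespace Pool.Agent.R468.RC

open Filter Topology Finset
open Pool.Agent.H499R2.LT
open Pool.Agent.H499R2.ND (Td wc mem_wc wc_card_le Tn)
open Pool.Agent.H499R2.CZ (FC)
open Pool.Agent.H499R2.HL

/-- the classes fill the window -/
theorem sum_classes (T : Set ℤ) (y : ℝ) (m : ℕ) :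
    ((wc T 0 y 1 0).card : ℝ) = ∑ c ∈ Finset.range (3 ^ m), ((wc T 0 y (3 ^ m) (c : ℤ)).card : ℝ) := by
  classical
  have h3 : (0 : ℤ) < 3 ^ m := by positivity
  have h := Finset.card_eq_sum_card_fiberwise (s := wc T 0 y 1 0) (t := Finset.range (3 ^ m))
    (f := fun x : ℤ => (x % 3 ^ m).toNat) (by
      intro x _
      have h1 := Int.emod_nonneg x h3.ne'
      have h2 := Int.emod_lt_of_pos x h3
      rw [Finset.mem_coe, Finset.mem_range]
      have : ((3 ^ m : ℕ) : ℤ) = 3 ^ m := by push_cast; rfl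
      show (x % 3 ^ m).toNat < 3 ^ m
      omega)
  rw [h]
  push_cast
  refine Finset.sum_congr rfl fun c hc => ?_
  rw [Finset.mem_range] at hc
  congr 2
  ext x
  rw [Finset.mem_filter, mem_wc, mem_wc]
  have h1 := Int.emod_nonneg x h3.ne'
  have hc' : (c : ℤ) < 3 ^ m := by exact_mod_cast hc
  have e : ((x % 3 ^ m).toNat = c) ↔ (3 : ℤ) ^ m ∣ x - c := by
    constructor
    · intro h2
      have h4 : x % 3 ^ m = c := by omega
      rw [← h4]
      exact Int.dvd_self_sub_emod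
    · intro h2
      have h4 : (c : ℤ) % 3 ^ m = x % 3 ^ m := (Int.modEq_iff_dvd).2 h2
      rw [Int.emod_eq_of_lt (by omega) hc'] at h4
      omega
  rw [e]
  constructor
  · rintro ⟨⟨a, b, _⟩, h⟩; exact ⟨a, b, h⟩
  · rintro ⟨a, b, h⟩; exact ⟨⟨a, b, one_dvd _⟩, h⟩

/-- the average over the classes -/
theorem avg3 {d : ℤ} {R : Set ℤ} (B : ℕ) (hd : Odd d) (hd3 : IsCoprime d 3) (hR : FC d R) (hRs : SpW R) {r0 : ℝ}
    (hr0 : ∀ x ∈ R, (x : ℝ) ≤ r0) :
    ∃ C Y0 : ℝ, 0 < C ∧ 2 ≤ Y0 ∧ ∀ S : ℤ → Set ℤ, GF d R (fun k _ => S k) → ∀ y : ℝ, Y0 ≤ y → ∀ m : ℕ,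
      (m : ℝ) ^ 2 ≤ Real.log y / 2 → ∀ k c : ℤ,
      |((wc (S k) 0 y (3 ^ m) c).card : ℝ) - (wc (S k) 0 y 1 0).card / 3 ^ m| ≤
        C / (Real.log y) ^ B * (y / 3 ^ m) := by
  obtain ⟨C, Y0, hC, hY0, h⟩ := equi3 B hd hd3 hR hRs hr0
  refine ⟨C, Y0, hC, hY0, fun S hS y hy m hm k c => ?_⟩
  have h3 : (0 : ℝ) < 3 ^ m := by positivity
  have hcard : ((Finset.range (3 ^ m)).card : ℝ) = 3 ^ m := by rw [Finset.card_range]; push_cast; rfl
  set E := C / (Real.log y) ^ B * (y / 3 ^ m) with hE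
  set a := ((wc (S k) 0 y (3 ^ m) c).card : ℝ) with ha
  have h1 : 3 ^ m * a ≤ (wc (S k) 0 y 1 0).card + 3 ^ m * E := by
    rw [sum_classes (S k) y m]
    have h2 : ∑ c' ∈ Finset.range (3 ^ m), a ≤ ∑ c' ∈ Finset.range (3 ^ m), (((wc (S k) 0 y (3 ^ m) (c' : ℤ)).card : ℝ) + E) :=
      Finset.sum_le_sum fun c' _ => h S hS y hy m hm k c c'
    rw [Finset.sum_const, Finset.sum_add_distrib, Finset.sum_const, nsmul_eq_mul, nsmul_eq_mul, hcard] at h2
    exact h2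
  have h1' : ((wc (S k) 0 y 1 0).card : ℝ) ≤ 3 ^ m * a + 3 ^ m * E := by
    rw [sum_classes (S k) y m]
    have h2 : ∑ c' ∈ Finset.range (3 ^ m), ((wc (S k) 0 y (3 ^ m) (c' : ℤ)).card : ℝ) ≤ ∑ c' ∈ Finset.range (3 ^ m), (a + E) :=
      Finset.sum_le_sum fun c' _ => h S hS y hy m hm k c' c
    rw [Finset.sum_const, nsmul_eq_mul, hcard] at h2
    linarith
  have e : (wc (S k) 0 y 1 0).card / (3 : ℝ) ^ m * 3 ^ m = (wc (S k) 0 y 1 0).card := by field_simp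
  rw [abs_le]
  constructor
  · have : ((wc (S k) 0 y 1 0).card / (3 : ℝ) ^ m) ≤ a + E := by
      rw [div_le_iff₀ h3]; linarith
    linarith
  · have : a - E ≤ (wc (S k) 0 y 1 0).card / (3 : ℝ) ^ m := by
      rw [le_div_iff₀ h3]; linarith
    linarith

/-! ### the total stopping time -/

/-- the levels on the integers -/
def SZ (k : ℤ) : Set ℤ := {x : ℤ | ∃ o : ℤ, x ∈ SF 1 {1} 1 k o}

theorem GF_SZ : GF 1 (RF 1 {1}) (fun k _ => SZ k) := by
  intro k o x hx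
  have h := fun o' => GF_SF 1 {1} 1 k o' x hx
  constructor
  · rintro ⟨o', h'⟩
    exact ⟨_, (h o').1 h'⟩
  · rintro ⟨o', h'⟩
    refine ⟨o' + (if x % 2 = 0 then 0 else 1), (h _).2 ?_⟩
    rw [add_sub_cancel_right]
    exact h'

theorem RF_one {x : ℤ} (hx : x ∈ RF 1 {1}) : (x : ℝ) ≤ 2 := by
  obtain ⟨a, ha, j, hj⟩ := hx
  rw [Finset.mem_singleton] at ha
  subst ha
  have h : ∀ j : ℕ, (Td 1)^[j] (1 : ℤ) = 1 ∨ (Td 1)^[j] (1 : ℤ) = 2 := by
    intro j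
    induction j with
    | zero => left; rfl
    | succ j ih =>
      rw [Function.iterate_succ_apply']
      rcases ih with h | h
      · right; rw [h]; rfl
      · left; rw [h]; rfl
  rcases h j with h1 | h1
  · rw [← hj, h1]; norm_num
  · rw [← hj, h1]; norm_num

theorem SZ_iff (k : ℕ) (n : ℕ) : (n : ℤ) ∈ SZ k ↔ H k n := by
  unfold SZ SF Hit H
  constructor
  · rintro ⟨o, j, hj, ⟨h1, _, h2⟩, _⟩
    have : j = k := by exact_mod_cast hj
    subst this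
    rw [Td_nat] at h1
    refine ⟨by exact_mod_cast h1, fun i hi hc => h2 i hi ?_⟩
    rw [Td_nat, hc]
    simp
  · rintro ⟨h1, h2⟩
    refine ⟨od 1 k n, k, rfl, ⟨?_, by simp, fun i hi hc => h2 i hi ?_⟩, rfl⟩
    · rw [Td_nat, h1]; rfl
    · rw [Td_nat, Finset.mem_singleton] at hc
      exact_mod_cast hc

theorem SZ_pos {k x : ℤ} (hx : x ∈ SZ k) : 0 < x := by
  by_contra hc
  push Not at hc
  obtain ⟨o, j, _, ⟨h1, _⟩, _⟩ := hx
  have : ∀ i : ℕ, (Td 1)^[i] x ≤ 0 := by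
    intro i
    induction i with
    | zero => exact hc
    | succ i ih =>
      rw [Function.iterate_succ_apply']
      generalize (Td 1)^[i] x = z at ih ⊢
      unfold Td
      split_ifs <;> omega
  have := this j
  omega

/-- the number of the `n ≤ X` with total stopping time `k` and `n ≡ c` modulo `q` -/
noncomputable def cN (k X q c : ℕ) : ℕ := {n : ℕ | 1 ≤ n ∧ n ≤ X ∧ H k n ∧ n ≡ c [MOD q]}.ncard

theorem fin_cN (k X q c : ℕ) : {n : ℕ | 1 ≤ n ∧ n ≤ X ∧ H k n ∧ n ≡ c [MOD q]}.Finite :=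
  (Set.finite_Iic X).subset fun _ hn => hn.2.1

theorem cN_wc (k X q c : ℕ) : cN k X q c = (wc (SZ k) 0 ((X : ℝ) + 1) q c).card := by
  classical
  unfold cN
  rw [← Set.ncard_coe_finset]
  have e : ((wc (SZ k) 0 ((X : ℝ) + 1) (q : ℤ) (c : ℤ) : Finset ℤ) : Set ℤ) = (fun n : ℕ => (n : ℤ)) ''
      {n : ℕ | 1 ≤ n ∧ n ≤ X ∧ H k n ∧ n ≡ c [MOD q]} := by
    ext x
    rw [Finset.mem_coe, mem_wc, Set.mem_image]
    constructor
    · rintro ⟨⟨h1, h2⟩, h3, h4⟩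
      have h5 := SZ_pos h3
      obtain ⟨n, rfl⟩ := Int.eq_ofNat_of_zero_le h5.le
      refine ⟨n, ⟨by omega, ?_, (SZ_iff k n).1 h3, ?_⟩, rfl⟩
      · have : ((n : ℤ) : ℝ) < X + 1 := h2
        have : n < X + 1 := by exact_mod_cast this
        omega
      · exact ((Nat.modEq_iff_dvd).2 (by
          have := dvd_neg.2 h4
          rwa [neg_sub] at this))
    · rintro ⟨n, ⟨h1, h2, h3, h4⟩, rfl⟩
      refine ⟨⟨by positivity, ?_⟩, (SZ_iff k n).2 h3, ?_⟩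
      · have : n < X + 1 := by omega
        exact_mod_cast this
      · have := (Nat.modEq_iff_dvd).1 h4
        have := dvd_neg.2 this
        rwa [neg_sub] at this
  rw [e, Set.ncard_image_of_injective _ Nat.cast_injective]

/-- equidistribution of the levels modulo powers of three -/
theorem cN_equi (B : ℕ) : ∃ (C : ℝ) (X0 : ℕ), 0 < C ∧ 2 ≤ X0 ∧ ∀ X : ℕ, X0 ≤ X → ∀ m : ℕ,
    (m : ℝ) ^ 2 ≤ Real.log X / 2 → ∀ k c : ℕ,
    |(cN k X (3 ^ m) c : ℝ) - cN k X 1 0 / 3 ^ m| ≤ C / (Real.log X) ^ B * (X / 3 ^ m) := by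
  obtain ⟨C, Y0, hC, hY0, h⟩ := avg3 (d := 1) (R := RF 1 {1}) B odd_one isCoprime_one_left (RF_FC 1 {1})
    (RF_SpW odd_one isCoprime_one_left {1}) (r0 := 2) (fun x hx => RF_one hx)
  refine ⟨2 * C, ⌈Y0⌉₊ + 2, by positivity, by omega, fun X hX m hm k c => ?_⟩
  have hX1 : (⌈Y0⌉₊ : ℝ) + 2 ≤ X := by exact_mod_cast hX
  have hY1 : Y0 ≤ X := by have := Nat.le_ceil Y0; linarith
  have hX2 : (2 : ℝ) ≤ X := hY0.trans hY1
  have hl : 0 < Real.log X := Real.log_pos (by linarith)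
  have hl2 : Real.log X ≤ Real.log ((X : ℝ) + 1) := Real.log_le_log (by linarith) (by linarith)
  have h1 := h SZ GF_SZ ((X : ℝ) + 1) (by linarith) m (by linarith) k c
  rw [cN_wc, cN_wc]
  have e1 : ((3 ^ m : ℕ) : ℤ) = 3 ^ m := by push_cast; rfl
  have e2 : ((1 : ℕ) : ℤ) = 1 := rfl
  have e3 : ((0 : ℕ) : ℤ) = 0 := rfl
  rw [e1, e2, e3]
  refine h1.trans ?_
  have h2 : C / (Real.log ((X : ℝ) + 1)) ^ B ≤ C / (Real.log X) ^ B :=
    div_le_div_of_nonneg_left hC.le (by positivity) (pow_le_pow_left₀ hl.le hl2 B)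
  have h3 : ((X : ℝ) + 1) / 3 ^ m ≤ 2 * (X / 3 ^ m) := by
    rw [← mul_div_assoc]
    exact div_le_div_of_nonneg_right (by linarith) (by positivity)
  calc C / (Real.log ((X : ℝ) + 1)) ^ B * (((X : ℝ) + 1) / 3 ^ m) ≤ C / (Real.log X) ^ B * (2 * (X / 3 ^ m)) := by
        apply mul_le_mul h2 h3 (by positivity) (by positivity)
    _ = 2 * C / (Real.log X) ^ B * (X / 3 ^ m) := by ring

end Pool.Agent.R468.RC
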