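import Pool.Agent.R468.RC.B

/-!
Residue classes, part 3: the iterates on a residue class modulo `2^s`.
-/

set_option autoImplicit false

namespace Pool.Agent.R468.RC

open Filter Topology Finset
open Pool.Agent.H499R2.LT
open Pool.Agent.H499R2.ND (Td Tn)
open Pool.Agent.H499R2.HL

theorem odn_succ (s n : ℕ) : odn (s + 1) n = n % 2 + odn s (Tn n) := by
  rw [← oc_odn, ← oc_odn, Pool.Agent.H363R2.oc, Pool.Agent.H499R2.ND.TN_eq_Tn]

/-- the iterates on a residue class -/
theorem it_class (s : ℕ) : ∀ r u : ℕ, Tn^[s] (r + 2 ^ s * u) = Tn^[s] r + 3 ^ odn s r * u ∧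
    odn s (r + 2 ^ s * u) = odn s r := by
  induction s with
  | zero =>
    intro r u
    have e : ∀ n, odn 0 n = 0 := fun n => by simp [odn]
    rw [e, e]
    simp
  | succ s ih =>
    intro r u
    rw [Function.iterate_succ_apply, Function.iterate_succ_apply, odn_succ, odn_succ]
    have e1 : 2 ^ (s + 1) * u = 2 * (2 ^ s * u) := by ring
    rcases Nat.mod_two_eq_zero_or_one r with h | h
    · have h1 : Tn (r + 2 ^ (s + 1) * u) = Tn r + 2 ^ s * u := by
        unfold Tn
        rw [e1, if_pos (by omega), if_pos h]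
        omega
      have h2 : (r + 2 ^ (s + 1) * u) % 2 = 0 := by rw [e1]; omega
      obtain ⟨g1, g2⟩ := ih (Tn r) u
      rw [h1, h2, h, g1, g2, zero_add]
      exact ⟨rfl, rfl⟩
    · have h1 : Tn (r + 2 ^ (s + 1) * u) = Tn r + 2 ^ s * (3 * u) := by
        unfold Tn
        rw [e1, if_neg (by omega), if_neg (by omega)]
        have : 2 ^ s * (3 * u) = 3 * (2 ^ s * u) := by ring
        rw [this]
        omega
      have h2 : (r + 2 ^ (s + 1) * u) % 2 = 1 := by rw [e1]; omega
      obtain ⟨g1, g2⟩ := ih (Tn r) (3 * u)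
      rw [h1, h2, h, g1, g2]
      refine ⟨?_, rfl⟩
      rw [pow_add, pow_one]
      ring

/-- the upper end of the image of the class -/
def Yk (s r X : ℕ) : ℕ := Tn^[s] r + 3 ^ odn s r * ((X - r) / 2 ^ s)

theorem H_pos {k n : ℕ} (h : H k n) : 1 ≤ n := by
  by_contra hc
  have h0 : n = 0 := by omega
  subst h0
  have : ∀ i : ℕ, Tn^[i] 0 = 0 := by
    intro i
    induction i with
    | zero => rfl
    | succ i ih => rw [Function.iterate_succ_apply', ih]; rfl
  have h1 := h.1
  rw [this] at h1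
  omega

theorem H_shift {s k n : ℕ} (hs : s ≤ k) (h : H k n) : H (k - s) (Tn^[s] n) := by
  obtain ⟨j, rfl⟩ := Nat.exists_eq_add_of_le hs
  rw [Nat.add_sub_cancel_left]
  refine ⟨?_, fun i hi => ?_⟩
  · rw [← Function.iterate_add_apply, Nat.add_comm]; exact h.1
  · rw [← Function.iterate_add_apply, Nat.add_comm]; exact h.2 _ (by omega)

theorem H_unshift {s k n : ℕ} (hs : s ≤ k) (hn : 2 ^ s ≤ n) (h : H (k - s) (Tn^[s] n)) : H k n := by
  obtain ⟨j, rfl⟩ := Nat.exists_eq_add_of_le hs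
  rw [Nat.add_sub_cancel_left] at h
  refine ⟨?_, fun i hi => ?_⟩
  · rw [Nat.add_comm, Function.iterate_add_apply]; exact h.1
  · rcases Nat.lt_or_ge i s with h1 | h1
    · intro h2
      have h3 := pow_le_of_hit h2
      have h4 : 2 ^ i < 2 ^ s := Nat.pow_lt_pow_right (by norm_num) h1
      omega
    · obtain ⟨l, rfl⟩ := Nat.exists_eq_add_of_le h1
      rw [Nat.add_comm, Function.iterate_add_apply]
      exact h.2 l (by omega)

/-- the iterate at a small argument -/
theorem it_small {s r : ℕ} (hr : r < 2 ^ s) : Tn^[s] r < 2 * 3 ^ odn s r := by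
  have h1 := iter_upper s r
  have h2 : 0 < 3 ^ odn s r := by positivity
  have h3 : 3 ^ odn s r * (r + 2 ^ s) < 3 ^ odn s r * (2 * 2 ^ s) := Nat.mul_lt_mul_of_pos_left (by omega) h2
  have h4 : 2 ^ s * Tn^[s] r < 2 ^ s * (2 * 3 ^ odn s r) := by
    calc 2 ^ s * Tn^[s] r ≤ 3 ^ odn s r * (r + 2 ^ s) := by omega
      _ < 3 ^ odn s r * (2 * 2 ^ s) := h3
      _ = 2 ^ s * (2 * 3 ^ odn s r) := by ring
  exact lt_of_mul_lt_mul_left h4 (Nat.zero_le _)

/-- TRANSFER: the level `k` in a class modulo `2^s` and the level `k - s` in a class modulo `3^o` -/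
theorem transfer {s r X k : ℕ} (hr : r < 2 ^ s) (hX : 2 ^ s ≤ X) (hk : s ≤ k) :
    cN k X (2 ^ s) r ≤ cN (k - s) (Yk s r X) (3 ^ odn s r) (Tn^[s] r) ∧
    cN (k - s) (Yk s r X) (3 ^ odn s r) (Tn^[s] r) ≤ cN k X (2 ^ s) r + 2 := by
  have h2s : 0 < 2 ^ s := by positivity
  have h3o : 0 < 3 ^ odn s r := by positivity
  -- the image
  have hform : ∀ n, n ≡ r [MOD 2 ^ s] → n = r + 2 ^ s * (n / 2 ^ s) := by
    intro n hn
    have h1 : n % 2 ^ s = r := by rw [hn]; exact Nat.mod_eq_of_lt hr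
    have h2 := Nat.mod_add_div n (2 ^ s)
    omega
  constructor
  · unfold cN
    refine Set.ncard_le_ncard_of_injOn (fun n => Tn^[s] n) ?_ ?_ (fin_cN _ _ _ _)
    · rintro n ⟨h1, h2, h3, h4⟩
      have h5 := hform n h4
      obtain ⟨g1, _⟩ := it_class s r (n / 2 ^ s)
      rw [← h5] at g1
      have h6 := H_shift hk h3
      refine ⟨H_pos h6, ?_, h6, ?_⟩
      · show Tn^[s] n ≤ _
        rw [g1]
        unfold Yk
        apply Nat.add_le_add_left
        apply Nat.mul_le_mul_left
        rw [Nat.le_div_iff_mul_le h2s]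
        have : n / 2 ^ s * 2 ^ s = 2 ^ s * (n / 2 ^ s) := Nat.mul_comm _ _
        omega
      · show Tn^[s] n ≡ _ [MOD _]
        rw [g1]
        exact (Nat.modEq_iff_dvd' (Nat.le_add_right _ _)).2 (by
          rw [Nat.add_sub_cancel_left]; exact Dvd.intro _ rfl) |>.symm
    · intro n hn n' hn' he
      have h5 := hform n hn.2.2.2
      have h5' := hform n' hn'.2.2.2
      obtain ⟨g1, _⟩ := it_class s r (n / 2 ^ s)
      obtain ⟨g1', _⟩ := it_class s r (n' / 2 ^ s)
      rw [← h5] at g1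
      rw [← h5'] at g1'
      simp only at he
      rw [g1, g1'] at he
      have h6 : 3 ^ odn s r * (n / 2 ^ s) = 3 ^ odn s r * (n' / 2 ^ s) := by omega
      have h7 := Nat.eq_of_mul_eq_mul_left h3o h6
      rw [h5, h5', h7]
  · classical
    have hsub : {m : ℕ | 1 ≤ m ∧ m ≤ Yk s r X ∧ H (k - s) m ∧ m ≡ Tn^[s] r [MOD 3 ^ odn s r]} ⊆
        ((fun n => Tn^[s] n) '' {n : ℕ | 1 ≤ n ∧ n ≤ X ∧ H k n ∧ n ≡ r [MOD 2 ^ s]}) ∪
          {Tn^[s] r, Tn^[s] r - 3 ^ odn s r} := by
      rintro m ⟨h1, h2, h3, h4⟩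
      by_cases hm : Tn^[s] r + 3 ^ odn s r ≤ m
      · left
        have h5 := (Nat.modEq_iff_dvd' (by omega)).1 h4.symm
        obtain ⟨u, hu⟩ := h5
        have hu1 : m = Tn^[s] r + 3 ^ odn s r * u := by omega
        have hu0 : 1 ≤ u := by
          rcases Nat.eq_zero_or_pos u with h | h
          · subst h; omega
          · exact h
        obtain ⟨g1, _⟩ := it_class s r u
        have h6 : u ≤ (X - r) / 2 ^ s := by
          have h7 : 3 ^ odn s r * u ≤ 3 ^ odn s r * ((X - r) / 2 ^ s) := by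
            unfold Yk at h2; omega
          exact le_of_mul_le_mul_left h7 h3o
        rw [Nat.le_div_iff_mul_le h2s] at h6
        have hcm : u * 2 ^ s = 2 ^ s * u := Nat.mul_comm _ _
        have h8 : 2 ^ s ≤ 2 ^ s * u := Nat.le_mul_of_pos_right _ hu0
        refine ⟨r + 2 ^ s * u, ⟨by omega, by omega, ?_, ?_⟩, ?_⟩
        · apply H_unshift hk (by omega)
          rw [g1, ← hu1]; exact h3
        · exact ((Nat.modEq_iff_dvd' (Nat.le_add_right _ _)).2 (by
            rw [Nat.add_sub_cancel_left]; exact Dvd.intro _ rfl)).symm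
        · show Tn^[s] (r + 2 ^ s * u) = m
          rw [g1, hu1]
      · right
        push Not at hm
        have hsm := it_small hr
        rw [Set.mem_insert_iff, Set.mem_singleton_iff]
        rcases Nat.lt_or_ge m (Tn^[s] r) with h | h
        · right
          have h5 := (Nat.modEq_iff_dvd' h.le).1 h4
          obtain ⟨u, hu⟩ := h5
          have hu1 : u = 1 := by
            rcases Nat.lt_or_ge u 1 with h6 | h6
            · have : u = 0 := by omega
              subst this; omega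
            · rcases Nat.lt_or_ge u 2 with h7 | h7
              · omega
              · have h8 : 3 ^ odn s r * 2 ≤ 3 ^ odn s r * u := Nat.mul_le_mul_left _ h7
                omega
          subst hu1
          omega
        · left
          have h5 := (Nat.modEq_iff_dvd' h).1 h4.symm
          obtain ⟨u, hu⟩ := h5
          have hu1 : u = 0 := by
            rcases Nat.eq_zero_or_pos u with h6 | h6
            · exact h6
            · have h8 : 3 ^ odn s r * 1 ≤ 3 ^ odn s r * u := Nat.mul_le_mul_left _ h6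
              omega
          subst hu1
          omega
    unfold cN
    refine (Set.ncard_le_ncard hsub (((fin_cN _ _ _ _).image _).union (Set.toFinite _))).trans ?_
    refine (Set.ncard_union_le _ _).trans ?_
    apply Nat.add_le_add
    · exact Set.ncard_image_le (fin_cN _ _ _ _)
    · exact (Set.ncard_insert_le _ _).trans (by rw [Set.ncard_singleton])

/-- the size of the upper end -/
theorem Yk_size {s r X : ℕ} (hr : r < 2 ^ s) (hX : 2 ^ s ≤ X) :
    |(Yk s r X : ℝ) / 3 ^ odn s r - X / 2 ^ s| ≤ 1 := by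
  have h1 := iter_upper s r
  have h2 := iter_lower s r
  have h3o : (0 : ℝ) < 3 ^ odn s r := by positivity
  have h2s : (0 : ℝ) < 2 ^ s := by positivity
  have h1' : (2 : ℝ) ^ s * (Tn^[s] r : ℕ) + 3 ^ odn s r ≤ 3 ^ odn s r * (r + 2 ^ s) := by exact_mod_cast h1
  have h2' : (3 : ℝ) ^ odn s r * r ≤ 2 ^ s * (Tn^[s] r : ℕ) := by exact_mod_cast h2
  have h3 := Nat.div_mul_le_self (X - r) (2 ^ s)
  have h4 := Nat.lt_div_mul_add (a := X - r) (b := 2 ^ s) (by positivity)
  set q := (X - r) / 2 ^ s with hq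
  have h3' : (q : ℝ) * 2 ^ s ≤ X - r := by
    have : (q * 2 ^ s : ℕ) + r ≤ X := by omega
    have h5 : ((q * 2 ^ s + r : ℕ) : ℝ) ≤ X := by exact_mod_cast this
    push_cast at h5
    linarith
  have h4' : (X : ℝ) - r < q * 2 ^ s + 2 ^ s := by
    have : X < q * 2 ^ s + 2 ^ s + r := by omega
    have h5 : (X : ℝ) < ((q * 2 ^ s + 2 ^ s + r : ℕ) : ℝ) := by exact_mod_cast this
    push_cast at h5
    linarith
  have e : (Yk s r X : ℝ) / 3 ^ odn s r = (Tn^[s] r : ℕ) / 3 ^ odn s r + q := by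
    unfold Yk
    rw [← hq]
    push_cast
    field_simp
  rw [e]
  have h5 : ((Tn^[s] r : ℕ) : ℝ) / 3 ^ odn s r ≤ r / 2 ^ s + 1 := by
    rw [div_add_one h2s.ne', div_le_div_iff₀ h3o h2s]
    nlinarith
  have h6 : (r : ℝ) / 2 ^ s ≤ (Tn^[s] r : ℕ) / 3 ^ odn s r := by
    rw [div_le_div_iff₀ h2s h3o]
    nlinarith
  have h7 : (q : ℝ) ≤ X / 2 ^ s - r / 2 ^ s := by
    rw [← sub_div, le_div_iff₀ h2s]; exact h3'
  have h8 : (X : ℝ) / 2 ^ s - r / 2 ^ s ≤ q + 1 := by
    rw [← sub_div, div_le_iff₀ h2s]; linarith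
  rw [abs_le]
  constructor <;> linarith

end Pool.Agent.R468.RC
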