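import Pool.Agent.R468.MG.G
import Pool.Agent.R468.RC.C

/-!
Residue classes, part 4: small motions of the arguments of the normal profile.
-/

set_option autoImplicit false

namespace Pool.Agent.R468.RC

open Filter Topology Finset
open Pool.Agent.R468.GL
open Pool.Agent.R468.LL (lam lam_eq lam_pos lam_lt)

variable (P : Par) {φ : ℝ × ℤ → ℝ × ℤ} {b1 b2 : ℝ}

theorem mv_log {K : ℝ} (h1 : ∀ᶠ p in xg P K, 0 < (φ p).1 ∧ |Real.log (φ p).1 - Real.log p.1| ≤ b1) :
    Tendsto (fun p => Real.log (φ p).1) (xg P K) atTop := by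
  refine tendsto_atTop_mono' _ ?_ (tendsto_atTop_add_const_right _ (-b1) (xg_log P K))
  filter_upwards [h1] with p hp
  have := (abs_le.1 hp.2).1
  linarith

theorem mv_fst {K : ℝ} (h1 : ∀ᶠ p in xg P K, 0 < (φ p).1 ∧ |Real.log (φ p).1 - Real.log p.1| ≤ b1) :
    Tendsto (fun p => (φ p).1) (xg P K) atTop := by
  refine (Real.tendsto_exp_atTop.comp (mv_log P h1)).congr' ?_
  filter_upwards [h1] with p hp
  exact Real.exp_log hp.1

theorem A0_pos' : 0 ≤ A0 P := by
  have := A0_ge P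
  linarith

theorem mv_dev {p : ℝ × ℤ} (h1 : |Real.log (φ p).1 - Real.log p.1| ≤ b1) (h2 : |((φ p).2 : ℝ) - p.2| ≤ b2) :
    |(((φ p).2 : ℝ) * lam - A0 P * Real.log (φ p).1) - (p.2 * lam - A0 P * Real.log p.1)| ≤ b2 * lam + A0 P * b1 := by
  have hlam := lam_pos
  have hA := A0_pos' P
  have e : (((φ p).2 : ℝ) * lam - A0 P * Real.log (φ p).1) - (p.2 * lam - A0 P * Real.log p.1) =
      (((φ p).2 : ℝ) - p.2) * lam - A0 P * (Real.log (φ p).1 - Real.log p.1) := by ring
  rw [e]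
  refine (abs_sub _ _).trans ?_
  rw [abs_mul, abs_mul, abs_of_pos hlam, abs_of_nonneg hA]
  exact add_le_add (mul_le_mul_of_nonneg_right h2 hlam.le) (mul_le_mul_of_nonneg_left h1 hA)

theorem mv_xg {K : ℝ} (h1 : ∀ᶠ p in xg P K, 0 < (φ p).1 ∧ |Real.log (φ p).1 - Real.log p.1| ≤ b1)
    (h2 : ∀ᶠ p in xg P K, |((φ p).2 : ℝ) - p.2| ≤ b2) : Tendsto φ (xg P K) (xg P (2 * |K| + 1)) := by
  refine tendsto_inf.2 ⟨tendsto_comap_iff.2 (mv_fst P h1), tendsto_principal.2 ?_⟩
  have hl := mv_log P h1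
  filter_upwards [xg_dev P K, h1, h2, (xg_log P K).eventually (eventually_ge_atTop (max 0 (2 * b1))),
    (Real.tendsto_sqrt_atTop.comp hl).eventually (eventually_ge_atTop (b2 * lam + A0 P * b1))] with p g1 g2 g3 g4 g5
  have g6 := mv_dev P g2.2 g3
  simp only [Function.comp] at g5
  have hL : 2 * b1 ≤ Real.log p.1 := (le_max_right _ _).trans g4
  have hL0 : 0 ≤ Real.log p.1 := (le_max_left _ _).trans g4
  have h7 : Real.log p.1 ≤ 4 * Real.log (φ p).1 := by
    have := (abs_le.1 g2.2).1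
    linarith
  have h8 : Real.sqrt (Real.log p.1) ≤ 2 * Real.sqrt (Real.log (φ p).1) := by
    have h9 : Real.sqrt (4 * Real.log (φ p).1) = 2 * Real.sqrt (Real.log (φ p).1) := by
      rw [Real.sqrt_mul (by norm_num)]
      congr 1
      rw [show (4 : ℝ) = 2 ^ 2 by norm_num]; exact Real.sqrt_sq (by norm_num)
    rw [← h9]
    exact Real.sqrt_le_sqrt h7
  have h10 : |((φ p).2 : ℝ) * lam - A0 P * Real.log (φ p).1| ≤
      |(((φ p).2 : ℝ) * lam - A0 P * Real.log (φ p).1) - (p.2 * lam - A0 P * Real.log p.1)| +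
        |(p.2 : ℝ) * lam - A0 P * Real.log p.1| := by
    have := abs_add_le ((((φ p).2 : ℝ) * lam - A0 P * Real.log (φ p).1) - (p.2 * lam - A0 P * Real.log p.1))
      ((p.2 : ℝ) * lam - A0 P * Real.log p.1)
    rwa [sub_add_cancel] at this
  have h11 : K * Real.sqrt (Real.log p.1) ≤ |K| * (2 * Real.sqrt (Real.log (φ p).1)) :=
    mul_le_mul (le_abs_self K) h8 (Real.sqrt_nonneg _) (abs_nonneg _)
  linarith

theorem mv_Est {K : ℝ} (h1 : ∀ᶠ p in xg P K, 0 < (φ p).1 ∧ |Real.log (φ p).1 - Real.log p.1| ≤ b1)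
    (h2 : ∀ᶠ p in xg P K, |((φ p).2 : ℝ) - p.2| ≤ b2) :
    Tendsto (fun p => Est P p - Est P (φ p)) (xg P K) (𝓝 0) := by
  have hw := ww_pos P
  have hlam := lam_pos
  have hC0 : 0 ≤ lam / (4 * ww P ^ 2) := by positivity
  set b : ℝ := |b2 * lam + A0 P * b1| with hb
  have h3 : Tendsto (fun p : ℝ × ℤ => lam / (4 * ww P ^ 2) * ((2 * (|K| ^ 2 * |b1| + b * (2 * |K| + b))) /
      Real.sqrt (Real.log p.1))) (xg P K) (𝓝 (lam / (4 * ww P ^ 2) * 0)) :=
    (tendsto_const_nhds.div_atTop (xg_sqrt P K)).const_mul _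
  rw [mul_zero] at h3
  refine squeeze_zero_norm' ?_ h3
  filter_upwards [xg_dev P K, h1, h2, (xg_log P K).eventually (eventually_ge_atTop (max 1 (2 * |b1|)))]
    with p g1 g2 g3 g4
  have g6 := (mv_dev P g2.2 g3).trans (le_abs_self _)
  rw [← hb] at g6
  unfold Est
  set L := Real.log p.1 with hL
  set L' := Real.log (φ p).1 with hL'
  set Dv : ℝ := p.2 * lam - A0 P * L with hDv
  set Dw : ℝ := (φ p).2 * lam - A0 P * L' with hDw
  have hL1 : 1 ≤ L := (le_max_left _ _).trans g4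
  have hL2 : 2 * |b1| ≤ L := (le_max_right _ _).trans g4
  have hd : |L' - L| ≤ |b1| := g2.2.trans (le_abs_self _)
  have hL0 : 0 < L := by linarith
  have hLL : L / 2 ≤ L' := by have := (abs_le.1 hd).1; linarith
  have hL0' : 0 < L' := by linarith
  have hr0 : 0 < Real.sqrt L := Real.sqrt_pos.2 hL0
  have hr1 : 1 ≤ Real.sqrt L := Real.one_le_sqrt.2 hL1
  have hrr : Real.sqrt L * Real.sqrt L = L := Real.mul_self_sqrt hL0.le
  have hb0 : 0 ≤ b := abs_nonneg _
  rw [Real.norm_eq_abs]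
  refine (Pool.Agent.R468.LL.exp_sub_le (by positivity) (by positivity)).trans ?_
  have e3 : Dv ^ 2 * lam / (4 * ww P ^ 2 * L) - Dw ^ 2 * lam / (4 * ww P ^ 2 * L') =
      lam / (4 * ww P ^ 2) * ((Dv ^ 2 * (L' - L) / L - (Dw - Dv) * (Dw + Dv)) / L') := by
    field_simp
    ring
  rw [e3, abs_mul, abs_of_nonneg hC0]
  apply mul_le_mul_of_nonneg_left _ hC0
  rw [abs_div, abs_of_pos hL0', div_le_div_iff₀ hL0' hr0]
  have hDK : |Dv| ≤ |K| * Real.sqrt L := g1.trans (mul_le_mul_of_nonneg_right (le_abs_self K) hr0.le)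
  have hD2 : Dv ^ 2 ≤ |K| ^ 2 * L := by
    have : |Dv| ^ 2 ≤ (|K| * Real.sqrt L) ^ 2 := pow_le_pow_left₀ (abs_nonneg Dv) hDK 2
    rw [sq_abs, mul_pow, Real.sq_sqrt hL0.le] at this
    exact this
  have k1 : |Dv ^ 2 * (L' - L) / L - (Dw - Dv) * (Dw + Dv)| ≤ |K| ^ 2 * |b1| + b * (2 * (|K| * Real.sqrt L) + b) := by
    refine (abs_sub _ _).trans (add_le_add ?_ ?_)
    · rw [abs_div, abs_of_pos hL0, div_le_iff₀ hL0, abs_mul, abs_of_nonneg (sq_nonneg Dv)]
      calc Dv ^ 2 * |L' - L| ≤ |K| ^ 2 * L * |b1| := mul_le_mul hD2 hd (abs_nonneg _) (by positivity)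
        _ = _ := by ring
    · rw [abs_mul]
      apply mul_le_mul g6 _ (abs_nonneg _) hb0
      have e : Dw + Dv = (Dw - Dv) + 2 * Dv := by ring
      rw [e]
      refine (abs_add_le _ _).trans ?_
      rw [abs_mul, abs_two]
      linarith
  have k2 : |K| ^ 2 * |b1| + b * (2 * (|K| * Real.sqrt L) + b) ≤
      (|K| ^ 2 * |b1| + b * (2 * |K| + b)) * Real.sqrt L := by
    have h6 : |K| ^ 2 * |b1| ≤ |K| ^ 2 * |b1| * Real.sqrt L := le_mul_of_one_le_right (by positivity) hr1
    have h7 : b * b ≤ b * b * Real.sqrt L := le_mul_of_one_le_right (by positivity) hr1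
    have e5 : (|K| ^ 2 * |b1| + b * (2 * |K| + b)) * Real.sqrt L =
      |K| ^ 2 * |b1| * Real.sqrt L + b * (2 * (|K| * Real.sqrt L)) + b * b * Real.sqrt L := by ring
    rw [e5]
    linarith
  have hpos : 0 ≤ |K| ^ 2 * |b1| + b * (2 * |K| + b) := by positivity
  calc |Dv ^ 2 * (L' - L) / L - (Dw - Dv) * (Dw + Dv)| * Real.sqrt L
      ≤ ((|K| ^ 2 * |b1| + b * (2 * |K| + b)) * Real.sqrt L) * Real.sqrt L :=
        mul_le_mul_of_nonneg_right (k1.trans k2) hr0.le
    _ = (|K| ^ 2 * |b1| + b * (2 * |K| + b)) * L := by rw [mul_assoc, hrr]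
    _ ≤ 2 * (|K| ^ 2 * |b1| + b * (2 * |K| + b)) * L' := by nlinarith

theorem gd_pos {x : ℝ} (hx : 0 < Real.log x) (j : ℤ) : 0 < gd P x j := by
  rw [gd_eq P hx j]
  have h1 := cst_pos P
  have h2 := oq_pos P
  have h3 := ww_pos P
  have h4 : 0 < Est P (x, j) := Real.exp_pos _
  have h5 := Real.sqrt_pos.2 hx
  positivity

theorem mv_gd {K : ℝ} (h1 : ∀ᶠ p in xg P K, 0 < (φ p).1 ∧ |Real.log (φ p).1 - Real.log p.1| ≤ b1)
    (h2 : ∀ᶠ p in xg P K, |((φ p).2 : ℝ) - p.2| ≤ b2) :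
    Tendsto (fun p => gd P (φ p).1 (φ p).2 / gd P p.1 p.2) (xg P K) (𝓝 1) := by
  have hlam := lam_pos
  have hw := ww_pos P
  have hl := mv_log P h1
  -- the ratio of the profiles
  have hE : Tendsto (fun p => Est P (φ p) / Est P p) (xg P K) (𝓝 1) := by
    have h3 : Tendsto (fun p => (Est P p - Est P (φ p)) / Est P p) (xg P K) (𝓝 0) := by
      set e0 := Real.exp (-(K ^ 2 * lam / (4 * ww P ^ 2))) with he0
      have he0' : 0 < e0 := Real.exp_pos _
      have h4 := (mv_Est P h1 h2).norm.div_const e0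
      rw [norm_zero, zero_div] at h4
      refine squeeze_zero_norm' ?_ h4
      filter_upwards [xg_dev P K, (xg_log P K).eventually (eventually_gt_atTop 0)] with p g1 g2
      have g3 := Est_low P g1 g2
      have g4 : 0 < Est P p := Real.exp_pos _
      rw [norm_div, Real.norm_of_nonneg g4.le]
      exact div_le_div_of_nonneg_left (norm_nonneg _) he0' g3
    have h5 := (tendsto_const_nhds (x := (1 : ℝ))).sub h3
    rw [sub_zero] at h5
    refine h5.congr fun p => ?_
    have g4 : 0 < Est P p := Real.exp_pos _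
    field_simp
    ring
  have hS : Tendsto (fun p => Real.sqrt (Real.log p.1) / Real.sqrt (Real.log (φ p).1)) (xg P K) (𝓝 1) := by
    have h3 : Tendsto (fun p => Real.log p.1 / Real.log (φ p).1) (xg P K) (𝓝 1) := by
      have h4 : Tendsto (fun p => (Real.log p.1 - Real.log (φ p).1) / Real.log (φ p).1) (xg P K) (𝓝 0) := by
        have h5 : Tendsto (fun p => |b1| / Real.log (φ p).1) (xg P K) (𝓝 0) := tendsto_const_nhds.div_atTop hl
        refine squeeze_zero_norm' ?_ h5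
        filter_upwards [h1, hl.eventually (eventually_gt_atTop 0)] with p g1 g2
        rw [norm_div, Real.norm_of_nonneg g2.le, Real.norm_eq_abs, abs_sub_comm]
        exact div_le_div_of_nonneg_right (g1.2.trans (le_abs_self _)) g2.le
      have h6 := h4.add_const 1
      rw [zero_add] at h6
      refine h6.congr' ?_
      filter_upwards [hl.eventually (eventually_gt_atTop 0)] with p g2
      field_simp
      ring
    have h7 := (Real.continuous_sqrt.tendsto 1).comp h3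
    rw [Real.sqrt_one] at h7
    refine h7.congr' ?_
    filter_upwards [(xg_log P K).eventually (eventually_gt_atTop 0)] with p g1
    simp only [Function.comp]
    rw [Real.sqrt_div g1.le]
  have h8 := hE.mul hS
  rw [one_mul] at h8
  refine h8.congr' ?_
  filter_upwards [hl.eventually (eventually_gt_atTop 0), (xg_log P K).eventually (eventually_gt_atTop 0)] with p g1 g2
  rw [gd_eq P g1, gd_eq P g2]
  have h9 := cst_pos P
  have h10 := oq_pos P
  have h11 : 0 < Est P ((φ p).1, (φ p).2) := Real.exp_pos _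
  have h12 : 0 < Est P (p.1, p.2) := Real.exp_pos _
  have h13 := Real.sqrt_pos.2 g1
  have h14 := Real.sqrt_pos.2 g2
  have e1 : Est P (φ p) = Est P ((φ p).1, (φ p).2) := rfl
  have e2 : Est P p = Est P (p.1, p.2) := rfl
  rw [e1, e2]
  field_simp

/-- a bound for the reciprocal of the normal profile in the window -/
theorem gd_low (K : ℝ) : ∃ c : ℝ, 0 < c ∧ ∀ᶠ p in xg P K, c / Real.sqrt (Real.log p.1) ≤ gd P p.1 p.2 := by
  have h1 := cst_pos P
  have h2 := oq_pos P
  have h3 := ww_pos P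
  refine ⟨cst P * (1 - qr P) / ww P * Real.exp (-(K ^ 2 * lam / (4 * ww P ^ 2))), by positivity, ?_⟩
  filter_upwards [xg_dev P K, (xg_log P K).eventually (eventually_gt_atTop 0)] with p g1 g2
  rw [gd_eq P g2]
  have g3 := Est_low P g1 g2
  exact div_le_div_of_nonneg_right (mul_le_mul_of_nonneg_left g3 (by positivity)) (Real.sqrt_nonneg _)

end Pool.Agent.R468.RC
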