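import Pool.Agent.R468.MF.FinTC
import Pool.Agent.R468.RC.D

/-!
Residue classes, part 5: the local limit law of the total stopping time in the classes modulo `2^s`.
-/

set_option autoImplicit false

namespace Pool.Agent.R468.RC

open Filter Topology Finset
open Pool.Agent.R468.GL
open Pool.Agent.R468.LL (lam lam_eq lam_pos lam_lt)
open Pool.Agent.H499R2.LT
open Pool.Agent.H499R2.ND (Td Tn Dn)
open Pool.Agent.H499R2.HL

/-- close arguments modulo one of a continuous function of period one -/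
theorem per_close {α : Type*} {l : Filter α} {Ψ : ℝ → ℝ} (hc : Continuous Ψ) (hp : ∀ t, Ψ (t + 1) = Ψ t)
    {u v : α → ℝ} {m : ℤ} (h : Tendsto (fun a => u a - v a) l (𝓝 (m : ℝ))) :
    Tendsto (fun a => Ψ (u a) - Ψ (v a)) l (𝓝 0) := by
  have hu : UniformContinuousOn Ψ (Set.Icc (-1) 2) := isCompact_Icc.uniformContinuousOn_of_continuous hc.continuousOn
  have hint : ∀ (t : ℝ) (n : ℤ), Ψ (t + n) = Ψ t := fun t n => per_int hp t n
  rw [Metric.tendsto_nhds]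
  intro ε hε
  obtain ⟨δ, hδ, hh⟩ := Metric.uniformContinuousOn_iff.1 hu ε hε
  filter_upwards [Metric.tendsto_nhds.1 h (min δ 1) (lt_min hδ one_pos)] with a ha
  rw [Real.dist_eq] at ha ⊢
  rw [sub_zero]
  set w := u a - v a - m with hw
  have h1 : |w| < δ := ha.trans_le (min_le_left _ _)
  have h2 : |w| < 1 := ha.trans_le (min_le_right _ _)
  have h2' := abs_lt.1 h2
  have h3 := Int.fract_nonneg (v a)
  have h4 := Int.fract_lt_one (v a)
  have e1 : Ψ (v a) = Ψ (Int.fract (v a)) := by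
    have := hint (Int.fract (v a)) ⌊v a⌋
    rw [Int.fract_add_floor] at this
    exact this
  have e2 : Ψ (u a) = Ψ (Int.fract (v a) + w) := by
    have := hint (Int.fract (v a) + w) (⌊v a⌋ + m)
    rw [← this]
    congr 1
    have h5 := Int.fract_add_floor (v a)
    rw [hw]
    push_cast
    linarith
  rw [e1, e2, ← Real.dist_eq]
  apply hh _ (Set.mem_Icc.2 ⟨by linarith, by linarith⟩) _ (Set.mem_Icc.2 ⟨by linarith, by linarith⟩)
  rw [Real.dist_eq, add_sub_cancel_left]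
  exact h1

/-- the number of the `n ≤ x` of level `j` with the property `Q` -/
noncomputable def cZ (Q : ℕ → Prop) (p : ℝ × ℤ) : ℝ :=
  ({n : ℕ | 1 ≤ n ∧ (n : ℝ) ≤ p.1 ∧ Q n ∧ 0 ≤ p.2 ∧ H p.2.toNat n}.ncard : ℝ)

theorem fin_cZ (Q : ℕ → Prop) (p : ℝ × ℤ) : {n : ℕ | 1 ≤ n ∧ (n : ℝ) ≤ p.1 ∧ Q n ∧ 0 ≤ p.2 ∧ H p.2.toNat n}.Finite := by
  refine (Set.finite_Iic ⌊p.1⌋₊).subset fun n hn => ?_
  exact Nat.le_floor hn.2.1

theorem cZ_mono {Q Q' : ℕ → Prop} (h : ∀ n, Q n → Q' n) (p : ℝ × ℤ) : cZ Q p ≤ cZ Q' p := by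
  have hs : {n : ℕ | 1 ≤ n ∧ (n : ℝ) ≤ p.1 ∧ Q n ∧ 0 ≤ p.2 ∧ H p.2.toNat n} ⊆
      {n : ℕ | 1 ≤ n ∧ (n : ℝ) ≤ p.1 ∧ Q' n ∧ 0 ≤ p.2 ∧ H p.2.toNat n} :=
    fun n hn => ⟨hn.1, hn.2.1, h n hn.2.2.1, hn.2.2.2⟩
  unfold cZ
  exact_mod_cast Set.ncard_le_ncard hs (fin_cZ Q' p)

theorem cZ_nonneg (Q : ℕ → Prop) (p : ℝ × ℤ) : 0 ≤ cZ Q p := Nat.cast_nonneg _

theorem cZ_cN {q r : ℕ} {p : ℝ × ℤ} (h1 : 0 ≤ p.1) (h2 : 0 ≤ p.2) :
    cZ (fun n => n ≡ r [MOD q]) p = cN p.2.toNat ⌊p.1⌋₊ q r := by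
  unfold cZ cN
  congr 2
  ext n
  rw [Set.mem_ofPred_eq, Set.mem_ofPred_eq, Nat.le_floor_iff h1]
  tauto

theorem cZ_true {p : ℝ × ℤ} (h1 : 0 ≤ p.1) (h2 : 0 ≤ p.2) :
    cZ (fun _ => True) p = cN p.2.toNat ⌊p.1⌋₊ 1 0 := by
  have e : (fun _ : ℕ => True) = fun n => n ≡ 0 [MOD 1] := by
    funext n
    exact (eq_true (Nat.modEq_one)).symm
  rw [e, cZ_cN h1 h2]

/-- the local law for the property `Q` with the weight `t` -/
def LQ (Q : ℕ → Prop) (t : ℝ) (Ψ : ℝ → ℝ) : Prop := ∀ K : ℝ,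
  Tendsto (fun p : ℝ × ℤ => cZ Q p / (p.1 * gd PT p.1 p.2) - t * Ψ (sv PT p)) (xg PT K) (𝓝 0)

theorem xg_snd (K : ℝ) : Tendsto (fun p : ℝ × ℤ => (p.2 : ℝ)) (xg PT K) atTop := by
  have hlam := lam_pos
  refine tendsto_atTop_mono' _ ?_ ((xg_log PT K).atTop_div_const hlam)
  filter_upwards [xg_dev PT K, (xg_sqrt PT K).eventually (eventually_ge_atTop (max 0 K)),
    (xg_log PT K).eventually (eventually_ge_atTop 0)] with p h1 h2 h3
  rw [A0_PT] at h1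
  have h4 := (abs_le.1 h1).1
  have h5 : K * Real.sqrt (Real.log p.1) ≤ Real.log p.1 := by
    have h6 : K ≤ Real.sqrt (Real.log p.1) := (le_max_right _ _).trans h2
    calc K * Real.sqrt (Real.log p.1) ≤ Real.sqrt (Real.log p.1) * Real.sqrt (Real.log p.1) :=
          mul_le_mul_of_nonneg_right h6 (Real.sqrt_nonneg _)
      _ = _ := Real.mul_self_sqrt h3
  rw [div_le_iff₀ hlam]
  linarith

theorem xg_snd_ge (K : ℝ) (N : ℤ) : ∀ᶠ p : ℝ × ℤ in xg PT K, N ≤ p.2 := by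
  filter_upwards [(xg_snd K).eventually (eventually_ge_atTop (N : ℝ))] with p hp
  exact_mod_cast hp

theorem xg_ge (K X : ℝ) : ∀ᶠ p : ℝ × ℤ in xg PT K, X ≤ p.1 := (xg_fst PT K).eventually (eventually_ge_atTop X)

theorem gd_pos_ev (K : ℝ) : ∀ᶠ p : ℝ × ℤ in xg PT K, 0 < gd PT p.1 p.2 := by
  filter_upwards [(xg_log PT K).eventually (eventually_gt_atTop 0)] with p h
  exact gd_pos PT h p.2

/-- negligible numbers -/
theorem negl (K : ℝ) {f : ℝ × ℤ → ℝ} (h : ∃ C : ℝ, ∀ᶠ p in xg PT K, |f p| ≤ C * p.1 / Real.log p.1) :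
    Tendsto (fun p => f p / (p.1 * gd PT p.1 p.2)) (xg PT K) (𝓝 0) := by
  obtain ⟨C, hC⟩ := h
  obtain ⟨c, hc, hgd⟩ := gd_low PT K
  have h1 : Tendsto (fun p : ℝ × ℤ => |C| / c / Real.sqrt (Real.log p.1)) (xg PT K) (𝓝 0) :=
    tendsto_const_nhds.div_atTop (xg_sqrt PT K)
  refine squeeze_zero_norm' ?_ h1
  filter_upwards [hC, hgd, xg_ge K 1, (xg_log PT K).eventually (eventually_gt_atTop 0)] with p g1 g2 g3 g4
  have hs : 0 < Real.sqrt (Real.log p.1) := Real.sqrt_pos.2 g4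
  have hx : (0 : ℝ) < p.1 := by linarith
  have g5 : 0 < gd PT p.1 p.2 := lt_of_lt_of_le (by positivity) g2
  rw [norm_div, Real.norm_eq_abs, Real.norm_of_nonneg (by positivity)]
  have g6 : C * p.1 / Real.log p.1 ≤ |C| * p.1 / Real.log p.1 :=
    div_le_div_of_nonneg_right (mul_le_mul_of_nonneg_right (le_abs_self C) hx.le) g4.le
  calc |f p| / (p.1 * gd PT p.1 p.2) ≤ (|C| * p.1 / Real.log p.1) / (p.1 * (c / Real.sqrt (Real.log p.1))) := by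
        apply div_le_div₀ (by positivity) (g1.trans g6) (by positivity)
        exact mul_le_mul_of_nonneg_left g2 hx.le
    _ = |C| / c / Real.sqrt (Real.log p.1) := by
        rw [div_div, div_div, div_eq_div_iff (by positivity) (by positivity)]
        have h5 : Real.sqrt (Real.log p.1) * Real.sqrt (Real.log p.1) = Real.log p.1 := Real.mul_self_sqrt g4.le
        generalize Real.sqrt (Real.log p.1) = S at h5 hs
        rw [← h5]
        field_simp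

/-- the base case -/
theorem base : ∃ (δ : ℝ) (Ψ : ℝ → ℝ) (M : ℝ), 0 < δ ∧ δ ≤ 1 ∧ (δ = 1 ↔ ∀ n : ℕ, 1 ≤ n → ∃ k : ℕ, Tn^[k] n = 1) ∧
    Dn (fun n => ∃ k : ℕ, Tn^[k] n = 1) δ ∧
    Continuous Ψ ∧ (∀ t, Ψ (t + 1) = Ψ t) ∧
    (∀ t, δ * (Real.log 3 / 2) ≤ Ψ t ∧ Ψ t ≤ δ * (3 * Real.log 3 / 2)) ∧
    (∫ t in (0 : ℝ)..1, Ψ t = δ) ∧ (∀ t, Ψ t ≤ M) ∧ (∃ t, Ψ t = M) ∧ δ ≤ M ∧ LQ (fun _ => True) 1 Ψ ∧
    (∃ (A X₀ : ℝ), 0 < A ∧ 2 ≤ X₀ ∧ ∀ X : ℕ, X₀ ≤ X → ∀ k : ℕ, (cN k X 1 0 : ℝ) ≤ A * X / Real.sqrt (Real.log X)) := by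
  obtain ⟨δ, Ψ, M, h0, h0', h0'', h1, h2, h3, h4, h5, h6, h7, h8, h9, h10, _⟩ := Pool.Agent.R468.MF.freq_T
  have hM : 0 < M := by linarith
  refine ⟨δ, Ψ, M, h0, h0', h0'', h1, h2, h3, h4, h5, h6, h7, h8, ?_, ?_⟩
  · intro K
    have hlam := lam_pos
    rw [Metric.tendsto_nhds]
    intro ε hε
    obtain ⟨X₀, hX⟩ := h9 (|K| / lam) (ε / 2) (by positivity)
    filter_upwards [xg_dev PT K, xg_ge K X₀, xg_ge K 1, xg_snd_ge K 0] with p g1 g2 g3 g4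
    obtain ⟨x, j⟩ := p
    simp only at g1 g2 g3 g4 ⊢
    obtain ⟨k, rfl⟩ := Int.eq_ofNat_of_zero_le g4
    have hlamv : lam = Real.log (4 / 3) := by
      rw [lam_eq, show (4 : ℝ) / 3 = 2 ^ 2 / 3 by norm_num, Real.log_div (by norm_num) (by norm_num), Real.log_pow]
      push_cast; ring
    have g5 := hX x g2 k (by
      rw [A0_PT] at g1
      have e : (k : ℝ) - 2 / Real.log (4 / 3) * Real.log x = ((k : ℝ) * lam - 2 * Real.log x) / lam := by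
        rw [← hlamv]; field_simp
      rw [e, abs_div, abs_of_pos hlam, div_mul_eq_mul_div]
      apply div_le_div_of_nonneg_right _ hlam.le
      have : (((k : ℕ) : ℤ) : ℝ) = k := by push_cast; rfl
      rw [this] at g1
      exact g1.trans (mul_le_mul_of_nonneg_right (le_abs_self K) (Real.sqrt_nonneg _)))
    have hx0 : (0 : ℝ) < x := by linarith
    have e1 : cZ (fun _ => True) (x, ((k : ℕ) : ℤ)) =
        ({n : ℕ | 1 ≤ n ∧ (n : ℝ) ≤ x ∧ (Tn^[k] n = 1 ∧ ∀ i < k, Tn^[i] n ≠ 1)}.ncard : ℝ) := by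
      unfold cZ H
      congr 2
      ext n
      rw [Set.mem_ofPred_eq, Set.mem_ofPred_eq]
      simp only [Int.toNat_natCast, Nat.cast_nonneg, true_and]
    have e2 : gd PT x ((k : ℕ) : ℤ) = Real.exp (-(((k : ℝ) - 2 / Real.log (4 / 3) * Real.log x) ^ 2 /
          (2 * (2 * Real.log 3 ^ 2 / Real.log (4 / 3) ^ 3 * Real.log x)))) /
          Real.sqrt (2 * Real.pi * (2 * Real.log 3 ^ 2 / Real.log (4 / 3) ^ 3 * Real.log x)) := by
      unfold gd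
      rw [A0_PT, ww_PT, hlamv]
      push_cast
      rfl
    have e3 : sv PT (x, ((k : ℕ) : ℤ)) = Real.logb 3 (x / 2 ^ k) := by
      unfold sv Real.logb
      rw [ww_PT, kap_PT, Real.log_div hx0.ne' (by positivity), Real.log_pow]
      push_cast
      rfl
    rw [Real.dist_eq, sub_zero, e1, e2, e3, one_mul]
    exact lt_of_le_of_lt g5 (by linarith)
  · obtain ⟨X₀, hX⟩ := h10 M hM
    have hv : 0 < 2 * Real.pi * (2 * Real.log 3 ^ 2 / Real.log (4 / 3) ^ 3) := by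
      have := Real.pi_pos
      have : 0 < Real.log 3 := Real.log_pos (by norm_num)
      have : 0 < Real.log (4 / 3) := Real.log_pos (by norm_num)
      positivity
    refine ⟨(M + M) / Real.sqrt (2 * Real.pi * (2 * Real.log 3 ^ 2 / Real.log (4 / 3) ^ 3)), max X₀ 2,
      div_pos (by linarith) (Real.sqrt_pos.2 hv), le_max_right _ _, fun X hXX k => ?_⟩
    have g1 := (hX X ((le_max_left _ _).trans hXX)).1 k
    have e1 : (cN k X 1 0 : ℝ) =
        ({n : ℕ | 1 ≤ n ∧ (n : ℝ) ≤ (X : ℝ) ∧ (Tn^[k] n = 1 ∧ ∀ i < k, Tn^[i] n ≠ 1)}.ncard : ℝ) := by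
      unfold cN H
      congr 2
      ext n
      rw [Set.mem_ofPred_eq, Set.mem_ofPred_eq, Nat.cast_le]
      simp only [Nat.modEq_one, and_true]
    rw [e1]
    refine g1.trans (le_of_eq ?_)
    have e2 : 2 * Real.pi * (2 * Real.log 3 ^ 2 / Real.log (4 / 3) ^ 3 * Real.log X) =
      2 * Real.pi * (2 * Real.log 3 ^ 2 / Real.log (4 / 3) ^ 3) * Real.log X := by ring
    rw [e2, Real.sqrt_mul hv.le, div_mul_eq_mul_div, div_div]

end Pool.Agent.R468.RC
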