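import Pool.Agent.R468.RC.F

/-!
Residue classes, part 7: coalescence of neighbours in bounded time; unions of classes.
-/

set_option autoImplicit false

namespace Pool.Agent.R468.RC

open Filter Topology Finset
open Pool.Agent.R468.GL
open Pool.Agent.H499R2.LT
open Pool.Agent.H499R2.ND (Td Tn Dn)
open Pool.Agent.H499R2.HL
open Pool.Agent.H499R2.CO (HD HD_congr Slow run_Tn Slow_one)

/-- the integers of the run from `n` to `n + h` coalesce within `t` steps -/
def Good (h t n : ℕ) : Prop := ∃ t' ≤ t, ∀ i ≤ h, Tn^[t'] (n + i) = Tn^[t'] n ∧ odn t' (n + i) = odn t' n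

theorem it_class' {t t' : ℕ} (ht : t' ≤ t) (r u : ℕ) : Tn^[t'] (r + 2 ^ t * u) = Tn^[t'] r + 3 ^ odn t' r * (2 ^ (t - t') * u) ∧
    odn t' (r + 2 ^ t * u) = odn t' r := by
  have e : 2 ^ t * u = 2 ^ t' * (2 ^ (t - t') * u) := by
    rw [← mul_assoc, ← pow_add, Nat.add_sub_cancel' ht]
  rw [e]
  exact it_class t' r (2 ^ (t - t') * u)

theorem Good_class (h t r u : ℕ) : Good h t (r + 2 ^ t * u) ↔ Good h t r := by
  constructor
  · rintro ⟨t', ht, hh⟩
    refine ⟨t', ht, fun i hi => ?_⟩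
    obtain ⟨g1, g2⟩ := hh i hi
    have e : r + 2 ^ t * u + i = (r + i) + 2 ^ t * u := by ring
    rw [e] at g1 g2
    obtain ⟨k1, k2⟩ := it_class' ht r u
    obtain ⟨k3, k4⟩ := it_class' ht (r + i) u
    rw [k2, k4] at g2
    rw [k1, k3, g2] at g1
    exact ⟨by omega, g2⟩
  · rintro ⟨t', ht, hh⟩
    refine ⟨t', ht, fun i hi => ?_⟩
    obtain ⟨g1, g2⟩ := hh i hi
    have e : r + 2 ^ t * u + i = (r + i) + 2 ^ t * u := by ring
    rw [e]
    obtain ⟨k1, k2⟩ := it_class' ht r u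
    obtain ⟨k3, k4⟩ := it_class' ht (r + i) u
    rw [k1, k2, k3, k4, g1, g2]
    exact ⟨rfl, rfl⟩

theorem Good_mod (h t n : ℕ) : Good h t n ↔ Good h t (n % 2 ^ t) := by
  conv_lhs => rw [← Nat.mod_add_div n (2 ^ t)]
  exact Good_class h t _ _

theorem Good_H {h t n : ℕ} (hn : 4 ^ t ≤ n) (hh : h < n) (hG : Good h t n) : ∀ i ≤ h, ∀ k, H k (n + i) ↔ H k n := by
  obtain ⟨t', ht, g⟩ := hG
  intro i hi k
  have h4 : 4 ^ t' ≤ n := (Nat.pow_le_pow_right (by norm_num) ht).trans hn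
  exact (H_transfer h4 (Nat.le_add_right _ _) (by omega) (g i hi).1 k).1

open Classical in
/-- the bad residues -/
noncomputable def BR (h t : ℕ) : Finset ℕ := (Finset.range (2 ^ t)).filter fun r => ¬ Good h t r

theorem BR_sub (h t : ℕ) : BR h t ⊆ Finset.range (2 ^ t) := by
  classical
  exact Finset.filter_subset _ _

theorem mem_BR {h t n : ℕ} : n % 2 ^ t ∈ BR h t ↔ ¬ Good h t n := by
  classical
  unfold BR
  rw [Finset.mem_filter, Finset.mem_range, ← Good_mod]
  exact ⟨fun g => g.2, fun g => ⟨Nat.mod_lt _ (by positivity), g⟩⟩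

/-- the density of the bad residues is small -/
theorem BR_small (h : ℕ) {ε : ℝ} (hε : 0 < ε) : ∃ t : ℕ, ((BR h t).card : ℝ) / 2 ^ t ≤ ε := by
  classical
  have h1 := run_Tn (Slow_one h)
  unfold HD at h1
  have h2 : Tendsto (fun t : ℕ => 4 ^ t) atTop atTop :=
    tendsto_atTop_mono (fun t => (Nat.lt_pow_self (by norm_num : 1 < 4)).le) tendsto_id
  have h3 := h1.comp h2
  have h4 := h3.eventually (lt_mem_nhds (show (1 : ℝ) - ε / 2 < 1 by linarith))
  have h5 : Tendsto (fun t : ℕ => ((h : ℝ) + 1) / 4 ^ t) atTop (𝓝 0) :=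
    tendsto_const_nhds.div_atTop (tendsto_pow_atTop_atTop_of_one_lt (by norm_num))
  have h6 := h5.eventually (gt_mem_nhds (show (0 : ℝ) < ε / 2 by positivity))
  obtain ⟨t, h7, h8⟩ := (h4.and h6).exists
  refine ⟨t, ?_⟩
  simp only [Function.comp] at h7
  have h4t : (0 : ℝ) < 4 ^ t := by positivity
  push_cast at h7
  rw [lt_div_iff₀ h4t] at h7
  set A : Set ℕ := {n : ℕ | 1 ≤ n ∧ n ≤ 4 ^ t ∧ ∃ t', 4 ^ t' ≤ n ∧ ∀ i ≤ h, Tn^[t'] (n + i) = Tn^[t'] n} with hA
  -- the bad integers up to `4^t`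
  set U : Finset ℕ := ((BR h t) ×ˢ Finset.range (2 ^ t)).image (fun q => q.1 + 2 ^ t * q.2) with hU
  have hUc : U.card = (BR h t).card * 2 ^ t := by
    rw [hU, Finset.card_image_of_injOn, Finset.card_product, Finset.card_range]
    rintro ⟨a, b⟩ hab ⟨a', b'⟩ hab' he
    rw [Finset.mem_coe, Finset.mem_product] at hab hab'
    have ha := Finset.mem_range.1 (BR_sub h t hab.1)
    have ha' := Finset.mem_range.1 (BR_sub h t hab'.1)
    simp only at he ha ha'
    have e1 : (a + 2 ^ t * b) % 2 ^ t = a := by rw [Nat.add_mul_mod_self_left]; exact Nat.mod_eq_of_lt ha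
    have e2 : (a' + 2 ^ t * b') % 2 ^ t = a' := by rw [Nat.add_mul_mod_self_left]; exact Nat.mod_eq_of_lt ha'
    have e3 : a = a' := by rw [← e1, ← e2, he]
    subst e3
    have e4 : 2 ^ t * b = 2 ^ t * b' := by omega
    have e5 : b = b' := Nat.eq_of_mul_eq_mul_left (by positivity) e4
    rw [e5]
  have h4e : (4 : ℕ) ^ t = 2 ^ t * 2 ^ t := by rw [← mul_pow]; norm_num
  have hUle : ∀ n ∈ U, n < 4 ^ t ∧ ¬ Good h t n := by
    intro n hn
    rw [hU, Finset.mem_image] at hn
    obtain ⟨⟨a, b⟩, hab, rfl⟩ := hn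
    rw [Finset.mem_product, Finset.mem_range] at hab
    have ha := Finset.mem_range.1 (BR_sub h t hab.1)
    have hb := hab.2
    simp only at ha hb ⊢
    constructor
    · rw [h4e]
      have : 2 ^ t * b + 2 ^ t ≤ 2 ^ t * 2 ^ t := by
        calc 2 ^ t * b + 2 ^ t = 2 ^ t * (b + 1) := by ring
          _ ≤ 2 ^ t * 2 ^ t := Nat.mul_le_mul_left _ hb
      omega
    · rw [Good_class]
      have := (Finset.mem_filter.1 hab.1).2
      exact this
  have hAfin : A.Finite := (Set.finite_Iic (4 ^ t)).subset fun n hn => hn.2.1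
  have hdis : ∀ n ∈ A, h < n → n ∉ U := by
    rintro n ⟨_, h10, t', h11, h12⟩ hhn hnU
    apply (hUle n hnU).2
    refine ⟨t', ?_, fun i hi => ⟨h12 i hi, odn_eq h11 (Nat.le_add_right _ _) (by omega) (h12 i hi)⟩⟩
    exact (Nat.pow_le_pow_iff_right (by norm_num)).1 (h11.trans h10)
  -- the count
  have hcount : A.ncard + U.card ≤ 4 ^ t + 1 + h := by
    have e1 : A.ncard = hAfin.toFinset.card := Set.ncard_eq_toFinset_card A hAfin
    have e2 : (hAfin.toFinset ∪ U).card ≤ 4 ^ t + 1 := by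
      have : hAfin.toFinset ∪ U ⊆ Finset.range (4 ^ t + 1) := by
        intro n hn
        rw [Finset.mem_union] at hn
        rw [Finset.mem_range]
        rcases hn with hn | hn
        · have := ((Set.Finite.mem_toFinset hAfin).1 hn).2.1
          omega
        · have := (hUle n hn).1
          omega
      exact (Finset.card_le_card this).trans (by rw [Finset.card_range])
    have e3 : (hAfin.toFinset ∩ U).card ≤ h := by
      have : hAfin.toFinset ∩ U ⊆ Finset.Icc 1 h := by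
        intro n hn
        rw [Finset.mem_inter] at hn
        have h10 := (Set.Finite.mem_toFinset hAfin).1 hn.1
        rw [Finset.mem_Icc]
        refine ⟨h10.1, ?_⟩
        by_contra hc
        exact hdis n h10 (by omega) hn.2
      exact (Finset.card_le_card this).trans (by simp)
    have e4 := Finset.card_union_add_card_inter hAfin.toFinset U
    rw [e1]
    omega
  have hcount' : (A.ncard : ℝ) + (BR h t).card * 2 ^ t ≤ 4 ^ t + 1 + h := by
    rw [hUc] at hcount
    exact_mod_cast hcount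
  rw [div_lt_iff₀ h4t] at h8
  have h4r : (4 : ℝ) ^ t = 2 ^ t * 2 ^ t := by rw [← mul_pow]; norm_num
  rw [div_le_iff₀ (by positivity)]
  have h13 : ((BR h t).card : ℝ) * 2 ^ t ≤ ε * 4 ^ t := by nlinarith [h7]
  rw [h4r, ← mul_assoc] at h13
  exact le_of_mul_le_mul_right h13 (by positivity)

/-! ### unions of classes -/

theorem cZ_union {q : ℕ} (hq : 0 < q) (W : Finset ℕ) (hW : W ⊆ Finset.range q) (p : ℝ × ℤ) :
    cZ (fun n => n % q ∈ W) p = ∑ r ∈ W, cZ (fun n => n ≡ r [MOD q]) p := by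
  classical
  have hfin := fin_cZ (fun _ => True) p
  have key : ∀ (Q : ℕ → Prop) [DecidablePred Q], cZ Q p = ((hfin.toFinset.filter Q).card : ℝ) := by
    intro Q _
    unfold cZ
    rw [← Set.ncard_coe_finset]
    congr 2
    ext n
    rw [Finset.mem_coe, Finset.mem_filter, Set.Finite.mem_toFinset, Set.mem_ofPred_eq, Set.mem_ofPred_eq]
    tauto
  rw [key]
  have h := Finset.card_eq_sum_card_fiberwise (s := hfin.toFinset.filter (fun n => n % q ∈ W)) (t := W)
    (f := fun n => n % q) (fun n hn => (Finset.mem_filter.1 (Finset.mem_coe.1 hn)).2)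
  rw [h]
  push_cast
  refine Finset.sum_congr rfl fun r hr => ?_
  rw [key]
  congr 2
  ext n
  have hrq := Finset.mem_range.1 (hW hr)
  rw [Finset.mem_filter, Finset.mem_filter, Finset.mem_filter]
  have e : (n ≡ r [MOD q]) ↔ n % q = r := by
    unfold Nat.ModEq
    rw [Nat.mod_eq_of_lt hrq]
  rw [e]
  constructor
  · rintro ⟨⟨a, _⟩, b⟩; exact ⟨a, b⟩
  · rintro ⟨a, b⟩; exact ⟨⟨a, by rw [b]; exact hr⟩, b⟩

theorem LQ_union {Ψ : ℝ → ℝ} {q : ℕ} (hq : 0 < q) {t : ℝ} (W : Finset ℕ) (hW : W ⊆ Finset.range q)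
    (h : ∀ r ∈ W, LQ (fun n => n ≡ r [MOD q]) t Ψ) : LQ (fun n => n % q ∈ W) (W.card * t) Ψ := by
  intro K
  have h1 := tendsto_finsetSum W fun r hr => h r hr K
  rw [Finset.sum_const_zero] at h1
  refine h1.congr fun p => ?_
  rw [cZ_union hq W hW, Finset.sum_sub_distrib, Finset.sum_const, nsmul_eq_mul, Finset.sum_div]
  ring

end Pool.Agent.R468.RC
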