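import Pool.Agent.R468.RC.H

/-!
Residue classes, part 9: the final form of the local limit law in residue classes, with runs.
-/

set_option autoImplicit false

namespace Pool.Agent.R468.RC

open Filter Topology Finset
open Pool.Agent.R468.GL
open Pool.Agent.R468.LL (lam lam_eq lam_pos lam_lt)
open Pool.Agent.H499R2.LT
open Pool.Agent.H499R2.ND (Td Tn Dn)
open Pool.Agent.H499R2.HL

theorem lam_log : lam = Real.log (4 / 3) := by
  rw [lam_eq, show (4 : ℝ) / 3 = 2 ^ 2 / 3 by norm_num, Real.log_div (by norm_num) (by norm_num), Real.log_pow]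
  push_cast; ring

/-- the law in elementary terms -/
theorem LQ_eps {Q : ℕ → Prop} {t : ℝ} {Ψ : ℝ → ℝ} (h : LQ Q t Ψ) : ∀ K ε : ℝ, 0 < ε → ∃ X₀ : ℝ, ∀ x : ℝ, X₀ ≤ x →
    ∀ k : ℕ, |(k : ℝ) - 2 / Real.log (4 / 3) * Real.log x| ≤ K * Real.sqrt (Real.log x) →
      |({n : ℕ | 1 ≤ n ∧ (n : ℝ) ≤ x ∧ Q n ∧ H k n}.ncard : ℝ) /
        (x * (Real.exp (-(((k : ℝ) - 2 / Real.log (4 / 3) * Real.log x) ^ 2 /
          (2 * (2 * Real.log 3 ^ 2 / Real.log (4 / 3) ^ 3 * Real.log x)))) /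
          Real.sqrt (2 * Real.pi * (2 * Real.log 3 ^ 2 / Real.log (4 / 3) ^ 3 * Real.log x)))) -
        t * Ψ (Real.logb 3 (x / 2 ^ k))| ≤ ε := by
  intro K ε hε
  have hlam := lam_pos
  have hev := (Metric.tendsto_nhds.1 (h (K * lam))) ε hε
  unfold xg at hev
  rw [Filter.eventually_inf_principal, Filter.eventually_comap] at hev
  obtain ⟨X₀, hX₀⟩ := eventually_atTop.1 hev
  refine ⟨max X₀ 2, fun x hx k hk => ?_⟩
  have hx2 : 2 ≤ x := (le_max_right _ _).trans hx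
  have hx0 : 0 < x := by linarith
  have hmem : |(((k : ℕ) : ℤ) : ℝ) * lam - A0 PT * Real.log x| ≤ K * lam * Real.sqrt (Real.log x) := by
    have e : (((k : ℕ) : ℤ) : ℝ) * lam - A0 PT * Real.log x =
        ((k : ℝ) - 2 / Real.log (4 / 3) * Real.log x) * lam := by
      rw [A0_PT, ← lam_log]
      push_cast
      field_simp
    rw [e, abs_mul, abs_of_pos hlam]
    calc _ ≤ K * Real.sqrt (Real.log x) * lam := mul_le_mul_of_nonneg_right hk hlam.le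
      _ = _ := by ring
  have g1 := hX₀ x ((le_max_left _ _).trans hx) (x, ((k : ℕ) : ℤ)) rfl hmem
  simp only at g1
  have e1 : cZ Q (x, ((k : ℕ) : ℤ)) = ({n : ℕ | 1 ≤ n ∧ (n : ℝ) ≤ x ∧ Q n ∧ H k n}.ncard : ℝ) := by
    unfold cZ
    congr 2
    ext n
    rw [Set.mem_ofPred_eq, Set.mem_ofPred_eq]
    simp only [Int.toNat_natCast, Nat.cast_nonneg, true_and]
  have e2 : gd PT x ((k : ℕ) : ℤ) = Real.exp (-(((k : ℝ) - 2 / Real.log (4 / 3) * Real.log x) ^ 2 /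
        (2 * (2 * Real.log 3 ^ 2 / Real.log (4 / 3) ^ 3 * Real.log x)))) /
        Real.sqrt (2 * Real.pi * (2 * Real.log 3 ^ 2 / Real.log (4 / 3) ^ 3 * Real.log x)) := by
    unfold gd
    rw [A0_PT, ww_PT, lam_log]
    push_cast
    rfl
  have e3 : sv PT (x, ((k : ℕ) : ℤ)) = Real.logb 3 (x / 2 ^ k) := by
    unfold sv Real.logb
    rw [ww_PT, kap_PT, Real.log_div hx0.ne' (by positivity), Real.log_pow]
    push_cast
    rfl
  rw [Real.dist_eq, sub_zero, e1, e2, e3] at g1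
  exact g1.le

/-- THE LOCAL LIMIT LAW IN RESIDUE CLASSES, WITH RUNS -/
theorem main_classes : ∃ (δ : ℝ) (Ψ : ℝ → ℝ), 0 < δ ∧ δ ≤ 1 ∧
    (δ = 1 ↔ ∀ n : ℕ, 1 ≤ n → ∃ k : ℕ, Tn^[k] n = 1) ∧
    Dn (fun n => ∃ k : ℕ, Tn^[k] n = 1) δ ∧
    Continuous Ψ ∧ (∀ t, Ψ (t + 1) = Ψ t) ∧
    (∀ t, δ * (Real.log 3 / 2) ≤ Ψ t ∧ Ψ t ≤ δ * (3 * Real.log 3 / 2)) ∧
    (∫ t in (0 : ℝ)..1, Ψ t = δ) ∧
    ∀ (q r h : ℕ), 1 ≤ q → ∀ K ε : ℝ, 0 < ε → ∃ X₀ : ℝ, ∀ x : ℝ, X₀ ≤ x → ∀ k : ℕ,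
      |(k : ℝ) - 2 / Real.log (4 / 3) * Real.log x| ≤ K * Real.sqrt (Real.log x) →
      |({n : ℕ | 1 ≤ n ∧ (n : ℝ) ≤ x ∧ n ≡ r [MOD q] ∧ ∀ i ≤ h, H k (n + i)}.ncard : ℝ) /
        (x * (Real.exp (-(((k : ℝ) - 2 / Real.log (4 / 3) * Real.log x) ^ 2 /
          (2 * (2 * Real.log 3 ^ 2 / Real.log (4 / 3) ^ 3 * Real.log x)))) /
          Real.sqrt (2 * Real.pi * (2 * Real.log 3 ^ 2 / Real.log (4 / 3) ^ 3 * Real.log x)))) -
        1 / q * Ψ (Real.logb 3 (x / 2 ^ k))| ≤ ε := by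
  obtain ⟨δ, Ψ, M, h0, h0', h0'', h1, h2, h3, h4, h5, h6, h7, h8, h9, h10⟩ := base
  have hl3 : 0 < Real.log 3 := Real.log_pos (by norm_num)
  have hM : ∀ t, |Ψ t| ≤ M := fun t => by
    rw [abs_of_nonneg ((by positivity : 0 ≤ δ * (Real.log 3 / 2)).trans (h4 t).1)]
    exact h6 t
  refine ⟨δ, Ψ, h0, h0', h0'', h1, h2, h3, h4, h5, fun q r h hq K ε hε => ?_⟩
  -- the level itself is covered by the runs
  have hR := run_law h2 h3 hM h9 hq r h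
  have hQ : LQ (fun n => n ≡ r [MOD q]) (1 / q) Ψ := mod_law h2 h3 hM h9 hq r
  obtain ⟨X1, hX1⟩ := LQ_eps hR K ε hε
  refine ⟨X1, fun x hx k hk => ?_⟩
  have g := hX1 x hx k hk
  have e1 : {n : ℕ | 1 ≤ n ∧ (n : ℝ) ≤ x ∧ (n ≡ r [MOD q] ∧ ∀ i ≤ h, ∀ k, H k (n + i) ↔ H k n) ∧ H k n} =
      {n : ℕ | 1 ≤ n ∧ (n : ℝ) ≤ x ∧ n ≡ r [MOD q] ∧ ∀ i ≤ h, H k (n + i)} := by
    ext n
    rw [Set.mem_ofPred_eq, Set.mem_ofPred_eq]
    constructor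
    · rintro ⟨a, b, ⟨c, d⟩, e⟩
      exact ⟨a, b, c, fun i hi => (d i hi k).2 e⟩
    · rintro ⟨a, b, c, d⟩
      have h0 := d 0 (Nat.zero_le _)
      rw [Nat.add_zero] at h0
      refine ⟨a, b, ⟨c, fun i hi k' => ?_⟩, h0⟩
      constructor
      · intro hk'
        have := H_unique hk' (d i hi)
        rw [this]; exact h0
      · intro hk'
        have := H_unique hk' h0
        rw [this]; exact d i hi
  rw [e1] at g
  exact g

end Pool.Agent.R468.RC
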