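import Pool.Agent.R344.TH.F
import Pool.Agent.R468.RC.C

/-!
Residue classes, part 10: the integers with an atypical parity vector form a thin set.
-/

set_option autoImplicit false

namespace Pool.Agent.R468.RC

open Filter Topology Finset
open Pool.Agent.H499R2.LT
open Pool.Agent.H499R2.ND (Td Tn Dn)
open Pool.Agent.H499R2.HL
open Pool.Agent.H499R2.CO (Tz)
open Pool.Agent.R344.SP (Wn mem_Wn)
open Pool.Agent.R344.TH (fA mem_fA HY od_large)

theorem od_odn (t : ℕ) : ∀ n : ℕ, Pool.Agent.R344.SP.od 1 t (n : ℤ) = odn t n := by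
  induction t with
  | zero => intro n; simp [Pool.Agent.R344.SP.od, odn]
  | succ t ih =>
    intro n
    rw [Pool.Agent.R344.SP.od_succ', odn_succ, Pool.Agent.H499R2.CO.Tn_cast, ih, Nat.add_comm]
    congr 1

/-- atypical parity vectors -/
def Dv (η : ℝ) : Set ℤ := {v : ℤ | 1 ≤ v ∧ ∃ i : ℕ, 2 * i ≤ Nat.log 2 v.toNat ∧
  η * (Nat.log 2 v.toNat : ℕ) < |2 * (odn i v.toNat : ℝ) - i|}

theorem ev_J {b : ℝ} (hb : 0 < b) : ∃ J0 : ℕ, ∀ J : ℕ, J0 ≤ J →
    4 * ((J : ℝ) + 1) ^ 2 * Real.exp (-(b * J)) ≤ Real.exp (-((J : ℝ) + 1) ^ (1 / 4 : ℝ)) := by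
  have h1 : Tendsto (fun J : ℕ => b / 2 * ((J : ℝ) + 1)) atTop atTop :=
    (tendsto_atTop_add_const_right _ _ tendsto_natCast_atTop_atTop).const_mul_atTop (by positivity)
  have h2 := (Real.tendsto_pow_mul_exp_neg_atTop_nhds_zero 2).comp h1
  have h3 := h2.eventually (gt_mem_nhds (show (0 : ℝ) < b ^ 2 / (16 * Real.exp b) by positivity))
  have hs : Tendsto (fun J : ℕ => ((J : ℝ) + 1) ^ (3 / 4 : ℝ)) atTop atTop :=
    (tendsto_rpow_atTop (by norm_num)).comp (tendsto_atTop_add_const_right _ _ tendsto_natCast_atTop_atTop)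
  have h4 := hs.eventually (eventually_ge_atTop (2 / b))
  obtain ⟨J0, hJ0⟩ := eventually_atTop.1 (h3.and h4)
  refine ⟨J0, fun J hJ => ?_⟩
  obtain ⟨g1, g2⟩ := hJ0 J hJ
  simp only [Function.comp] at g1
  set t : ℝ := (J : ℝ) + 1 with ht
  have ht0 : 0 < t := by positivity
  have g3 : t ^ (1 / 4 : ℝ) ≤ b / 2 * t := by
    have e : t = t ^ (3 / 4 : ℝ) * t ^ (1 / 4 : ℝ) := by
      rw [← Real.rpow_add ht0]; norm_num
    have h5 : 0 < t ^ (1 / 4 : ℝ) := Real.rpow_pos_of_pos ht0 _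
    conv_rhs => rw [e]
    have h6 : 1 ≤ b / 2 * t ^ (3 / 4 : ℝ) := by
      rw [div_le_iff₀ hb] at g2
      linarith
    nlinarith
  have g4 : Real.exp (-(b / 2 * t)) ≤ Real.exp (-t ^ (1 / 4 : ℝ)) := Real.exp_le_exp.2 (by linarith)
  refine le_trans ?_ g4
  have e1 : Real.exp (-(b * J)) = Real.exp b * (Real.exp (-(b / 2 * t)) * Real.exp (-(b / 2 * t))) := by
    rw [← Real.exp_add, ← Real.exp_add]; congr 1; rw [ht]; ring
  rw [e1]
  have h7 : 0 < Real.exp (-(b / 2 * t)) := Real.exp_pos _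
  have g5 : 4 * t ^ 2 * Real.exp b * Real.exp (-(b / 2 * t)) ≤ 1 := by
    have g6 : (b / 2 * t) ^ 2 * Real.exp (-(b / 2 * t)) ≤ b ^ 2 / (16 * Real.exp b) := g1.le
    rw [le_div_iff₀ (by positivity)] at g6
    have e2 : (b / 2 * t) ^ 2 * Real.exp (-(b / 2 * t)) * (16 * Real.exp b) =
        b ^ 2 * (4 * t ^ 2 * Real.exp b * Real.exp (-(b / 2 * t))) := by ring
    rw [e2] at g6
    have hb2 : 0 < b ^ 2 := by positivity
    by_contra hc
    push Not at hc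
    nlinarith
  calc 4 * t ^ 2 * (Real.exp b * (Real.exp (-(b / 2 * t)) * Real.exp (-(b / 2 * t))))
      = (4 * t ^ 2 * Real.exp b * Real.exp (-(b / 2 * t))) * Real.exp (-(b / 2 * t)) := by ring
    _ ≤ 1 * Real.exp (-(b / 2 * t)) := mul_le_mul_of_nonneg_right g5 h7.le
    _ = _ := one_mul _

/-- the set of atypical parity vectors is thin -/
theorem Dv_thin {η : ℝ} (hη : 0 < η) : ∃ Y0 : ℝ, 1 ≤ Y0 ∧ ∀ Y : ℝ, Y0 ≤ Y → ∀ X : ℝ, Y ≤ X →
    ((fA (Dv η) Y X).card : ℝ) ≤ X * Real.exp (-(Real.log X) ^ (1 / 4 : ℝ)) := by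
  classical
  obtain ⟨ρ1, hρ10, hρ11, hc1⟩ := od_large (d := 1) (by norm_num) (c₁ := 1 / 2 + η) (by linarith)
  obtain ⟨ρ2, hρ20, hρ21, hc2⟩ := Pool.Agent.R344.SP.od_small (d := 1) (by norm_num) (c₀ := 1 / 2 - η) (by linarith)
  set ρ := max ρ1 ρ2 with hρ
  have hρ0 : 0 < ρ := lt_of_lt_of_le hρ10 (le_max_left _ _)
  have hρ1 : ρ < 1 := max_lt hρ11 hρ21
  set a : ℝ := -Real.log ρ with ha
  have ha0 : 0 < a := by have := Real.log_neg hρ0 hρ1; linarith
  set b : ℝ := min (a * η) (1 / 2) with hb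
  have hb0 : 0 < b := lt_min (by positivity) (by norm_num)
  have hb1 : b ≤ a * η := min_le_left _ _
  have hb2 : b ≤ 1 / 2 := min_le_right _ _
  have hl2 := Real.log_two_gt_d9
  have hl2' := Real.log_two_lt_d9
  obtain ⟨J0, hJ0⟩ := ev_J hb0
  refine ⟨2 ^ (J0 + 1), one_le_pow₀ (by norm_num), fun Y hY X hX => ?_⟩
  have hXY : (2 : ℝ) ^ (J0 + 1) ≤ X := hY.trans hX
  have hY1 : 1 ≤ Y := le_trans (one_le_pow₀ (by norm_num)) hY
  have hX1 : 1 ≤ X := hY1.trans hX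
  have hX0 : 0 < X := by linarith
  set J : ℕ := Nat.log 2 ⌊X⌋₊ with hJ
  have hfl : 1 ≤ ⌊X⌋₊ := by rw [Nat.one_le_floor_iff]; exact hX1
  have hJX : (2 : ℝ) ^ J ≤ X := by
    have h1 : 2 ^ J ≤ ⌊X⌋₊ := Nat.pow_log_le_self 2 (by omega)
    have h2 : ((2 : ℝ) ^ J) ≤ (⌊X⌋₊ : ℝ) := by exact_mod_cast h1
    exact h2.trans (Nat.floor_le hX0.le)
  have hXJ : X < (2 : ℝ) ^ (J + 1) := by
    have h1 : ⌊X⌋₊ < 2 ^ (J + 1) := Nat.lt_pow_succ_log_self (by norm_num) _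
    have h2 : ((⌊X⌋₊ + 1 : ℕ) : ℝ) ≤ 2 ^ (J + 1) := by exact_mod_cast h1
    have h3 := Nat.lt_floor_add_one X
    push_cast at h2
    linarith
  have hJJ0 : J0 ≤ J := by
    have h1 : (2 : ℝ) ^ (J0 + 1) < 2 ^ (J + 1) := hXY.trans_lt hXJ
    have h2 := (pow_lt_pow_iff_right₀ (by norm_num : (1 : ℝ) < 2)).1 h1
    omega
  -- the covering
  set U : ℕ → ℕ → Finset ℤ := fun m i => if η * m ≤ i ∧ i ≤ m then
    (Wn ((2 : ℝ) ^ m)).filter (fun n => (1 / 2 + η) * (i : ℝ) ≤ (Pool.Agent.R344.SP.od 1 i n : ℝ)) ∪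
    (Wn ((2 : ℝ) ^ m)).filter (fun n => (Pool.Agent.R344.SP.od 1 i n : ℝ) < (1 / 2 - η) * (i : ℝ)) else ∅ with hU
  have hcov : fA (Dv η) Y X ⊆ (range (J + 1)).biUnion (fun m => (range (J + 1)).biUnion (U m)) := by
    intro g hg
    rw [mem_fA] at hg
    obtain ⟨⟨hg1, hg2⟩, hg0, i, hi1, hi2⟩ := hg
    have hgn : ((g.toNat : ℕ) : ℤ) = g := Int.toNat_of_nonneg (by omega)
    have hgnR : ((g.toNat : ℕ) : ℝ) = g := by exact_mod_cast hgn
    set m : ℕ := Nat.log 2 g.toNat with hm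
    have hm1 : (2 : ℝ) ^ m ≤ g := by
      have h1 : 2 ^ m ≤ g.toNat := Nat.pow_log_le_self 2 (by omega)
      rw [← hgnR]
      exact_mod_cast h1
    have hm2 : (g : ℝ) < 2 ^ (m + 1) := by
      have h1 : g.toNat < 2 ^ (m + 1) := Nat.lt_pow_succ_log_self (by norm_num) _
      rw [← hgnR]
      exact_mod_cast h1
    have hmJ : m ≤ J := by
      have h1 : (2 : ℝ) ^ m < 2 ^ (J + 1) := (hm1.trans hg2).trans_lt hXJ
      have h2 := (pow_lt_pow_iff_right₀ (by norm_num : (1 : ℝ) < 2)).1 h1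
      omega
    rw [mem_biUnion]
    refine ⟨m, mem_range.2 (by omega), ?_⟩
    rw [mem_biUnion]
    refine ⟨i, mem_range.2 (by omega), ?_⟩
    have hodi : (odn i g.toNat : ℝ) ≤ i := by
      have h1 := Pool.Agent.R344.SP.od_le 1 i (g.toNat : ℤ)
      rw [od_odn] at h1
      exact_mod_cast h1
    have hod0 : (0 : ℝ) ≤ (odn i g.toNat : ℝ) := Nat.cast_nonneg _
    have habs : |2 * (odn i g.toNat : ℝ) - i| ≤ i := by
      rw [abs_le]; constructor <;> linarith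
    have him : (2 : ℝ) * i ≤ m := by exact_mod_cast hi1
    have hi0 : (0 : ℝ) ≤ i := Nat.cast_nonneg i
    have hUm : U m i = (Wn ((2 : ℝ) ^ m)).filter (fun n => (1 / 2 + η) * (i : ℝ) ≤ (Pool.Agent.R344.SP.od 1 i n : ℝ)) ∪
        (Wn ((2 : ℝ) ^ m)).filter (fun n => (Pool.Agent.R344.SP.od 1 i n : ℝ) < (1 / 2 - η) * (i : ℝ)) := by
      rw [hU]
      exact if_pos ⟨(hi2.le.trans habs), by omega⟩
    rw [hUm, mem_union, mem_filter, mem_filter, mem_Wn]
    have hod : (Pool.Agent.R344.SP.od 1 i g : ℝ) = (odn i g.toNat : ℝ) := by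
      conv_lhs => rw [← hgn]
      rw [od_odn]
    rw [hod]
    have hw : (2 : ℝ) ^ m ≤ g ∧ (g : ℝ) < 2 * 2 ^ m := ⟨hm1, by rw [pow_succ] at hm2; linarith⟩
    rcases abs_cases (2 * (odn i g.toNat : ℝ) - i) with ⟨h1, _⟩ | ⟨h1, _⟩
    · left
      refine ⟨hw, ?_⟩
      rw [h1] at hi2
      nlinarith
    · right
      refine ⟨hw, ?_⟩
      rw [h1] at hi2
      nlinarith
  -- the count
  have hUc : ∀ m ∈ range (J + 1), ∀ i ∈ range (J + 1), ((U m i).card : ℝ) ≤ 4 * ((2 : ℝ) ^ J * Real.exp (-(b * J))) := by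
    intro m hm i _
    rw [mem_range] at hm
    rw [hU]
    simp only
    split_ifs with h
    · obtain ⟨h1, h2⟩ := h
      have h2m : (2 : ℝ) ^ i ≤ 2 ^ m := pow_le_pow_right₀ (by norm_num) h2
      have h3 := hc1 i ((2 : ℝ) ^ m) (by positivity)
      have h4 := hc2 i ((2 : ℝ) ^ m) (by positivity)
      have h5 : ρ1 ^ i ≤ ρ ^ i := pow_le_pow_left₀ hρ10.le (le_max_left _ _) i
      have h6 : ρ2 ^ i ≤ ρ ^ i := pow_le_pow_left₀ hρ20.le (le_max_right _ _) i
      have h7 : ρ ^ i ≤ Real.exp (-(b * m)) := by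
        have e : ρ ^ i = Real.exp (-(a * i)) := by
          have e' : -(a * i) = Real.log (ρ ^ i) := by rw [ha, Real.log_pow]; ring
          rw [e', Real.exp_log (by positivity)]
        rw [e]
        apply Real.exp_le_exp.2
        have : b * m ≤ a * η * m := mul_le_mul_of_nonneg_right hb1 (Nat.cast_nonneg m)
        nlinarith
      have h8 : (2 : ℝ) ^ m * Real.exp (-(b * m)) ≤ 2 ^ J * Real.exp (-(b * J)) := by
        have e : ∀ q : ℕ, (2 : ℝ) ^ q * Real.exp (-(b * q)) = Real.exp (q * (Real.log 2 - b)) := by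
          intro q
          have : (2 : ℝ) ^ q = Real.exp (q * Real.log 2) := by
            rw [← Real.log_pow, Real.exp_log (by positivity)]
          rw [this, ← Real.exp_add]; congr 1; ring
        rw [e, e]
        apply Real.exp_le_exp.2
        apply mul_le_mul_of_nonneg_right _ (by linarith)
        exact_mod_cast (by omega : m ≤ J)
      have h9 : 0 < (2 : ℝ) ^ m := by positivity
      have h10 : 0 ≤ ρ ^ i := by positivity
      calc _ ≤ (((Wn ((2 : ℝ) ^ m)).filter (fun n => (1 / 2 + η) * (i : ℝ) ≤ (Pool.Agent.R344.SP.od 1 i n : ℝ))).card : ℝ) +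
            (((Wn ((2 : ℝ) ^ m)).filter (fun n => (Pool.Agent.R344.SP.od 1 i n : ℝ) < (1 / 2 - η) * (i : ℝ))).card : ℝ) := by
            exact_mod_cast card_union_le _ _
        _ ≤ (2 ^ m + 2 ^ i) * ρ1 ^ i + (2 ^ m + 2 ^ i) * ρ2 ^ i := add_le_add h3 h4
        _ ≤ (2 ^ m + 2 ^ m) * ρ ^ i + (2 ^ m + 2 ^ m) * ρ ^ i := by
            apply add_le_add
            · exact mul_le_mul (by linarith) h5 (by positivity) (by positivity)
            · exact mul_le_mul (by linarith) h6 (by positivity) (by positivity)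
        _ = 4 * (2 ^ m * ρ ^ i) := by ring
        _ ≤ 4 * (2 ^ m * Real.exp (-(b * m))) := by
            have := mul_le_mul_of_nonneg_left h7 h9.le
            linarith
        _ ≤ _ := by linarith
    · rw [card_empty]
      push_cast
      positivity
  have h1 : ((fA (Dv η) Y X).card : ℝ) ≤ ((J : ℝ) + 1) * (((J : ℝ) + 1) * (4 * ((2 : ℝ) ^ J * Real.exp (-(b * J))))) := by
    have h2 : ((fA (Dv η) Y X).card : ℝ) ≤ ∑ m ∈ range (J + 1), ∑ i ∈ range (J + 1), ((U m i).card : ℝ) := by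
      have h3 := (card_le_card hcov).trans (card_biUnion_le.trans (sum_le_sum fun m _ => card_biUnion_le))
      exact_mod_cast h3
    refine h2.trans ?_
    calc _ ≤ ∑ m ∈ range (J + 1), ∑ i ∈ range (J + 1), 4 * ((2 : ℝ) ^ J * Real.exp (-(b * J))) :=
          sum_le_sum fun m hm => sum_le_sum fun i hi => hUc m hm i hi
      _ = _ := by
          rw [sum_const, sum_const, card_range, nsmul_eq_mul, nsmul_eq_mul]
          push_cast
          ring
  have h2 := hJ0 J hJJ0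
  have hlX : Real.log X ≤ (J : ℝ) + 1 := by
    have h3 : Real.log X ≤ Real.log ((2 : ℝ) ^ (J + 1)) := Real.log_le_log hX0 hXJ.le
    rw [Real.log_pow] at h3
    push_cast at h3
    nlinarith [(Nat.cast_nonneg J : (0 : ℝ) ≤ J)]
  have h3 : Real.exp (-((J : ℝ) + 1) ^ (1 / 4 : ℝ)) ≤ Real.exp (-(Real.log X) ^ (1 / 4 : ℝ)) := by
    apply Real.exp_le_exp.2
    apply neg_le_neg
    exact Real.rpow_le_rpow (Real.log_nonneg hX1) hlX (by norm_num)
  calc ((fA (Dv η) Y X).card : ℝ) ≤ _ := h1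
    _ = 2 ^ J * (4 * ((J : ℝ) + 1) ^ 2 * Real.exp (-(b * J))) := by ring
    _ ≤ X * Real.exp (-(Real.log X) ^ (1 / 4 : ℝ)) := by
        apply mul_le_mul hJX (h2.trans h3) (by positivity) hX0.le

end Pool.Agent.R468.RC
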