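import Pool.Agent.R468.RC.J
import Pool.Agent.R468.RC.I

/-!
Residue classes, part 11: trajectories that avoid the atypical elements.
-/

set_option autoImplicit false

namespace Pool.Agent.R468.RC

open Filter Topology Finset
open Pool.Agent.H499R2.LT
open Pool.Agent.H499R2.ND (Td Tn Dn)
open Pool.Agent.H499R2.HL
open Pool.Agent.R468.LL (lam lam_eq lam_pos lam_lt)

/-- the mean decrease of the logarithm -/
noncomputable def mp : ℝ := Real.log 2 - Real.log 3 / 2

theorem mp_lo : 0.1438 < mp := by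
  unfold mp
  have := Real.log_two_gt_d9
  have := Real.log_three_lt_d9
  linarith

theorem mp_hi : mp < 0.1439 := by
  unfold mp
  have := Real.log_two_lt_d9
  have := Real.log_three_gt_d9
  linarith

theorem it_pos {v : ℕ} (hv : 1 ≤ v) (i : ℕ) : 1 ≤ Tn^[i] v := by
  have h1 := iter_lower i v
  by_contra hc
  have h0 : Tn^[i] v = 0 := by omega
  rw [h0, mul_zero] at h1
  have h2 : 0 < 3 ^ odn i v * v := by positivity
  omega

theorem typ {η : ℝ} {v i : ℕ} (hv : 1 ≤ v) (hD : ((v : ℕ) : ℤ) ∉ Dv η) (hi : 2 * i ≤ Nat.log 2 v) :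
    |2 * (odn i v : ℝ) - i| ≤ η * (Nat.log 2 v : ℕ) := by
  by_contra hc
  push Not at hc
  exact hD ⟨by exact_mod_cast hv, i, by simpa using hi, by simpa using hc⟩

theorem log_m {v : ℕ} (hv : 1 ≤ v) : (Nat.log 2 v : ℝ) * Real.log 2 ≤ Real.log v ∧
    Real.log v ≤ ((Nat.log 2 v : ℝ) + 1) * Real.log 2 := by
  have h1 : 2 ^ Nat.log 2 v ≤ v := Nat.pow_log_le_self 2 (by omega)
  have h2 : v < 2 ^ (Nat.log 2 v + 1) := Nat.lt_pow_succ_log_self (by norm_num) _
  have hv0 : (0 : ℝ) < v := by exact_mod_cast hv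
  constructor
  · rw [← Real.log_pow]
    exact Real.log_le_log (by positivity) (by exact_mod_cast h1)
  · have e : ((Nat.log 2 v : ℝ) + 1) * Real.log 2 = Real.log ((2 : ℝ) ^ (Nat.log 2 v + 1)) := by
      rw [Real.log_pow]; push_cast; rfl
    rw [e]
    exact Real.log_le_log hv0 (by exact_mod_cast h2.le)

theorem step_both {η : ℝ} (hη : 0 ≤ η) {v i : ℕ} (hv : 1 ≤ v) (hD : ((v : ℕ) : ℤ) ∉ Dv η)
    (hi : 2 * i ≤ Nat.log 2 v) :
    Real.log v - mp * i - 0.8 * η * Real.log v ≤ Real.log (Tn^[i] v : ℕ) ∧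
    Real.log (Tn^[i] v : ℕ) ≤ Real.log v - mp * i + 0.8 * η * Real.log v + Real.log 2 := by
  have h1 := typ hv hD hi
  obtain ⟨h2, _⟩ := log_m hv
  have hl2 := Real.log_two_gt_d9
  have hl3 := Real.log_three_lt_d9
  have hl3' := Real.log_three_gt_d9
  have h3 := abs_le.1 h1
  have hv0 : (0 : ℝ) < v := by exact_mod_cast hv
  have hT : (0 : ℝ) < (Tn^[i] v : ℕ) := by exact_mod_cast it_pos hv i
  set m : ℝ := ((Nat.log 2 v : ℕ) : ℝ) with hm
  have hm0 : 0 ≤ m := Nat.cast_nonneg _
  have hmv : m * (Real.log 3 / 2) ≤ 0.8 * Real.log v := by nlinarith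
  have hηm : η * m * (Real.log 3 / 2) ≤ 0.8 * η * Real.log v := by
    calc η * m * (Real.log 3 / 2) = η * (m * (Real.log 3 / 2)) := by ring
      _ ≤ η * (0.8 * Real.log v) := mul_le_mul_of_nonneg_left hmv hη
      _ = _ := by ring
  have hlow := iter_lower i v
  have hup := iter_upper i v
  have hlow' : (3 : ℝ) ^ odn i v * v ≤ 2 ^ i * (Tn^[i] v : ℕ) := by exact_mod_cast hlow
  have h2i : 2 ^ i ≤ v := (Nat.pow_le_pow_right (by norm_num) (by omega)).trans (Nat.pow_log_le_self 2 (by omega : v ≠ 0))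
  have hup' : (2 : ℝ) ^ i * (Tn^[i] v : ℕ) ≤ 3 ^ odn i v * (2 * v) := by
    have h4 : 2 ^ i * Tn^[i] v ≤ 3 ^ odn i v * (2 * v) := by
      have h5 : 3 ^ odn i v * (v + 2 ^ i) ≤ 3 ^ odn i v * (2 * v) := Nat.mul_le_mul_left _ (by omega)
      have h6 : 0 < 3 ^ odn i v := by positivity
      omega
    exact_mod_cast h4
  have L1 := Real.log_le_log (by positivity) hlow'
  have L2 := Real.log_le_log (by positivity) hup'
  rw [Real.log_mul (by positivity) hv0.ne', Real.log_mul (by positivity) hT.ne', Real.log_pow, Real.log_pow] at L1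
  rw [Real.log_mul (by positivity) hT.ne', Real.log_mul (by positivity) (by positivity),
    Real.log_mul (by norm_num) hv0.ne', Real.log_pow, Real.log_pow] at L2
  have hl30 : 0 < Real.log 3 / 2 := by linarith
  have k1 : (i - η * m) * (Real.log 3 / 2) ≤ 2 * (odn i v : ℝ) * (Real.log 3 / 2) :=
    mul_le_mul_of_nonneg_right (by linarith [h3.1]) hl30.le
  have k2 : 2 * (odn i v : ℝ) * (Real.log 3 / 2) ≤ (i + η * m) * (Real.log 3 / 2) :=
    mul_le_mul_of_nonneg_right (by linarith [h3.2]) hl30.le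
  unfold mp
  constructor
  · nlinarith
  · nlinarith

/-- a trajectory that stays above `y` and avoids the atypical elements, up to time `j` -/
def Reg (η y : ℝ) (v j : ℕ) : Prop := ∀ i < j, y ≤ (Tn^[i] v : ℕ) ∧ ((Tn^[i] v : ℕ) : ℤ) ∉ Dv η

theorem Reg_shift {η y : ℝ} {v j : ℕ} (h : Reg η y v j) (i : ℕ) : Reg η y (Tn^[i] v) (j - i) := by
  intro l hl
  rw [← Function.iterate_add_apply]
  exact h (l + i) (by omega)

section
variable {η y : ℝ} (hη : 0 < η) (hη1 : η ≤ 1 / 1000) (hy1 : 400 ≤ Real.log y) (hy2 : 5 ≤ η * Real.log y) (hy0 : 1 ≤ y)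
include hη hη1 hy1 hy2 hy0

/-- the step of the chain -/
theorem chain {v : ℕ} (hv : y ≤ v) (hD : ((v : ℕ) : ℤ) ∉ Dv η) :
    1 ≤ Nat.log 2 v / 2 ∧ Real.log (Tn^[Nat.log 2 v / 2] v : ℕ) ≤ 0.9 * Real.log v ∧
    (1 - 9 * η) * Real.log v - mp * (Nat.log 2 v / 2 : ℕ) ≤ (1 - 9 * η) * Real.log (Tn^[Nat.log 2 v / 2] v : ℕ) := by
  have hv1 : 1 ≤ v := by
    have : (1 : ℝ) ≤ v := hy0.trans hv
    exact_mod_cast this
  have hlv : 400 ≤ Real.log v := hy1.trans (Real.log_le_log (by linarith) hv)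
  obtain ⟨h1, h2⟩ := log_m hv1
  have hl2 := Real.log_two_gt_d9
  have hl2' := Real.log_two_lt_d9
  set m := Nat.log 2 v with hm
  have hmR : (400 : ℝ) < m := by nlinarith
  have hm4 : 400 < m := by exact_mod_cast hmR
  have hi : (m : ℝ) ≤ 2 * (m / 2 : ℕ) + 1 := by
    have : m ≤ 2 * (m / 2) + 1 := by omega
    exact_mod_cast this
  obtain ⟨g1, g2⟩ := step_both hη.le hv1 hD (i := m / 2) (by omega)
  have hmp := mp_lo
  have hmp' := mp_hi
  have k1 : 0.1035 * Real.log v - 0.15 ≤ mp * (m / 2 : ℕ) := by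
    have h3 : (Real.log v / Real.log 2 - 2) / 2 ≤ (m / 2 : ℕ) := by
      have : Real.log v / Real.log 2 ≤ m + 1 := by
        rw [div_le_iff₀ (by linarith)]; exact h2
      linarith
    have h4 : mp * ((Real.log v / Real.log 2 - 2) / 2) ≤ mp * (m / 2 : ℕ) := mul_le_mul_of_nonneg_left h3 (by linarith)
    have h5 : 0.1035 * Real.log v ≤ mp * (Real.log v / Real.log 2) / 2 := by
      have h6 : 0.207 * Real.log 2 ≤ mp := by linarith
      have h7 : 0.207 * Real.log v ≤ mp * (Real.log v / Real.log 2) := by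
        rw [← mul_div_assoc, le_div_iff₀ (by linarith)]
        nlinarith
      linarith
    nlinarith
  have hηl : 0.8 * η * Real.log v ≤ 0.0008 * Real.log v := by nlinarith
  have k2 : Real.log (Tn^[m / 2] v : ℕ) ≤ 0.9 * Real.log v := by linarith
  refine ⟨by omega, k2, ?_⟩
  have h9 : (1 - 9 * η) * Real.log (Tn^[m / 2] v : ℕ) = Real.log (Tn^[m / 2] v : ℕ) - 9 * η * Real.log (Tn^[m / 2] v : ℕ) := by
    ring
  rw [h9]
  have h10 : 9 * η * Real.log (Tn^[m / 2] v : ℕ) ≤ 9 * η * (0.9 * Real.log v) := mul_le_mul_of_nonneg_left k2 (by positivity)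
  nlinarith

/-- upper bound -/
theorem reg_up : ∀ j v : ℕ, y ≤ v → Reg η y v j → Real.log (Tn^[j] v : ℕ) ≤ (1 + η) * Real.log v := by
  intro j
  induction j using Nat.strong_induction_on with
  | _ j ih =>
    intro v hv hR
    have hv1 : 1 ≤ v := by
      have : (1 : ℝ) ≤ v := hy0.trans hv
      exact_mod_cast this
    have hlv : Real.log y ≤ Real.log v := Real.log_le_log (by linarith) hv
    have hηv : η * Real.log y ≤ η * Real.log v := mul_le_mul_of_nonneg_left hlv hη.le
    have hl2' := Real.log_two_lt_d9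
    have hmp := mp_lo
    rcases Nat.eq_zero_or_pos j with h0 | h0
    · subst h0
      simp only [Function.iterate_zero, id]
      nlinarith
    have hD : ((v : ℕ) : ℤ) ∉ Dv η := (hR 0 h0).2
    by_cases hj : 2 * j ≤ Nat.log 2 v
    · have h1 := (step_both hη.le hv1 hD hj).2
      have h2 : 0 ≤ mp * j := mul_nonneg (by linarith) (Nat.cast_nonneg j)
      nlinarith
    · obtain ⟨g1, g2, _⟩ := chain hη hη1 hy1 hy2 hy0 hv hD
      set i := Nat.log 2 v / 2 with hi
      have hij : i < j := by omega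
      have h3 := (hR i hij).1
      have h4 := ih (j - i) (by omega) (Tn^[i] v) h3 (Reg_shift hR i)
      rw [← Function.iterate_add_apply, Nat.sub_add_cancel hij.le] at h4
      have h5 : (1 + η) * Real.log (Tn^[i] v : ℕ) ≤ (1 + η) * (0.9 * Real.log v) :=
        mul_le_mul_of_nonneg_left g2 (by linarith)
      nlinarith

/-- after half of the digits the trajectory is below its start -/
theorem reg_below {j v : ℕ} (hv : y ≤ v) (hR : Reg η y v j) (hj : Nat.log 2 v ≤ 2 * j + 1) (hj0 : 1 ≤ j) :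
    Tn^[j] v < v := by
  have hv1 : 1 ≤ v := by
    have : (1 : ℝ) ≤ v := hy0.trans hv
    exact_mod_cast this
  have hlv : 400 ≤ Real.log v := hy1.trans (Real.log_le_log (by linarith) hv)
  have hD : ((v : ℕ) : ℤ) ∉ Dv η := (hR 0 (by omega)).2
  obtain ⟨g1, g2, _⟩ := chain hη hη1 hy1 hy2 hy0 hv hD
  set i := Nat.log 2 v / 2 with hi
  have hij : i ≤ j := by omega
  have hlog : Real.log (Tn^[j] v : ℕ) < Real.log v := by
    rcases Nat.lt_or_ge i j with h | h
    · have h3 := (hR i h).1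
      have h4 := reg_up hη hη1 hy1 hy2 hy0 (j - i) (Tn^[i] v) h3 (Reg_shift hR i)
      rw [← Function.iterate_add_apply, Nat.sub_add_cancel hij] at h4
      have h5 : (1 + η) * Real.log (Tn^[i] v : ℕ) ≤ (1 + η) * (0.9 * Real.log v) :=
        mul_le_mul_of_nonneg_left g2 (by linarith)
      nlinarith
    · have : i = j := by omega
      rw [← this]
      linarith
  have h6 : (0 : ℝ) < (Tn^[j] v : ℕ) := by exact_mod_cast it_pos hv1 j
  have h7 := (Real.log_lt_log_iff h6 (by exact_mod_cast hv1)).1 hlog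
  exact_mod_cast h7

/-- lower bound -/
theorem reg_lo : ∀ j v : ℕ, y ≤ v → Reg η y v j → (1 - 9 * η) * Real.log v - mp * j ≤ Real.log (Tn^[j] v : ℕ) := by
  intro j
  induction j using Nat.strong_induction_on with
  | _ j ih =>
    intro v hv hR
    have hv1 : 1 ≤ v := by
      have : (1 : ℝ) ≤ v := hy0.trans hv
      exact_mod_cast this
    have hlv : 400 ≤ Real.log v := hy1.trans (Real.log_le_log (by linarith) hv)
    have hmp := mp_lo
    rcases Nat.eq_zero_or_pos j with h0 | h0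
    · subst h0
      simp only [Function.iterate_zero, id, Nat.cast_zero, mul_zero, sub_zero]
      nlinarith
    have hD : ((v : ℕ) : ℤ) ∉ Dv η := (hR 0 h0).2
    by_cases hj : 2 * j ≤ Nat.log 2 v
    · have h1 := (step_both hη.le hv1 hD hj).1
      nlinarith
    · obtain ⟨g1, _, g2⟩ := chain hη hη1 hy1 hy2 hy0 hv hD
      set i := Nat.log 2 v / 2 with hi
      have hij : i < j := by omega
      have h3 := (hR i hij).1
      have h4 := ih (j - i) (by omega) (Tn^[i] v) h3 (Reg_shift hR i)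
      rw [← Function.iterate_add_apply, Nat.sub_add_cancel hij.le, Nat.cast_sub hij.le] at h4
      nlinarith

end

theorem Tn_le (v : ℕ) (hv : 1 ≤ v) : Tn v ≤ 2 * v := by
  unfold Tn
  split_ifs <;> omega

theorem it_le {v : ℕ} (hv : 1 ≤ v) (i : ℕ) : Tn^[i] v ≤ 2 ^ i * v := by
  induction i with
  | zero => simp
  | succ i ih =>
    rw [Function.iterate_succ_apply']
    refine (Tn_le _ (it_pos hv i)).trans ?_
    calc 2 * Tn^[i] v ≤ 2 * (2 ^ i * v) := Nat.mul_le_mul_left 2 ih
      _ = 2 ^ (i + 1) * v := by ring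

theorem it_one (i : ℕ) : Tn^[i] 1 ≤ 2 := by
  have h : ∀ i : ℕ, Tn^[i] 1 = 1 ∨ Tn^[i] 1 = 2 := by
    intro i
    induction i with
    | zero => left; rfl
    | succ i ih =>
      rw [Function.iterate_succ_apply']
      rcases ih with h | h
      · right; rw [h]; rfl
      · left; rw [h]; rfl
  rcases h i with h1 | h1 <;> omega

/-- LATE TIMES: in the levels of the window a trajectory that avoids the atypical elements does not come
back to its start -/
theorem far (K : ℝ) : ∃ x0 : ℝ, 2 ≤ x0 ∧ ∀ x : ℝ, x0 ≤ x → ∀ n k : ℕ, (n : ℝ) ≤ x → x / Real.log x ≤ n →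
    |(k : ℝ) * lam - 2 * Real.log x| ≤ K * Real.sqrt (Real.log x) → H k n →
    ((n : ℕ) : ℤ) ∉ Pool.Agent.R344.TH.HY 1 (Dv (1 / 1000)) (Real.exp (Real.sqrt (Real.log x))) →
    ∀ j : ℕ, Nat.log 2 n ≤ 2 * j + 1 → Tn^[j] n < n := by
  -- large logarithms
  have hev : ∀ᶠ L : ℝ in atTop, 10 ^ 8 ≤ L ∧ Real.log L + (|K| + 2) * Real.sqrt L ≤ L / 1000 := by
    have h1 : Tendsto (fun L : ℝ => Real.log L / L) atTop (𝓝 0) := by
      have := Real.isLittleO_log_id_atTop.tendsto_div_nhds_zero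
      exact this
    have h2 : Tendsto (fun L : ℝ => (|K| + 2) * (Real.sqrt L / L)) atTop (𝓝 0) := by
      have h3 : Tendsto (fun L : ℝ => (|K| + 2) * (1 / Real.sqrt L)) atTop (𝓝 ((|K| + 2) * 0)) :=
        (tendsto_const_nhds.div_atTop Real.tendsto_sqrt_atTop).const_mul _
      rw [mul_zero] at h3
      refine h3.congr' ?_
      filter_upwards [eventually_gt_atTop 0] with L hL
      have := Real.mul_self_sqrt hL.le
      have hs := Real.sqrt_pos.2 hL
      congr 1
      rw [div_eq_div_iff hs.ne' hL.ne', one_mul, this]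
    have h4 := h1.add h2
    rw [add_zero] at h4
    filter_upwards [h4.eventually (gt_mem_nhds (show (0 : ℝ) < 1 / 1000 by norm_num)), eventually_ge_atTop (10 ^ 8 : ℝ)]
      with L h5 h6
    refine ⟨h6, ?_⟩
    have hL : 0 < L := by linarith [show (0 : ℝ) < 10 ^ 8 by norm_num]
    have e : Real.log L / L + (|K| + 2) * (Real.sqrt L / L) = (Real.log L + (|K| + 2) * Real.sqrt L) / L := by
      ring
    rw [e, div_lt_iff₀ hL] at h5
    linarith
  obtain ⟨L0, hL0⟩ := eventually_atTop.1 hev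
  refine ⟨max 2 (Real.exp L0), le_max_left _ _, fun x hx n k hnx hxn hk hH hnot j hj => ?_⟩
  have hx2 : 2 ≤ x := (le_max_left _ _).trans hx
  have hx0 : 0 < x := by linarith
  set L := Real.log x with hL
  have hLL : L0 ≤ L := (Real.le_log_iff_exp_le hx0).2 ((le_max_right _ _).trans hx)
  obtain ⟨h8, hsm⟩ := hL0 L hLL
  have hLpos : 0 < L := by linarith [show (0 : ℝ) < 10 ^ 8 by norm_num]
  set y := Real.exp (Real.sqrt L) with hy
  have hly : Real.log y = Real.sqrt L := Real.log_exp _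
  have hs4 : (10000 : ℝ) ≤ Real.sqrt L := by
    rw [Real.le_sqrt (by norm_num) hLpos.le]
    linarith
  have hy1 : 1 ≤ y := Real.one_le_exp (Real.sqrt_nonneg _)
  -- the size of `n`
  have hlogn : L - Real.log L ≤ Real.log n := by
    rw [← Real.log_div hx0.ne' hLpos.ne']
    exact Real.log_le_log (by positivity) hxn
  have hlL : 0 ≤ Real.log L := Real.log_nonneg (by linarith [show (0 : ℝ) < 10 ^ 8 by norm_num])
  have hK0 := abs_nonneg K
  have hsq0 := Real.sqrt_nonneg L
  have hn1 : 1 ≤ n := H_pos hH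
  have hnR : (0 : ℝ) < n := by exact_mod_cast hn1
  have hyn : y ≤ n := by
    rw [hy, ← Real.le_log_iff_exp_le hnR]
    have : Real.sqrt L ≤ (|K| + 2) * Real.sqrt L := by nlinarith
    linarith
  -- the first time below `y`
  have hex : ∃ t, ((Tn^[t] n : ℕ) : ℝ) < y := by
    refine ⟨k, ?_⟩
    rw [hH.1, hy]
    push_cast
    exact Real.one_lt_exp_iff.2 (by linarith)
  classical
  set t := Nat.find hex with ht
  have ht1 : ((Tn^[t] n : ℕ) : ℝ) < y := Nat.find_spec hex
  have ht2 : ∀ i < t, y ≤ ((Tn^[i] n : ℕ) : ℝ) := fun i hi => not_lt.1 (Nat.find_min hex hi)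
  have htk : t ≤ k := Nat.find_min' hex (by
    rw [hH.1, hy]
    push_cast
    exact Real.one_lt_exp_iff.2 (by linarith))
  have hReg : Reg (1 / 1000) y n t := by
    intro i hi
    refine ⟨ht2 i hi, fun hc => hnot ?_⟩
    refine ⟨i, ?_, fun l hl => ?_⟩
    · rw [Pool.Agent.H499R2.CO.Tn_iter_cast]; exact hc
    · rw [Pool.Agent.H499R2.CO.Tn_iter_cast]
      exact_mod_cast ht2 l (by omega)
  have hη : (0 : ℝ) < 1 / 1000 := by norm_num
  have c1 : 400 ≤ Real.log y := by rw [hly]; linarith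
  have c2 : 5 ≤ 1 / 1000 * Real.log y := by rw [hly]; linarith
  have hn16 : 4 ≤ Nat.log 2 n := by
    have h9 : (16 : ℝ) ≤ n := by
      have h10 := Real.add_one_le_exp (Real.sqrt L)
      linarith
    have h11 : 16 ≤ n := by exact_mod_cast h9
    exact (Nat.le_log_iff_pow_le (by norm_num) (by omega)).2 (by omega)
  rcases Nat.lt_or_ge j t with hjt | hjt
  · exact reg_below hη le_rfl c1 c2 hy1 hyn (fun i hi => hReg i (by omega)) hj (by omega)
  -- the time `t` is large
  have hlo := reg_lo hη le_rfl c1 c2 hy1 t n hyn hReg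
  have hT1 : (1 : ℝ) ≤ (Tn^[t] n : ℕ) := by exact_mod_cast it_pos hn1 t
  have hup : Real.log (Tn^[t] n : ℕ) ≤ Real.sqrt L := by
    rw [← hly]
    exact Real.log_le_log (by linarith) ht1.le
  have hmpl : lam = 2 * mp := by rw [lam_eq]; unfold mp; ring
  have hk' : (k : ℝ) * lam ≤ 2 * L + |K| * Real.sqrt L := by
    have h12 := (abs_le.1 hk).2
    have h13 : K * Real.sqrt L ≤ |K| * Real.sqrt L := mul_le_mul_of_nonneg_right (le_abs_self K) hsq0
    linarith
  rw [hmpl] at hk'
  have hmp := mp_lo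
  have hkt : ((k : ℝ) - t) * mp ≤ 0.011 * L := by nlinarith
  have hkt' : ((k : ℝ) - t) * Real.log 2 ≤ 0.08 * L := by
    have hl2' := Real.log_two_lt_d9
    have hl2 := Real.log_two_gt_d9
    have hkt0 : (0 : ℝ) ≤ (k : ℝ) - t := by
      have : (t : ℝ) ≤ k := by exact_mod_cast htk
      linarith
    have h14 : ((k : ℝ) - t) ≤ 0.011 * L / 0.1438 := by
      rw [le_div_iff₀ (by norm_num)]
      nlinarith
    nlinarith
  rcases Nat.lt_or_ge j k with hjk | hjk
  · have h15 : Tn^[j] n ≤ 2 ^ (j - t) * Tn^[t] n := by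
      have h16 := it_le (it_pos hn1 t) (j - t)
      rwa [← Function.iterate_add_apply, Nat.sub_add_cancel hjt] at h16
    have h17 : ((Tn^[j] n : ℕ) : ℝ) ≤ 2 ^ (k - t) * y := by
      have h18 : ((Tn^[j] n : ℕ) : ℝ) ≤ 2 ^ (j - t) * (Tn^[t] n : ℕ) := by exact_mod_cast h15
      have h19 : (2 : ℝ) ^ (j - t) ≤ 2 ^ (k - t) := pow_le_pow_right₀ (by norm_num) (by omega)
      calc _ ≤ (2 : ℝ) ^ (j - t) * (Tn^[t] n : ℕ) := h18
        _ ≤ 2 ^ (k - t) * y := mul_le_mul h19 ht1.le (by linarith) (by positivity)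
    have h20 : (2 : ℝ) ^ (k - t) * y < n := by
      have h21 : Real.log ((2 : ℝ) ^ (k - t) * y) < Real.log n := by
        rw [Real.log_mul (by positivity) (by linarith), Real.log_pow, Nat.cast_sub htk, hly]
        nlinarith
      exact (Real.log_lt_log_iff (by positivity) hnR).1 h21
    exact_mod_cast h17.trans_lt h20
  · have h22 : Tn^[j] n = Tn^[j - k] 1 := by
      conv_lhs => rw [← Nat.sub_add_cancel hjk, Function.iterate_add_apply, hH.1]
    rw [h22]
    have h23 := it_one (j - k)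
    have h24 : (16 : ℝ) ≤ n := by
      have h10 := Real.add_one_le_exp (Real.sqrt L)
      linarith
    have h11 : 16 ≤ n := by exact_mod_cast h24
    omega

end Pool.Agent.R468.RC
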