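import Pool.Agent.R468.RC.K

/-!
Residue classes, part 12: uniform upper bounds in the classes modulo `2^s`, `s ≤ √(log X) / 2`.
-/

set_option autoImplicit false

namespace Pool.Agent.R468.RC

open Filter Topology Finset
open Pool.Agent.H499R2.LT
open Pool.Agent.H499R2.ND (Td Tn Dn)
open Pool.Agent.H499R2.HL
open Pool.Agent.R344.SP (Wn mem_Wn)
open Pool.Agent.R344.TH (od_large)

theorem odn_le (s n : ℕ) : odn s n ≤ s := by
  have h1 := Pool.Agent.R344.SP.od_le 1 s (n : ℤ)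
  rwa [od_odn] at h1

/-- uniform upper bound in the classes -/
theorem class_up : ∃ (A : ℝ) (X1 : ℕ), 0 < A ∧ 2 ≤ X1 ∧ ∀ X : ℕ, X1 ≤ X → ∀ s : ℕ, (s : ℝ) ≤ Real.sqrt (Real.log X) / 2 →
    ∀ r < 2 ^ s, ∀ k : ℕ, s ≤ k → (cN k X (2 ^ s) r : ℝ) ≤ A * X / (2 ^ s * Real.sqrt (Real.log X)) := by
  obtain ⟨_, _, _, _, _, _, _, _, _, _, _, _, _, _, _, A, X₀, hA, hX₀, hU⟩ := base
  obtain ⟨C, X2, hC, hX2, heq⟩ := cN_equi 1
  refine ⟨4 * (A + C), ⌈Real.exp 16⌉₊ + X2 ^ 2 + ⌈X₀⌉₊ ^ 2 + 2, by positivity, by omega, ?_⟩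
  intro X hX s hs r hr k hk
  have hXe : Real.exp 16 ≤ X := by
    have h1 : ⌈Real.exp 16⌉₊ ≤ X := by omega
    exact (Nat.le_ceil _).trans (by exact_mod_cast h1)
  have hX0 : (0 : ℝ) < X := (Real.exp_pos _).trans_le hXe
  set t := Real.log X with ht
  have ht16 : 16 ≤ t := (Real.le_log_iff_exp_le hX0).2 hXe
  have hst : Real.sqrt t ≤ t / 4 := by
    rw [Real.sqrt_le_left (by linarith)]
    nlinarith
  have hst4 : 4 ≤ Real.sqrt t := by
    rw [Real.le_sqrt (by norm_num) (by linarith)]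
    linarith
  have hs0 : (0 : ℝ) ≤ s := Nat.cast_nonneg s
  have hl2 := Real.log_two_gt_d9
  have hl2' := Real.log_two_lt_d9
  have hls : (s : ℝ) * Real.log 2 ≤ t / 8 := by nlinarith
  have h2s : (2 : ℝ) ^ s = Real.exp (s * Real.log 2) := by
    rw [← Real.log_pow, Real.exp_log (by positivity)]
  have h2s0 : (0 : ℝ) < 2 ^ s := by positivity
  have hXt : (X : ℝ) = Real.exp t := (Real.exp_log hX0).symm
  have h2sX' : (2 : ℝ) ^ s ≤ Real.exp (t / 8) := by rw [h2s]; exact Real.exp_le_exp.2 hls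
  have h2sX : 2 ^ s ≤ X := by
    have : (2 : ℝ) ^ s ≤ X := by
      rw [hXt]
      exact h2sX'.trans (Real.exp_le_exp.2 (by linarith))
    exact_mod_cast this
  obtain ⟨t1, _⟩ := transfer (X := X) hr h2sX hk
  have hYs := Yk_size hr h2sX
  set o := odn s r with ho
  set Y := Yk s r X with hY
  have h3o : (0 : ℝ) < 3 ^ o := by positivity
  have h3o1 : (1 : ℝ) ≤ 3 ^ o := one_le_pow₀ (by norm_num)
  have hY0 : (0 : ℝ) ≤ Y := Nat.cast_nonneg _
  obtain ⟨b1, b2⟩ := abs_le.1 hYs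
  have hXs : Real.exp (7 / 8 * t) ≤ X / 2 ^ s := by
    rw [le_div_iff₀ h2s0, hXt]
    calc Real.exp (7 / 8 * t) * 2 ^ s ≤ Real.exp (7 / 8 * t) * Real.exp (t / 8) :=
          mul_le_mul_of_nonneg_left h2sX' (Real.exp_pos _).le
      _ = Real.exp t := by rw [← Real.exp_add]; congr 1; ring
  have hhalf : Real.exp (t / 2) ≤ X / 2 ^ s - 1 := by
    have h1 : Real.exp (7 / 8 * t) = Real.exp (3 / 8 * t) * Real.exp (t / 2) := by
      rw [← Real.exp_add]; congr 1; ring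
    have h2 : 2 ≤ Real.exp (3 / 8 * t) := by
      have := Real.add_one_le_exp (3 / 8 * t)
      linarith
    have h3 : 1 ≤ Real.exp (t / 2) := Real.one_le_exp (by linarith)
    nlinarith
  have hYlow : Real.exp (t / 2) ≤ Y := by
    have h1 : (Y : ℝ) / 3 ^ o ≤ Y := div_le_self hY0 h3o1
    linarith
  have hYpos : (0 : ℝ) < Y := (Real.exp_pos _).trans_le hYlow
  have hlY : t / 2 ≤ Real.log Y := (Real.le_log_iff_exp_le hYpos).2 hYlow
  have hsq : ∀ Z : ℕ, Z ^ 2 ≤ X → Z ≤ Y := by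
    intro Z hZ
    have h1 : ((Z : ℝ)) ^ 2 ≤ X := by exact_mod_cast hZ
    have h2 : (Z : ℝ) ≤ Real.exp (t / 2) := by
      have h3 : (Z : ℝ) ^ 2 ≤ Real.exp (t / 2) ^ 2 := by
        rw [← Real.exp_nat_mul]
        have : ((2 : ℕ) : ℝ) * (t / 2) = t := by push_cast; ring
        rw [this, ← hXt]; exact h1
      exact (abs_le_of_sq_le_sq' h3 (Real.exp_pos _).le).2
    exact_mod_cast h2.trans hYlow
  have hYX2 : X2 ≤ Y := hsq X2 (by omega)
  have hYX0 : X₀ ≤ Y := (Nat.le_ceil X₀).trans (by exact_mod_cast hsq ⌈X₀⌉₊ (by omega))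
  have ho2 : (o : ℝ) ^ 2 ≤ Real.log Y / 2 := by
    have h1 : (o : ℝ) ≤ Real.sqrt t / 2 := by
      have : (o : ℝ) ≤ s := by exact_mod_cast odn_le s r
      linarith
    have h2 : (o : ℝ) ^ 2 ≤ (Real.sqrt t / 2) ^ 2 := pow_le_pow_left₀ (Nat.cast_nonneg _) h1 2
    rw [div_pow, Real.sq_sqrt (by linarith)] at h2
    linarith
  have h5 := heq Y hYX2 o ho2 (k - s) (Tn^[s] r)
  rw [pow_one] at h5
  have h6 := hU Y hYX0 (k - s)
  have t1' : (cN k X (2 ^ s) r : ℝ) ≤ cN (k - s) Y (3 ^ o) (Tn^[s] r) := by exact_mod_cast t1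
  have h7 := (abs_le.1 h5).2
  have hYq : (Y : ℝ) / 3 ^ o ≤ 2 * (X / 2 ^ s) := by
    have : 1 ≤ (X : ℝ) / 2 ^ s := by
      have := Real.exp_pos (t / 2)
      linarith
    linarith
  have hlY0 : 0 < Real.log Y := by linarith
  have hsY : Real.sqrt t / 2 ≤ Real.sqrt (Real.log Y) := by
    rw [Real.le_sqrt (by linarith) hlY0.le, div_pow, Real.sq_sqrt (by linarith)]
    linarith
  have hst0 : 0 < Real.sqrt t := by linarith
  have h8 : (cN (k - s) Y 1 0 : ℝ) / 3 ^ o ≤ A * (2 * (X / 2 ^ s)) * (2 / Real.sqrt t) := by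
    have h9 : A * Y / Real.sqrt (Real.log Y) ≤ A * Y * (2 / Real.sqrt t) := by
      rw [div_eq_mul_inv]
      apply mul_le_mul_of_nonneg_left _ (by positivity)
      rw [inv_eq_one_div, div_le_div_iff₀ (by linarith) hst0]
      linarith
    calc (cN (k - s) Y 1 0 : ℝ) / 3 ^ o ≤ (A * Y * (2 / Real.sqrt t)) / 3 ^ o :=
          div_le_div_of_nonneg_right (h6.trans h9) h3o.le
      _ = A * (Y / 3 ^ o) * (2 / Real.sqrt t) := by ring
      _ ≤ _ := by
          apply mul_le_mul_of_nonneg_right _ (by positivity)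
          exact mul_le_mul_of_nonneg_left hYq hA.le
  have h10 : C / Real.log Y * (Y / 3 ^ o) ≤ C * (2 / Real.sqrt t) * (2 * (X / 2 ^ s)) := by
    apply mul_le_mul _ hYq (by positivity) (by positivity)
    rw [div_eq_mul_inv]
    apply mul_le_mul_of_nonneg_left _ hC.le
    rw [inv_eq_one_div, div_le_div_iff₀ hlY0 hst0]
    have h11 : Real.sqrt t ≤ Real.log Y := by linarith
    linarith
  have e : 4 * (A + C) * X / (2 ^ s * Real.sqrt t) = A * (2 * (X / 2 ^ s)) * (2 / Real.sqrt t) +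
      C * (2 / Real.sqrt t) * (2 * (X / 2 ^ s)) := by
    field_simp
    ring
  rw [e]
  linarith

open Classical in
/-- the residues with many odd terms -/
noncomputable def Wj (j : ℕ) : Finset ℕ := (Finset.range (2 ^ j)).filter fun r => (3 / 5 : ℝ) * j ≤ (odn j r : ℝ)

theorem odn_mod (j n : ℕ) : odn j n = odn j (n % 2 ^ j) := by
  conv_lhs => rw [← Nat.mod_add_div n (2 ^ j)]
  exact (it_class j _ _).2

/-- large deviations: the residues and the integers -/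
theorem dev_both : ∃ ρ : ℝ, 0 < ρ ∧ ρ < 1 ∧ (∀ j : ℕ, ((Wj j).card : ℝ) ≤ 2 * 2 ^ j * ρ ^ j) ∧
    ∀ (X j0 : ℕ), ({n : ℕ | 1 ≤ n ∧ n ≤ X ∧ ∃ j, j0 ≤ j ∧ 2 * j ≤ Nat.log 2 n ∧ (3 / 5 : ℝ) * j ≤ (odn j n : ℝ)}.ncard : ℝ) ≤
      2 * ((Nat.log 2 X : ℝ) + 1) ^ 2 * X * ρ ^ j0 := by
  classical
  obtain ⟨ρ, hρ0, hρ1, hc⟩ := od_large (d := 1) (by norm_num) (c₁ := 3 / 5) (by norm_num)
  refine ⟨ρ, hρ0, hρ1, fun j => ?_, fun X j0 => ?_⟩
  · have h1 := hc j ((2 : ℝ) ^ j) (by positivity)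
    have h2 : (Wj j).card ≤ ((Wn ((2 : ℝ) ^ j)).filter (fun n => (3 / 5 : ℝ) * j ≤ (Pool.Agent.R344.SP.od 1 j n : ℝ))).card := by
      apply Finset.card_le_card_of_injOn (fun r : ℕ => (r : ℤ) + 2 ^ j)
      · intro r hr
        rw [Finset.mem_coe] at hr ⊢
        unfold Wj at hr
        rw [Finset.mem_filter, Finset.mem_range] at hr
        rw [Finset.mem_filter, mem_Wn]
        have e : ((r : ℤ) + 2 ^ j) = ((r + 2 ^ j * 1 : ℕ) : ℤ) := by push_cast; ring
        refine ⟨⟨?_, ?_⟩, ?_⟩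
        · push_cast
          linarith [(Nat.cast_nonneg r : (0 : ℝ) ≤ r)]
        · push_cast
          have : (r : ℝ) < 2 ^ j := by exact_mod_cast hr.1
          linarith
        · show (3 / 5 : ℝ) * j ≤ (Pool.Agent.R344.SP.od 1 j ((r : ℤ) + 2 ^ j) : ℝ)
          rw [e, od_odn, (it_class j r 1).2]
          exact hr.2
      · intro a _ b _ h
        simp only at h
        omega
    calc ((Wj j).card : ℝ) ≤ _ := by exact_mod_cast h2
      _ ≤ (2 ^ j + 2 ^ j) * ρ ^ j := h1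
      _ = _ := by ring
  · rcases Nat.eq_zero_or_pos X with hX | hX
    · subst hX
      have e : {n : ℕ | 1 ≤ n ∧ n ≤ 0 ∧ ∃ j, j0 ≤ j ∧ 2 * j ≤ Nat.log 2 n ∧ (3 / 5 : ℝ) * j ≤ (odn j n : ℝ)} = ∅ := by
        ext n
        rw [Set.mem_ofPred_eq, Set.mem_empty_iff_false, iff_false]
        rintro ⟨h1, h2, _⟩
        omega
      rw [e, Set.ncard_empty]
      simp
    set M := Nat.log 2 X with hM
    have hMX : 2 ^ M ≤ X := Nat.pow_log_le_self 2 (by omega)
    set U : ℕ → ℕ → Finset ℤ := fun m i => if j0 ≤ i ∧ i ≤ m then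
      (Wn ((2 : ℝ) ^ m)).filter (fun n => (3 / 5 : ℝ) * i ≤ (Pool.Agent.R344.SP.od 1 i n : ℝ)) else ∅ with hU
    set V := (Finset.range (M + 1)).biUnion (fun m => (Finset.range (M + 1)).biUnion (U m)) with hV
    have hcov : {n : ℕ | 1 ≤ n ∧ n ≤ X ∧ ∃ j, j0 ≤ j ∧ 2 * j ≤ Nat.log 2 n ∧ (3 / 5 : ℝ) * j ≤ (odn j n : ℝ)}.ncard ≤
        V.card := by
      rw [← Set.ncard_coe_finset]
      apply Set.ncard_le_ncard_of_injOn (fun n : ℕ => (n : ℤ))
      · rintro n ⟨h1, h2, j, h3, h4, h5⟩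
        set m := Nat.log 2 n with hm
        have hmM : m ≤ M := Nat.log_mono_right h2
        have hm1 : 2 ^ m ≤ n := Nat.pow_log_le_self 2 (by omega)
        have hm2 : n < 2 ^ (m + 1) := Nat.lt_pow_succ_log_self (by norm_num) _
        rw [Finset.mem_coe, hV, mem_biUnion]
        refine ⟨m, mem_range.2 (by omega), ?_⟩
        rw [mem_biUnion]
        refine ⟨j, mem_range.2 (by omega), ?_⟩
        have hUm : U m j = (Wn ((2 : ℝ) ^ m)).filter (fun n => (3 / 5 : ℝ) * j ≤ (Pool.Agent.R344.SP.od 1 j n : ℝ)) := by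
          rw [hU]
          exact if_pos ⟨h3, by omega⟩
        rw [hUm, mem_filter, mem_Wn]
        refine ⟨⟨?_, ?_⟩, ?_⟩
        · exact_mod_cast hm1
        · have : (n : ℝ) < 2 ^ (m + 1) := by exact_mod_cast hm2
          rw [pow_succ] at this
          push_cast
          linarith
        · rw [od_odn]; exact h5
      · intro a _ b _ h
        simpa using h
    have hUc : ∀ m ∈ range (M + 1), ∀ i ∈ range (M + 1), ((U m i).card : ℝ) ≤ 2 * X * ρ ^ j0 := by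
      intro m hm i _
      rw [mem_range] at hm
      rw [hU]
      simp only
      split_ifs with h
      · obtain ⟨h1, h2⟩ := h
        have h3 := hc i ((2 : ℝ) ^ m) (by positivity)
        have h4 : (2 : ℝ) ^ m ≤ X := by
          have : 2 ^ m ≤ X := (Nat.pow_le_pow_right (by norm_num) (by omega)).trans hMX
          exact_mod_cast this
        have h5 : (2 : ℝ) ^ i ≤ 2 ^ m := pow_le_pow_right₀ (by norm_num) h2
        have h6 : ρ ^ i ≤ ρ ^ j0 := pow_le_pow_of_le_one hρ0.le hρ1.le h1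
        calc _ ≤ ((2 : ℝ) ^ m + 2 ^ i) * ρ ^ i := h3
          _ ≤ (2 * X) * ρ ^ j0 := mul_le_mul (by linarith) h6 (by positivity) (by positivity)
      · rw [card_empty]
        push_cast
        positivity
    have h2 : (V.card : ℝ) ≤ ∑ m ∈ range (M + 1), ∑ i ∈ range (M + 1), ((U m i).card : ℝ) := by
      have h3 : V.card ≤ ∑ m ∈ range (M + 1), ∑ i ∈ range (M + 1), (U m i).card :=
        card_biUnion_le.trans (sum_le_sum fun m _ => card_biUnion_le)
      exact_mod_cast h3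
    calc _ ≤ (V.card : ℝ) := by exact_mod_cast hcov
      _ ≤ _ := h2
      _ ≤ ∑ m ∈ range (M + 1), ∑ i ∈ range (M + 1), 2 * (X : ℝ) * ρ ^ j0 :=
          sum_le_sum fun m hm => sum_le_sum fun i hi => hUc m hm i hi
      _ = _ := by
          rw [sum_const, sum_const, card_range, nsmul_eq_mul, nsmul_eq_mul]
          push_cast
          ring

end Pool.Agent.R468.RC
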