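import Pool.Agent.R468.RC.L

/-!
Residue classes, part 13: in a level few trajectories come back to their start after a bounded time.
-/

set_option autoImplicit false

namespace Pool.Agent.R468.RC

open Filter Topology Finset
open Pool.Agent.R468.GL
open Pool.Agent.R468.LL (lam lam_eq lam_pos lam_lt)
open Pool.Agent.H499R2.LT
open Pool.Agent.H499R2.ND (Td Tn Dn)
open Pool.Agent.H499R2.HL
open Pool.Agent.R344.TH (HY HY_count)

/-- a late return gives many odd terms -/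
theorem many_odd {n j : ℕ} (hn : 1 ≤ n) (hj : 21 ≤ j) (h2 : 2 * j ≤ Nat.log 2 n) (h : n ≤ Tn^[j] n) :
    (3 / 5 : ℝ) * j ≤ (odn j n : ℝ) := by
  have hup := iter_upper j n
  have h2i : 2 ^ j ≤ n := (Nat.pow_le_pow_right (by norm_num) (by omega)).trans (Nat.pow_log_le_self 2 (by omega : n ≠ 0))
  have h3 : 0 < 3 ^ odn j n := by positivity
  have h4 : 2 ^ j * n ≤ 3 ^ odn j n * (2 * n) := by
    have h5 : 3 ^ odn j n * (n + 2 ^ j) ≤ 3 ^ odn j n * (2 * n) := Nat.mul_le_mul_left _ (by omega)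
    have h6 : 2 ^ j * n ≤ 2 ^ j * Tn^[j] n := Nat.mul_le_mul_left _ h
    omega
  have h5 : 2 ^ j ≤ 3 ^ odn j n * 2 := by
    have h6 : 2 ^ j * n ≤ (3 ^ odn j n * 2) * n := by
      calc 2 ^ j * n ≤ 3 ^ odn j n * (2 * n) := h4
        _ = _ := by ring
    exact le_of_mul_le_mul_right h6 (by omega)
  have h6 : (2 : ℝ) ^ j ≤ 3 ^ odn j n * 2 := by exact_mod_cast h5
  have h7 := Real.log_le_log (by positivity) h6
  rw [Real.log_mul (by positivity) (by norm_num), Real.log_pow, Real.log_pow] at h7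
  have hl2 := Real.log_two_gt_d9
  have hl2' := Real.log_two_lt_d9
  have hl3 := Real.log_three_lt_d9
  have hjR : (21 : ℝ) ≤ j := by exact_mod_cast hj
  have ho : (0 : ℝ) ≤ odn j n := Nat.cast_nonneg _
  nlinarith

/-- the middle range -/
theorem mid_count {ρ : ℝ} (hρ0 : 0 < ρ) (hρ1 : ρ < 1) (hW : ∀ j : ℕ, ((Wj j).card : ℝ) ≤ 2 * 2 ^ j * ρ ^ j) {A : ℝ} (hA : 0 < A)
    {X k J j0 : ℕ} (hX : 1 < X)
    (hc : ∀ j < j0, ∀ r < 2 ^ j, (cN k X (2 ^ j) r : ℝ) ≤ A * X / (2 ^ j * Real.sqrt (Real.log X))) :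
    ({n : ℕ | 1 ≤ n ∧ n ≤ X ∧ H k n ∧ ∃ j, J ≤ j ∧ j < j0 ∧ (3 / 5 : ℝ) * j ≤ (odn j n : ℝ)}.ncard : ℝ) ≤
      2 * A / (1 - ρ) * ρ ^ J * (X / Real.sqrt (Real.log X)) := by
  classical
  have hL : 0 < Real.log X := Real.log_pos (by exact_mod_cast hX)
  have hs : 0 < Real.sqrt (Real.log X) := Real.sqrt_pos.2 hL
  have hX0 : (0 : ℝ) < X := by positivity
  set F : ℕ → Set ℕ := fun j => {n : ℕ | 1 ≤ n ∧ n ≤ X ∧ H k n ∧ (3 / 5 : ℝ) * j ≤ (odn j n : ℝ)} with hF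
  have hFf : ∀ j, (F j).Finite := fun j => (Set.finite_Iic X).subset fun _ hn => hn.2.1
  have hFc : ∀ j < j0, ((F j).ncard : ℝ) ≤ 2 * A * ρ ^ j * (X / Real.sqrt (Real.log X)) := by
    intro j hj
    have h1 : (F j).ncard ≤ ∑ r ∈ Wj j, cN k X (2 ^ j) r := by
      have hsub : F j ⊆ ⋃ r ∈ Wj j, {n : ℕ | 1 ≤ n ∧ n ≤ X ∧ H k n ∧ n ≡ r [MOD 2 ^ j]} := by
        rintro n ⟨g1, g2, g3, g4⟩
        rw [Set.mem_iUnion₂]
        refine ⟨n % 2 ^ j, ?_, g1, g2, g3, (Nat.mod_modEq n (2 ^ j)).symm⟩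
        unfold Wj
        rw [Finset.mem_filter, Finset.mem_range, ← odn_mod]
        exact ⟨Nat.mod_lt _ (by positivity), g4⟩
      have hfin : (⋃ r ∈ Wj j, {n : ℕ | 1 ≤ n ∧ n ≤ X ∧ H k n ∧ n ≡ r [MOD 2 ^ j]}).Finite :=
        (Set.finite_Iic X).subset fun n hn => by
          rw [Set.mem_iUnion₂] at hn
          obtain ⟨r, _, h⟩ := hn
          exact h.2.1
      refine (Set.ncard_le_ncard hsub hfin).trans ?_
      refine (Finset.set_ncard_biUnion_le (Wj j) _).trans ?_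
      exact le_rfl
    have h2 : ((∑ r ∈ Wj j, cN k X (2 ^ j) r : ℕ) : ℝ) ≤ (Wj j).card * (A * X / (2 ^ j * Real.sqrt (Real.log X))) := by
      push_cast
      calc ∑ r ∈ Wj j, (cN k X (2 ^ j) r : ℝ) ≤ ∑ r ∈ Wj j, A * X / (2 ^ j * Real.sqrt (Real.log X)) := by
            apply Finset.sum_le_sum
            intro r hr
            unfold Wj at hr
            exact hc j hj r (Finset.mem_range.1 (Finset.mem_filter.1 hr).1)
        _ = _ := by rw [Finset.sum_const, nsmul_eq_mul]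
    have h2j : (0 : ℝ) < 2 ^ j := by positivity
    calc ((F j).ncard : ℝ) ≤ ((∑ r ∈ Wj j, cN k X (2 ^ j) r : ℕ) : ℝ) := by exact_mod_cast h1
      _ ≤ _ := h2
      _ ≤ (2 * 2 ^ j * ρ ^ j) * (A * X / (2 ^ j * Real.sqrt (Real.log X))) :=
          mul_le_mul_of_nonneg_right (hW j) (by positivity)
      _ = _ := by field_simp
  have hsub : {n : ℕ | 1 ≤ n ∧ n ≤ X ∧ H k n ∧ ∃ j, J ≤ j ∧ j < j0 ∧ (3 / 5 : ℝ) * j ≤ (odn j n : ℝ)} ⊆
      ⋃ j ∈ Finset.Ico J j0, F j := by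
    rintro n ⟨g1, g2, g3, j, g4, g5, g6⟩
    rw [Set.mem_iUnion₂]
    exact ⟨j, Finset.mem_Ico.2 ⟨g4, g5⟩, g1, g2, g3, g6⟩
  have hfin : (⋃ j ∈ Finset.Ico J j0, F j).Finite := (Set.finite_Iic X).subset fun n hn => by
    rw [Set.mem_iUnion₂] at hn
    obtain ⟨j, _, h⟩ := hn
    exact h.2.1
  have h3 := (Set.ncard_le_ncard hsub hfin).trans (Finset.set_ncard_biUnion_le (Finset.Ico J j0) _)
  have h4 : ∑ j ∈ Finset.Ico J j0, ρ ^ j ≤ ρ ^ J / (1 - ρ) := by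
    have h5 : ∑ j ∈ Finset.Ico J j0, ρ ^ j = ρ ^ J * ∑ j ∈ Finset.range (j0 - J), ρ ^ j := by
      rw [Finset.sum_Ico_eq_sum_range, Finset.mul_sum]
      exact Finset.sum_congr rfl fun i _ => pow_add _ _ _
    rw [h5, div_eq_mul_inv]
    apply mul_le_mul_of_nonneg_left _ (by positivity)
    have h6 := Summable.sum_le_tsum (Finset.range (j0 - J)) (fun i _ => by positivity)
      (summable_geometric_of_lt_one hρ0.le hρ1)
    rwa [tsum_geometric_of_lt_one hρ0.le hρ1] at h6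
  calc _ ≤ ((∑ j ∈ Finset.Ico J j0, (F j).ncard : ℕ) : ℝ) := by exact_mod_cast h3
    _ = ∑ j ∈ Finset.Ico J j0, ((F j).ncard : ℝ) := by push_cast; rfl
    _ ≤ ∑ j ∈ Finset.Ico J j0, 2 * A * ρ ^ j * (X / Real.sqrt (Real.log X)) :=
        Finset.sum_le_sum fun j hj => hFc j (Finset.mem_Ico.1 hj).2
    _ = 2 * A * (X / Real.sqrt (Real.log X)) * ∑ j ∈ Finset.Ico J j0, ρ ^ j := by
        rw [Finset.mul_sum]
        exact Finset.sum_congr rfl fun i _ => by ring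
    _ ≤ 2 * A * (X / Real.sqrt (Real.log X)) * (ρ ^ J / (1 - ρ)) :=
        mul_le_mul_of_nonneg_left h4 (by positivity)
    _ = _ := by ring

/-- elementary estimates for large arguments -/
theorem ev_x {ρ : ℝ} (hρ0 : 0 < ρ) (hρ1 : ρ < 1) (X1 : ℕ) : ∀ᶠ x : ℝ in atTop, 4 ≤ x ∧ X1 ≤ ⌊x⌋₊ ∧ 1 < ⌊x⌋₊ ∧
    1 ≤ Real.log x ∧ Real.log x / 2 ≤ Real.log ⌊x⌋₊ ∧
    2 * ((Nat.log 2 ⌊x⌋₊ : ℝ) + 1) ^ 2 * ρ ^ (⌊Real.sqrt (Real.log ⌊x⌋₊) / 2⌋₊ + 1) ≤ 1 / Real.log x := by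
  set a : ℝ := -Real.log ρ with ha
  have ha0 : 0 < a := by have := Real.log_neg hρ0 hρ1; linarith
  have h1 : Tendsto (fun x : ℝ => a / 4 * Real.sqrt (Real.log x)) atTop atTop :=
    (Real.tendsto_sqrt_atTop.comp Real.tendsto_log_atTop).const_mul_atTop (by positivity)
  have h2 := (Real.tendsto_pow_mul_exp_neg_atTop_nhds_zero 6).comp h1
  have h3 := h2.eventually (gt_mem_nhds (show (0 : ℝ) < (a / 4) ^ 6 / 32 by positivity))
  filter_upwards [h3, eventually_ge_atTop (4 : ℝ), eventually_ge_atTop ((X1 : ℝ) + 3),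
    Real.tendsto_log_atTop.eventually (eventually_ge_atTop (4 : ℝ))] with x g1 g2 g3 g4
  have hx0 : 0 < x := by linarith
  set X := ⌊x⌋₊ with hX
  have f1 := Nat.floor_le hx0.le
  have f2 := Nat.lt_floor_add_one x
  rw [← hX] at f1 f2
  have hXhalf : x / 2 ≤ X := by linarith
  have hl2 := Real.log_two_gt_d9
  have hl2' := Real.log_two_lt_d9
  have hXpos : (0 : ℝ) < X := by linarith
  have hlog1 : Real.log x - Real.log 2 ≤ Real.log X := by
    rw [← Real.log_div hx0.ne' (by norm_num)]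
    exact Real.log_le_log (by positivity) hXhalf
  refine ⟨g2, ?_, ?_, by linarith, by linarith, ?_⟩
  · have : (X1 : ℝ) ≤ X := by linarith
    exact_mod_cast this
  · have : (1 : ℝ) < X := by linarith
    exact_mod_cast this
  · set L := Real.log x with hL
    set L' := Real.log X with hL'
    simp only [Function.comp] at g1
    have hM : (Nat.log 2 X : ℝ) + 1 ≤ 2 * L := by
      have h4 := (log_m (v := X) (by have : (1 : ℝ) < X := by linarith
                                     have h5 : 1 < X := by exact_mod_cast this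
                                     omega)).1
      have h5 : Real.log X ≤ L := Real.log_le_log hXpos f1
      nlinarith
    have hsL : Real.sqrt L / 2 ≤ Real.sqrt L' := by
      rw [Real.le_sqrt (by positivity) (by linarith), div_pow, Real.sq_sqrt (by linarith)]
      linarith
    have hρp : ρ ^ (⌊Real.sqrt L' / 2⌋₊ + 1) ≤ Real.exp (-(a / 4 * Real.sqrt L)) := by
      have e' : ρ ^ (⌊Real.sqrt L' / 2⌋₊ + 1) = Real.exp (-(a * (⌊Real.sqrt L' / 2⌋₊ + 1 : ℕ))) := by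
        have : -(a * (⌊Real.sqrt L' / 2⌋₊ + 1 : ℕ)) = Real.log (ρ ^ (⌊Real.sqrt L' / 2⌋₊ + 1)) := by
          rw [ha, Real.log_pow]; ring
        rw [this, Real.exp_log (by positivity)]
      rw [e']
      apply Real.exp_le_exp.2
      have h5 := Nat.lt_floor_add_one (Real.sqrt L' / 2)
      push_cast
      have h6 : a * (Real.sqrt L / 4) ≤ a * ((⌊Real.sqrt L' / 2⌋₊ : ℝ) + 1) :=
        mul_le_mul_of_nonneg_left (by linarith) ha0.le
      linarith
    have hLpos : 0 < L := by linarith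
    have hsq : Real.sqrt L ^ 2 = L := Real.sq_sqrt hLpos.le
    have h7 : L ^ 3 * Real.exp (-(a / 4 * Real.sqrt L)) ≤ 1 / 32 := by
      have e : (a / 4 * Real.sqrt L) ^ 6 = (a / 4) ^ 6 * L ^ 3 := by
        rw [mul_pow]
        congr 1
        calc Real.sqrt L ^ 6 = (Real.sqrt L ^ 2) ^ 3 := by ring
          _ = L ^ 3 := by rw [hsq]
      rw [e] at g1
      have h8 : 0 < (a / 4) ^ 6 := by positivity
      by_contra hc
      push Not at hc
      have h9 : (a / 4) ^ 6 * (1 / 32) < (a / 4) ^ 6 * (L ^ 3 * Real.exp (-(a / 4 * Real.sqrt L))) :=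
        mul_lt_mul_of_pos_left hc h8
      linarith
    rw [le_div_iff₀ hLpos]
    have h10 : ((Nat.log 2 X : ℝ) + 1) ^ 2 ≤ (2 * L) ^ 2 := pow_le_pow_left₀ (by positivity) hM 2
    calc 2 * ((Nat.log 2 X : ℝ) + 1) ^ 2 * ρ ^ (⌊Real.sqrt L' / 2⌋₊ + 1) * L ≤
          2 * (2 * L) ^ 2 * Real.exp (-(a / 4 * Real.sqrt L)) * L := by
          apply mul_le_mul_of_nonneg_right _ hLpos.le
          apply mul_le_mul _ hρp (by positivity) (by positivity)
          linarith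
      _ = 8 * (L ^ 3 * Real.exp (-(a / 4 * Real.sqrt L))) := by ring
      _ ≤ 1 := by linarith

/-- IN A LEVEL FEW TRAJECTORIES COME BACK after a bounded time -/
theorem back_small (K : ℝ) {ε : ℝ} (hε : 0 < ε) : ∃ J : ℕ, ∀ᶠ p in xg PT K,
    aZ (fun n => ∃ j, J ≤ j ∧ n ≤ Tn^[j] n) p ≤ ε := by
  classical
  obtain ⟨ρ, hρ0, hρ1, hW, hS2⟩ := dev_both
  obtain ⟨A, X1, hA, hX1, hup⟩ := class_up
  obtain ⟨c, hc, hgd⟩ := gd_low PT K
  obtain ⟨Y0, hY0, hthin⟩ := Dv_thin (η := 1 / 1000) (by norm_num)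
  obtain ⟨l₀, K1, hl₀, hK1, hHY⟩ := HY_count (d := 1) odd_one isCoprime_one_left (γ := 1 / 8) (by norm_num) (by norm_num) 4
  obtain ⟨x0, hx0, hfar⟩ := far K
  -- the choice of `J`
  have hq : 0 < 1 - ρ := by linarith
  obtain ⟨J1, hJ1⟩ := exists_pow_lt_of_lt_one (show (0 : ℝ) < ε / 2 * (c * (1 - ρ) / (4 * A)) by positivity) hρ1
  set J := max J1 21 with hJ
  have hJρ : ρ ^ J ≤ ε / 2 * (c * (1 - ρ) / (4 * A)) :=
    (pow_le_pow_of_le_one hρ0.le hρ1.le (le_max_left _ _)).trans hJ1.le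
  refine ⟨J, ?_⟩
  -- the negligible part
  set g : ℝ × ℤ → ℝ := fun p => (2 + K1) * p.1 / Real.log p.1 with hg
  have hneg : Tendsto (fun p : ℝ × ℤ => g p / (p.1 * gd PT p.1 p.2)) (xg PT K) (𝓝 0) := by
    apply negl K
    refine ⟨2 + K1, ?_⟩
    filter_upwards [xg_ge K 1, (xg_log PT K).eventually (eventually_gt_atTop 0)] with p h1 h2
    rw [hg, abs_of_nonneg (by positivity)]
  have hlogbig : ∀ᶠ p : ℝ × ℤ in xg PT K, max (max l₀ (Real.log Y0)) 1 ≤ Real.sqrt (Real.log p.1) :=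
    (xg_sqrt PT K).eventually (eventually_ge_atTop _)
  have hkbig : ∀ᶠ p : ℝ × ℤ in xg PT K, Real.sqrt (Real.log p.1) ≤ (p.2 : ℝ) := by
    have hlam := lam_pos
    have hlam1 : lam < 1 := by
      rw [lam_log]
      have := Real.log_two_lt_d9
      have := Real.log_three_gt_d9
      rw [show (4 : ℝ) / 3 = 2 ^ 2 / 3 by norm_num, Real.log_div (by norm_num) (by norm_num), Real.log_pow]
      push_cast
      linarith
    filter_upwards [xg_dev PT K, (xg_sqrt PT K).eventually (eventually_ge_atTop (max 1 K)),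
      (xg_log PT K).eventually (eventually_ge_atTop 1), xg_snd_ge K 0] with p h1 h2 h3 h4
    rw [A0_PT] at h1
    have h5 := (abs_le.1 h1).1
    have h6 : Real.sqrt (Real.log p.1) * Real.sqrt (Real.log p.1) = Real.log p.1 := Real.mul_self_sqrt (by linarith)
    have h7 : K ≤ Real.sqrt (Real.log p.1) := (le_max_right _ _).trans h2
    have h8 : 1 ≤ Real.sqrt (Real.log p.1) := (le_max_left _ _).trans h2
    have h9 : K * Real.sqrt (Real.log p.1) ≤ Real.log p.1 := by nlinarith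
    have h10 : (0 : ℝ) ≤ p.2 := by exact_mod_cast h4
    have h11 : (p.2 : ℝ) * lam ≤ p.2 := by nlinarith
    nlinarith
  have hexp : ∀ᶠ p : ℝ × ℤ in xg PT K, (4 : ℝ) ≤ p.1 ∧ X1 ≤ ⌊p.1⌋₊ ∧ 1 < ⌊p.1⌋₊ ∧
    1 ≤ Real.log p.1 ∧ Real.log p.1 / 2 ≤ Real.log ⌊p.1⌋₊ ∧
    2 * ((Nat.log 2 ⌊p.1⌋₊ : ℝ) + 1) ^ 2 * ρ ^ (⌊Real.sqrt (Real.log ⌊p.1⌋₊) / 2⌋₊ + 1) ≤ 1 / Real.log p.1 :=
    (xg_fst PT K).eventually (ev_x hρ0 hρ1 X1)
  filter_upwards [hneg.eventually (gt_mem_nhds (show (0 : ℝ) < ε / 2 by positivity)), hgd, hlogbig, hkbig, hexp,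
    xg_ge K x0, xg_snd_ge K 0, xg_dev PT K, gd_pos_ev K] with p g1 g2 g3 g4 g5 g6 g7 g8 g9
  obtain ⟨q1, q2, q3, q4, q5, q6⟩ := g5
  obtain ⟨x, z⟩ := p
  obtain ⟨k, rfl⟩ := Int.eq_ofNat_of_zero_le g7
  simp only at g1 g2 g3 g4 q1 q2 q3 q4 q5 q6 g6 g8 g9
  have hxpos : 0 < x := by linarith
  set X := ⌊x⌋₊ with hX
  have f1 := Nat.floor_le hxpos.le
  rw [← hX] at f1
  set L := Real.log x with hL
  have hLpos : 0 < L := by linarith
  have hsL : 0 < Real.sqrt L := Real.sqrt_pos.2 hLpos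
  set y := Real.exp (Real.sqrt L) with hy
  have hly : Real.log y = Real.sqrt L := Real.log_exp _
  have hy0 : 0 < y := Real.exp_pos _
  have hYy : Y0 ≤ y := by
    have h1 : Real.log Y0 ≤ Real.sqrt L := ((le_max_right _ _).trans (le_max_left _ _)).trans g3
    rwa [← Real.log_le_iff_le_exp (by linarith)]
  set j0 := ⌊Real.sqrt (Real.log X) / 2⌋₊ + 1 with hj0
  have hkR : (((k : ℕ) : ℤ) : ℝ) = k := by push_cast; rfl
  rw [hkR] at g4 g8
  rw [A0_PT] at g8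
  -- the four sets
  set S0 : Set ℕ := {n : ℕ | 1 ≤ n ∧ (n : ℝ) ≤ x / L} with hS0
  set S1 : Set ℕ := {n : ℕ | 1 ≤ n ∧ n ≤ X ∧ ((n : ℕ) : ℤ) ∈ HY 1 (Dv (1 / 1000)) y} with hS1
  set S2 : Set ℕ := {n : ℕ | 1 ≤ n ∧ n ≤ X ∧ ∃ j, j0 ≤ j ∧ 2 * j ≤ Nat.log 2 n ∧ (3 / 5 : ℝ) * j ≤ (odn j n : ℝ)} with hS2'
  set S3 : Set ℕ := {n : ℕ | 1 ≤ n ∧ n ≤ X ∧ H k n ∧ ∃ j, J ≤ j ∧ j < j0 ∧ (3 / 5 : ℝ) * j ≤ (odn j n : ℝ)} with hS3
  have hS0f : S0.Finite := (Set.finite_Iic ⌊x / L⌋₊).subset fun n hn => Nat.le_floor hn.2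
  have hS1f : S1.Finite := (Set.finite_Iic X).subset fun n hn => hn.2.1
  have hS2f : S2.Finite := (Set.finite_Iic X).subset fun n hn => hn.2.1
  have hS3f : S3.Finite := (Set.finite_Iic X).subset fun n hn => hn.2.1
  have hsub : {n : ℕ | 1 ≤ n ∧ (n : ℝ) ≤ x ∧ (∃ j, J ≤ j ∧ n ≤ Tn^[j] n) ∧ 0 ≤ ((k : ℕ) : ℤ) ∧ H ((k : ℕ) : ℤ).toNat n} ⊆
      (S0 ∪ S1) ∪ (S2 ∪ S3) := by
    rintro n ⟨e1, e2, ⟨j, e3, e4⟩, _, e5⟩
    rw [Int.toNat_natCast] at e5
    have hnX : n ≤ X := Nat.le_floor e2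
    by_cases h1 : (n : ℝ) ≤ x / L
    · exact Or.inl (Or.inl ⟨e1, h1⟩)
    by_cases h2 : ((n : ℕ) : ℤ) ∈ HY 1 (Dv (1 / 1000)) y
    · exact Or.inl (Or.inr ⟨e1, hnX, h2⟩)
    right
    push Not at h1
    have h3 := hfar x g6 n k e2 h1.le g8 e5 h2 j
    have hjl : 2 * j ≤ Nat.log 2 n := by
      by_contra hcon
      have := h3 (by omega)
      omega
    have h4 := many_odd e1 ((le_max_right _ _).trans e3) hjl e4
    rcases Nat.lt_or_ge j j0 with h5 | h5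
    · exact Or.inr ⟨e1, hnX, e5, j, e3, h5, h4⟩
    · exact Or.inl ⟨e1, hnX, j, h5, hjl, h4⟩
  have hcard : cZ (fun n => ∃ j, J ≤ j ∧ n ≤ Tn^[j] n) (x, ((k : ℕ) : ℤ)) ≤
      ((S0.ncard : ℝ) + S1.ncard) + (S2.ncard + S3.ncard) := by
    have h1 := Set.ncard_le_ncard hsub ((hS0f.union hS1f).union (hS2f.union hS3f))
    have h2 := h1.trans (Set.ncard_union_le _ _)
    have h3 := h2.trans (add_le_add (Set.ncard_union_le _ _) (Set.ncard_union_le _ _))
    have h4 := (Nat.cast_le (α := ℝ)).2 h3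
    rw [Nat.cast_add, Nat.cast_add, Nat.cast_add] at h4
    exact h4
  -- the counts
  have c0 : (S0.ncard : ℝ) ≤ x / L := by
    have h1 : S0 ⊆ ((Finset.Icc 1 ⌊x / L⌋₊ : Finset ℕ) : Set ℕ) := by
      intro n hn
      rw [Finset.coe_Icc]
      exact ⟨hn.1, Nat.le_floor hn.2⟩
    have h2 := Set.ncard_le_ncard h1 (Finset.finite_toSet _)
    rw [Set.ncard_coe_finset, Nat.card_Icc, Nat.add_sub_cancel] at h2
    calc (S0.ncard : ℝ) ≤ (⌊x / L⌋₊ : ℝ) := by exact_mod_cast h2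
      _ ≤ x / L := Nat.floor_le (by positivity)
  have c1 : (S1.ncard : ℝ) ≤ K1 * (x / L) := by
    have h1 := hHY y hy0 (by rw [hly]; exact ((le_max_left _ _).trans (le_max_left _ _)).trans g3) (Dv (1 / 1000)) (fun X' hX' => by
      have h2 := hthin y hYy X' hX'
      have : (2 * (1 / 8) : ℝ) = 1 / 4 := by norm_num
      rw [this]
      exact h2) X
    have h2 : S1.ncard ≤ ((Icc (1 : ℤ) X).filter (fun n => n ∈ HY 1 (Dv (1 / 1000)) y)).card := by
      rw [← Set.ncard_coe_finset]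
      apply Set.ncard_le_ncard_of_injOn (fun n : ℕ => (n : ℤ))
      · rintro n ⟨e1, e2, e3⟩
        rw [Finset.mem_coe, Finset.mem_filter, Finset.mem_Icc]
        exact ⟨⟨by exact_mod_cast e1, by exact_mod_cast e2⟩, e3⟩
      · intro a _ b _ h
        simpa using h
    have h3 : (Real.sqrt L) ^ 4 = L ^ 2 := by
      calc (Real.sqrt L) ^ 4 = ((Real.sqrt L) ^ 2) ^ 2 := by ring
        _ = L ^ 2 := by rw [Real.sq_sqrt hLpos.le]
    rw [hly, h3] at h1
    calc (S1.ncard : ℝ) ≤ _ := by exact_mod_cast h2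
      _ ≤ K1 * X / L ^ 2 := h1
      _ ≤ K1 * (x / L) := by
          rw [mul_div_assoc]
          apply mul_le_mul_of_nonneg_left _ hK1.le
          rw [div_le_div_iff₀ (by positivity) hLpos]
          have h4 : (X : ℝ) * L ≤ x * L := mul_le_mul_of_nonneg_right f1 hLpos.le
          have h5 : x * L ≤ x * L ^ 2 := by
            apply mul_le_mul_of_nonneg_left _ hxpos.le
            nlinarith
          linarith
  have c2 : (S2.ncard : ℝ) ≤ x / L := by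
    have h1 := hS2 X j0
    calc (S2.ncard : ℝ) ≤ _ := h1
      _ = X * (2 * ((Nat.log 2 X : ℝ) + 1) ^ 2 * ρ ^ j0) := by ring
      _ ≤ x * (1 / L) := mul_le_mul f1 q6 (by positivity) hxpos.le
      _ = _ := by ring
  have c3 : (S3.ncard : ℝ) ≤ 2 * A / (1 - ρ) * ρ ^ J * (X / Real.sqrt (Real.log X)) := by
    apply mid_count hρ0 hρ1 hW hA q3
    intro j hj r hr
    have hjs : (j : ℝ) ≤ Real.sqrt (Real.log X) / 2 := by
      have h1 : j ≤ ⌊Real.sqrt (Real.log X) / 2⌋₊ := by omega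
      have h2 : (j : ℝ) ≤ (⌊Real.sqrt (Real.log X) / 2⌋₊ : ℝ) := by exact_mod_cast h1
      exact h2.trans (Nat.floor_le (by positivity))
    apply hup X q2 j hjs r hr k
    have h3 : Real.sqrt (Real.log X) ≤ Real.sqrt L := Real.sqrt_le_sqrt (Real.log_le_log (by
      have : 0 < X := by omega
      exact_mod_cast this) f1)
    have h4 : (j : ℝ) ≤ k := by
      have h5 : 0 ≤ Real.sqrt (Real.log X) := Real.sqrt_nonneg _
      linarith
    exact_mod_cast h4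
  have hlX0 : 0 < Real.log X := by linarith
  have c3' : (S3.ncard : ℝ) ≤ 2 * A / (1 - ρ) * ρ ^ J * (x * (2 / Real.sqrt L)) := by
    refine c3.trans ?_
    apply mul_le_mul_of_nonneg_left _ (by positivity)
    rw [div_eq_mul_inv]
    apply mul_le_mul f1 _ (by positivity) hxpos.le
    rw [inv_eq_one_div, div_le_div_iff₀ (Real.sqrt_pos.2 hlX0) hsL]
    have h1 : Real.sqrt L / 2 ≤ Real.sqrt (Real.log X) := by
      rw [Real.le_sqrt (by positivity) hlX0.le, div_pow, Real.sq_sqrt hLpos.le]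
      linarith
    linarith
  -- conclusion
  have hden : 0 < x * gd PT x ((k : ℕ) : ℤ) := mul_pos hxpos g9
  unfold aZ
  simp only
  rw [hg] at g1
  simp only at g1
  have h1 : cZ (fun n => ∃ j, J ≤ j ∧ n ≤ Tn^[j] n) (x, ((k : ℕ) : ℤ)) ≤ (2 + K1) * x / L +
      2 * A / (1 - ρ) * ρ ^ J * (x * (2 / Real.sqrt L)) := by
    have e : (2 + K1) * x / L = x / L + K1 * (x / L) + x / L := by ring
    rw [e]
    linarith
  have h2 := div_le_div_of_nonneg_right h1 hden.le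
  rw [add_div] at h2
  have h3 : 2 * A / (1 - ρ) * ρ ^ J * (x * (2 / Real.sqrt L)) / (x * gd PT x ((k : ℕ) : ℤ)) ≤ ε / 2 := by
    have h4 : 2 * A / (1 - ρ) * ρ ^ J * (x * (2 / Real.sqrt L)) / (x * gd PT x ((k : ℕ) : ℤ)) ≤
        2 * A / (1 - ρ) * ρ ^ J * (x * (2 / Real.sqrt L)) / (x * (c / Real.sqrt L)) := by
      apply div_le_div_of_nonneg_left (by positivity) (by positivity)
      exact mul_le_mul_of_nonneg_left g2 hxpos.le
    refine h4.trans ?_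
    have e : 2 * A / (1 - ρ) * ρ ^ J * (x * (2 / Real.sqrt L)) / (x * (c / Real.sqrt L)) =
        ρ ^ J * (4 * A / (c * (1 - ρ))) := by
      field_simp
      ring
    rw [e]
    calc ρ ^ J * (4 * A / (c * (1 - ρ))) ≤ (ε / 2 * (c * (1 - ρ) / (4 * A))) * (4 * A / (c * (1 - ρ))) :=
          mul_le_mul_of_nonneg_right hJρ (by positivity)
      _ = ε / 2 := by field_simp
  linarith

end Pool.Agent.R468.RC
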