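import Pool.Agent.H499R2.NDWord
import Pool.Agent.R468.RC.M

/-!
Residue classes, part 14: the law of the maximum excursion inside the levels of the total stopping time.
-/

set_option autoImplicit false

namespace Pool.Agent.R468.RC

open Filter Topology Finset
open Pool.Agent.R468.GL
open Pool.Agent.H499R2.LT
open Pool.Agent.H499R2.ND (Td Tn Dn AK rK AK_mod AK_of_bound exists_nK iter_real er_le rK_anti rK_nonneg rK_le_one
  rK_ge)
open Pool.Agent.H499R2.HL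
open Pool.Agent.Helper894.Collatz (er)

section
variable {Ψ : ℝ → ℝ} (hc : Continuous Ψ) (hp : ∀ t, Ψ (t + 1) = Ψ t) {M : ℝ} (hM : ∀ t, |Ψ t| ≤ M)
  (hL : LQ (fun _ => True) 1 Ψ)
include hc hp hM hL

/-- the admissible parity vectors, in a residue class of odd modulus -/
theorem AK_law {Q : ℕ} (hQ : Odd Q) (r J : ℕ) (lam : ℝ) :
    LQ (fun n => n ≡ r [MOD Q] ∧ AK J lam n) (rK J lam / Q) Ψ := by
  classical
  have hQ0 : 0 < Q := hQ.pos
  have hcop : Nat.Coprime (2 ^ J) Q := (Nat.coprime_two_left.2 hQ).pow_left J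
  set W : Finset ℕ := (range (2 ^ J * Q)).filter (fun c => c ≡ r [MOD Q] ∧ AK J lam c) with hW
  have h1 := LQ_union (Ψ := Ψ) (q := 2 ^ J * Q) (by positivity) (t := 1 / ((2 ^ J * Q : ℕ) : ℝ)) W (filter_subset _ _)
    (fun c _ => mod_law hc hp hM hL (q := 2 ^ J * Q) (Nat.one_le_iff_ne_zero.2 (by positivity)) c)
  have e1 : (fun n => n % (2 ^ J * Q) ∈ W) = fun n => n ≡ r [MOD Q] ∧ AK J lam n := by
    funext n
    rw [hW, mem_filter, mem_range]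
    have h2 : n % (2 ^ J * Q) < 2 ^ J * Q := Nat.mod_lt _ (by positivity)
    have h3 : n % (2 ^ J * Q) ≡ r [MOD Q] ↔ n ≡ r [MOD Q] := by
      have h4 : n % (2 ^ J * Q) ≡ n [MOD Q] := (Nat.mod_modEq n (2 ^ J * Q)).of_mul_left _
      exact ⟨fun h => h4.symm.trans h, fun h => h4.trans h⟩
    have h5 : AK J lam (n % (2 ^ J * Q)) ↔ AK J lam n := by
      rw [← AK_mod J lam (n % (2 ^ J * Q)), Nat.mod_mul_right_mod, AK_mod]
    rw [h3, h5]
    simp [h2]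
  have e2 : W.card = ((range (2 ^ J)).filter (AK J lam)).card := by
    apply Finset.card_bij (fun c _ => c % 2 ^ J)
    · intro c hc'
      rw [hW, mem_filter] at hc'
      rw [mem_filter, mem_range, AK_mod]
      exact ⟨Nat.mod_lt _ (by positivity), hc'.2.2⟩
    · intro a ha b hb hab
      rw [hW, mem_filter, mem_range] at ha hb
      have h2 : a ≡ b [MOD 2 ^ J * Q] :=
        (Nat.modEq_and_modEq_iff_modEq_mul hcop).1 ⟨hab, ha.2.1.trans hb.2.1.symm⟩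
      exact Nat.ModEq.eq_of_lt_of_lt h2 ha.1 hb.1
    · intro b hb
      rw [mem_filter, mem_range] at hb
      obtain ⟨z, hz1, hz2⟩ := Nat.chineseRemainder hcop b r
      refine ⟨z % (2 ^ J * Q), ?_, ?_⟩
      · rw [hW, mem_filter, mem_range]
        refine ⟨Nat.mod_lt _ (by positivity), ((Nat.mod_modEq z (2 ^ J * Q)).of_mul_left _).trans hz2, ?_⟩
        rw [← AK_mod J lam (z % (2 ^ J * Q)), Nat.mod_mul_right_mod]
        have : z % 2 ^ J = b := by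
          have h3 : z % 2 ^ J = b % 2 ^ J := hz1
          rw [h3, Nat.mod_eq_of_lt hb.1]
        rw [this]
        exact hb.2
      · rw [Nat.mod_mul_right_mod]
        have h3 : z % 2 ^ J = b % 2 ^ J := hz1
        rw [h3, Nat.mod_eq_of_lt hb.1]
  have e3 : (W.card : ℝ) * (1 / ((2 ^ J * Q : ℕ) : ℝ)) = rK J lam / Q := by
    rw [e2]
    unfold rK
    push_cast
    field_simp
  rw [e1, e3] at h1
  exact h1

/-- the excursion law in the levels -/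
theorem exc_level {Q : ℕ} (hQ : Odd Q) (r : ℕ) {lam q : ℝ} (hl : 1 ≤ lam)
    (hq : Tendsto (fun K => rK K lam) atTop (𝓝 q)) :
    LQ (fun n => n ≡ r [MOD Q] ∧ ∀ k, ((Tn^[k] n : ℕ) : ℝ) ≤ lam * n) (q / Q) Ψ := by
  intro K
  have hQ1 : (1 : ℝ) ≤ Q := by exact_mod_cast hQ.pos
  have hM0 : 0 ≤ M := (abs_nonneg _).trans (hM 0)
  rw [Metric.tendsto_nhds]
  intro ε hε
  obtain ⟨J0, hJ0⟩ := back_small K (ε := ε / 8) (by positivity)
  have hq1 : Tendsto (fun K => |rK K lam - q| * M) atTop (𝓝 0) := by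
    have h3 := ((hq.sub_const q).abs).mul_const M
    simpa using h3
  obtain ⟨J, hJ2, hJ1⟩ := ((hq1.eventually (gt_mem_nhds (show (0 : ℝ) < ε / 8 by positivity))).and
    (eventually_ge_atTop J0)).exists
  obtain ⟨n1, hn1⟩ := exists_nK J lam
  filter_upwards [hJ0, const_small (n1 + 1) K (ε := ε / 8) (by positivity),
    (Metric.tendsto_nhds.1 (AK_law hc hp hM hL hQ r J lam K)) (ε / 8) (by positivity), gd_pos_ev K, xg_ge K 1]
    with p g1 g2 g3 g4 g5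
  have hx : 0 < p.1 * gd PT p.1 p.2 := mul_pos (by linarith) g4
  set A := {n : ℕ | 1 ≤ n ∧ (n : ℝ) ≤ p.1 ∧ (n ≡ r [MOD Q] ∧ AK J lam n) ∧ 0 ≤ p.2 ∧ H p.2.toNat n} with hA
  set B := {n : ℕ | 1 ≤ n ∧ (n : ℝ) ≤ p.1 ∧ (n ≡ r [MOD Q] ∧ ∀ k, ((Tn^[k] n : ℕ) : ℝ) ≤ lam * n) ∧ 0 ≤ p.2 ∧ H p.2.toNat n} with hB
  set D := {n : ℕ | 1 ≤ n ∧ (n : ℝ) ≤ p.1 ∧ (∃ j, J0 ≤ j ∧ n ≤ Tn^[j] n) ∧ 0 ≤ p.2 ∧ H p.2.toNat n} with hD
  have hAf : A.Finite := fin_cZ _ p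
  have hBf : B.Finite := fin_cZ _ p
  have hDf : D.Finite := fin_cZ _ p
  set E : Set ℕ := ((Finset.range (n1 + 1) : Finset ℕ) : Set ℕ) with hE
  have hEf : E.Finite := Finset.finite_toSet _
  have hEc : E.ncard = n1 + 1 := by rw [hE, Set.ncard_coe_finset, Finset.card_range]
  have i1 : B ⊆ A := fun n hn => ⟨hn.1, hn.2.1, ⟨hn.2.2.1.1, AK_of_bound hl hn.1 hn.2.2.1.2 J⟩, hn.2.2.2⟩
  have i2 : A ⊆ (B ∪ D) ∪ E := by
    rintro n ⟨a1, a2, ⟨a0, a3⟩, a4, a5⟩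
    by_cases hn : n < n1 + 1
    · right
      rw [hE, Finset.mem_coe, Finset.mem_range]
      exact hn
    left
    by_cases hd : ∃ j, J0 ≤ j ∧ n ≤ Tn^[j] n
    · exact Or.inr ⟨a1, a2, hd, a4, a5⟩
    left
    refine ⟨a1, a2, ⟨a0, fun k => ?_⟩, a4, a5⟩
    have hnR : (0 : ℝ) < n := by exact_mod_cast a1
    by_contra hk
    push Not at hk
    have hle : n ≤ Tn^[k] n := by
      have h4 : (n : ℝ) ≤ lam * n := by nlinarith
      have h5 : (n : ℝ) < ((Tn^[k] n : ℕ) : ℝ) := by linarith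
      exact_mod_cast h5.le
    have hkJ : k < J0 := by
      by_contra hc
      exact hd ⟨k, by omega, hle⟩
    have hk1 : 1 ≤ k := by
      by_contra h0
      have : k = 0 := by omega
      subst this
      simp only [Function.iterate_zero, id] at hk
      nlinarith
    have hkJ' : k ≤ J := by omega
    have h4 := a3 k hk1 hkJ'
    have h5 := hn1 k hkJ' (Pool.Agent.Helper894.Collatz.od k n) ((Pool.Agent.H499R2.ND.od_le k n).trans hkJ') h4
    have h6 := iter_real k n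
    have h7 : (er k n : ℝ) ≤ 3 ^ J := by
      have h8 : er k n ≤ 3 ^ k := by
        have := er_le k n
        exact le_trans (Nat.le_add_right _ _) this
      have h9 : 3 ^ k ≤ 3 ^ J := Nat.pow_le_pow_right (by norm_num) hkJ'
      exact_mod_cast h8.trans h9
    have hnn1 : (n1 : ℝ) ≤ n := by
      have : n1 ≤ n := by omega
      exact_mod_cast this
    have h8 : (lam * 2 ^ k - 3 ^ Pool.Agent.Helper894.Collatz.od k n) * n1 ≤ (lam * 2 ^ k - 3 ^ Pool.Agent.Helper894.Collatz.od k n) * n :=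
      mul_le_mul_of_nonneg_left hnn1 (by linarith)
    have h9 : (2 : ℝ) ^ k * ((Tn^[k] n : ℕ) : ℝ) ≤ 2 ^ k * (lam * n) := by
      rw [h6]
      have : (2 : ℝ) ^ k * (lam * n) = 3 ^ Pool.Agent.Helper894.Collatz.od k n * n + (lam * 2 ^ k - 3 ^ Pool.Agent.Helper894.Collatz.od k n) * n := by ring
      rw [this]; linarith
    have h10 := le_of_mul_le_mul_left h9 (by positivity)
    linarith
  have c1 : B.ncard ≤ A.ncard := Set.ncard_le_ncard i1 hAf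
  have c2 : A.ncard ≤ B.ncard + D.ncard + (n1 + 1) := by
    refine (Set.ncard_le_ncard i2 ((hBf.union hDf).union hEf)).trans ?_
    refine (Set.ncard_union_le _ _).trans ?_
    exact add_le_add (Set.ncard_union_le _ _) hEc.le
  have c1' : cZ (fun n => n ≡ r [MOD Q] ∧ ∀ k, ((Tn^[k] n : ℕ) : ℝ) ≤ lam * n) p ≤ cZ (fun n => n ≡ r [MOD Q] ∧ AK J lam n) p := by
    unfold cZ
    exact_mod_cast c1
  have c2' : cZ (fun n => n ≡ r [MOD Q] ∧ AK J lam n) p ≤ cZ (fun n => n ≡ r [MOD Q] ∧ ∀ k, ((Tn^[k] n : ℕ) : ℝ) ≤ lam * n) p +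
      cZ (fun n => ∃ j, J0 ≤ j ∧ n ≤ Tn^[j] n) p + ((n1 : ℝ) + 1) := by
    unfold cZ
    exact_mod_cast c2
  have d1 := div_le_div_of_nonneg_right c1' hx.le
  have d2 := div_le_div_of_nonneg_right c2' hx.le
  rw [add_div, add_div] at d2
  unfold aZ at g1
  rw [Real.dist_eq, sub_zero] at g3 ⊢
  have g3' := abs_lt.1 g3
  have hΨ : |rK J lam / Q * Ψ (sv PT p) - q / Q * Ψ (sv PT p)| ≤ ε / 8 := by
    rw [← sub_mul, ← sub_div, abs_mul, abs_div, abs_of_pos (by linarith : (0 : ℝ) < Q)]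
    calc |rK J lam - q| / Q * |Ψ (sv PT p)| ≤ |rK J lam - q| * M := by
          apply mul_le_mul _ (hM _) (abs_nonneg _) (abs_nonneg _)
          exact div_le_self (abs_nonneg _) hQ1
      _ ≤ ε / 8 := hJ2.le
  have hΨ' := abs_le.1 hΨ
  rw [abs_lt]
  constructor <;> linarith [g3'.1, g3'.2, hΨ'.1, hΨ'.2]

end

/-- THE LOCAL LIMIT LAW OF THE MAXIMUM EXCURSION inside the levels of the total stopping time -/
theorem main_exc : ∃ (δ : ℝ) (Ψ q : ℝ → ℝ), 0 < δ ∧ δ ≤ 1 ∧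
    (δ = 1 ↔ ∀ n : ℕ, 1 ≤ n → ∃ k : ℕ, Tn^[k] n = 1) ∧
    Dn (fun n => ∃ k : ℕ, Tn^[k] n = 1) δ ∧
    Continuous Ψ ∧ (∀ t, Ψ (t + 1) = Ψ t) ∧
    (∀ t, δ * (Real.log 3 / 2) ≤ Ψ t ∧ Ψ t ≤ δ * (3 * Real.log 3 / 2)) ∧
    (∫ t in (0 : ℝ)..1, Ψ t = δ) ∧
    ∀ lam : ℝ, 1 ≤ lam → 1 - 1 / lam ≤ q lam ∧ q lam ≤ 1 ∧ Tendsto (fun K => rK K lam) atTop (𝓝 (q lam)) ∧
    ∀ (Q r : ℕ), Odd Q → ∀ K ε : ℝ, 0 < ε → ∃ X₀ : ℝ, ∀ x : ℝ, X₀ ≤ x → ∀ k : ℕ,
      |(k : ℝ) - 2 / Real.log (4 / 3) * Real.log x| ≤ K * Real.sqrt (Real.log x) →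
      |({n : ℕ | 1 ≤ n ∧ (n : ℝ) ≤ x ∧ (n ≡ r [MOD Q] ∧ ∀ k, ((Tn^[k] n : ℕ) : ℝ) ≤ lam * n) ∧ H k n}.ncard : ℝ) /
        (x * (Real.exp (-(((k : ℝ) - 2 / Real.log (4 / 3) * Real.log x) ^ 2 /
          (2 * (2 * Real.log 3 ^ 2 / Real.log (4 / 3) ^ 3 * Real.log x)))) /
          Real.sqrt (2 * Real.pi * (2 * Real.log 3 ^ 2 / Real.log (4 / 3) ^ 3 * Real.log x)))) -
        q lam / Q * Ψ (Real.logb 3 (x / 2 ^ k))| ≤ ε := by
  obtain ⟨δ, Ψ, M, h0, h0', h0'', h1, h2, h3, h4, h5, h6, h7, h8, h9, h10⟩ := base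
  have hl3 : 0 < Real.log 3 := Real.log_pos (by norm_num)
  have hM : ∀ t, |Ψ t| ≤ M := fun t => by
    rw [abs_of_nonneg ((by positivity : 0 ≤ δ * (Real.log 3 / 2)).trans (h4 t).1)]
    exact h6 t
  refine ⟨δ, Ψ, fun lam => ⨅ K, rK K lam, h0, h0', h0'', h1, h2, h3, h4, h5, fun lam hl => ?_⟩
  have hlim := tendsto_atTop_ciInf (rK_anti lam) ⟨0, by rintro _ ⟨K, rfl⟩; exact rK_nonneg K lam⟩
  refine ⟨ge_of_tendsto' hlim fun K => rK_ge (by linarith) K, le_of_tendsto' hlim fun K => rK_le_one K lam, hlim,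
    fun Q r hQ K ε hε => ?_⟩
  exact LQ_eps (exc_level h2 h3 hM h9 hQ r hl hlim) K ε hε

end Pool.Agent.R468.RC
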