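import Pool.Agent.R468.RC.I

/-!
Residue classes, part 16: the local limit law in residue classes for progressions of equal total
stopping times.
-/

set_option autoImplicit false

namespace Pool.Agent.R468.RC

open Filter Topology Finset
open Pool.Agent.R468.GL
open Pool.Agent.H499R2.LT
open Pool.Agent.H499R2.ND (Td Tn Dn)
open Pool.Agent.H499R2.HL

theorem step_law {Ψ : ℝ → ℝ} (hc : Continuous Ψ) (hp : ∀ t, Ψ (t + 1) = Ψ t) {M : ℝ} (hM : ∀ t, |Ψ t| ≤ M)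
    (hL : LQ (fun _ => True) 1 Ψ) {q : ℕ} (hq : 1 ≤ q) (r h s : ℕ) :
    LQ (fun n => n ≡ r [MOD q] ∧ ∀ i ≤ h, ∀ k, H k (n + s * i) ↔ H k n) (1 / q) Ψ := by
  refine LQ_of (mod_law hc hp hM hL hq r) fun K ε hε => ?_
  have h1 := Metric.tendsto_nhds.1 (run_law hc hp hM hL hq r (s * h) K) (ε / 2) (by positivity)
  have h2 := Metric.tendsto_nhds.1 (mod_law hc hp hM hL hq r K) (ε / 2) (by positivity)
  filter_upwards [h1, h2, gd_pos_ev K, xg_ge K 1] with p g1 g2 g3 g4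
  have hx : 0 < p.1 * gd PT p.1 p.2 := mul_pos (by linarith) g3
  rw [Real.dist_eq, sub_zero] at g1 g2
  have i1 : cZ (fun n => n ≡ r [MOD q] ∧ ∀ i ≤ s * h, ∀ k, H k (n + i) ↔ H k n) p ≤
      cZ (fun n => n ≡ r [MOD q] ∧ ∀ i ≤ h, ∀ k, H k (n + s * i) ↔ H k n) p :=
    cZ_mono (fun n hn => ⟨hn.1, fun i hi => hn.2 (s * i) (Nat.mul_le_mul_left s hi)⟩) p
  have i2 : cZ (fun n => n ≡ r [MOD q] ∧ ∀ i ≤ h, ∀ k, H k (n + s * i) ↔ H k n) p ≤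
      cZ (fun n => n ≡ r [MOD q]) p := cZ_mono (fun n hn => hn.1) p
  have j1 := div_le_div_of_nonneg_right i1 hx.le
  have j2 := div_le_div_of_nonneg_right i2 hx.le
  have k1 := abs_lt.1 g1
  have k2 := abs_lt.1 g2
  unfold aZ
  rw [abs_le]
  constructor <;> linarith [k1.1, k1.2, k2.1, k2.2]

/-- THE LOCAL LIMIT LAW IN RESIDUE CLASSES, WITH PROGRESSIONS -/
theorem main_steps : ∃ (δ : ℝ) (Ψ : ℝ → ℝ), 0 < δ ∧ δ ≤ 1 ∧
    (δ = 1 ↔ ∀ n : ℕ, 1 ≤ n → ∃ k : ℕ, Tn^[k] n = 1) ∧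
    Dn (fun n => ∃ k : ℕ, Tn^[k] n = 1) δ ∧
    Continuous Ψ ∧ (∀ t, Ψ (t + 1) = Ψ t) ∧
    (∀ t, δ * (Real.log 3 / 2) ≤ Ψ t ∧ Ψ t ≤ δ * (3 * Real.log 3 / 2)) ∧
    (∫ t in (0 : ℝ)..1, Ψ t = δ) ∧
    ∀ (q r h s : ℕ), 1 ≤ q → ∀ K ε : ℝ, 0 < ε → ∃ X₀ : ℝ, ∀ x : ℝ, X₀ ≤ x → ∀ k : ℕ,
      |(k : ℝ) - 2 / Real.log (4 / 3) * Real.log x| ≤ K * Real.sqrt (Real.log x) →
      |({n : ℕ | 1 ≤ n ∧ (n : ℝ) ≤ x ∧ n ≡ r [MOD q] ∧ ∀ i ≤ h, H k (n + s * i)}.ncard : ℝ) /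
        (x * (Real.exp (-(((k : ℝ) - 2 / Real.log (4 / 3) * Real.log x) ^ 2 /
          (2 * (2 * Real.log 3 ^ 2 / Real.log (4 / 3) ^ 3 * Real.log x)))) /
          Real.sqrt (2 * Real.pi * (2 * Real.log 3 ^ 2 / Real.log (4 / 3) ^ 3 * Real.log x)))) -
        1 / q * Ψ (Real.logb 3 (x / 2 ^ k))| ≤ ε := by
  obtain ⟨δ, Ψ, M, h0, h0', h0'', h1, h2, h3, h4, h5, h6, h7, h8, h9, h10⟩ := base
  have hl3 : 0 < Real.log 3 := Real.log_pos (by norm_num)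
  have hM : ∀ t, |Ψ t| ≤ M := fun t => by
    rw [abs_of_nonneg ((by positivity : 0 ≤ δ * (Real.log 3 / 2)).trans (h4 t).1)]
    exact h6 t
  refine ⟨δ, Ψ, h0, h0', h0'', h1, h2, h3, h4, h5, fun q r h s hq K ε hε => ?_⟩
  have hR := step_law h2 h3 hM h9 hq r h s
  obtain ⟨X1, hX1⟩ := LQ_eps hR K ε hε
  refine ⟨X1, fun x hx k hk => ?_⟩
  have g := hX1 x hx k hk
  have e1 : {n : ℕ | 1 ≤ n ∧ (n : ℝ) ≤ x ∧ (n ≡ r [MOD q] ∧ ∀ i ≤ h, ∀ k, H k (n + s * i) ↔ H k n) ∧ H k n} =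
      {n : ℕ | 1 ≤ n ∧ (n : ℝ) ≤ x ∧ n ≡ r [MOD q] ∧ ∀ i ≤ h, H k (n + s * i)} := by
    ext n
    rw [Set.mem_ofPred_eq, Set.mem_ofPred_eq]
    constructor
    · rintro ⟨a, b, ⟨c, d⟩, e⟩
      exact ⟨a, b, c, fun i hi => (d i hi k).2 e⟩
    · rintro ⟨a, b, c, d⟩
      have h0 := d 0 (Nat.zero_le _)
      rw [Nat.mul_zero, Nat.add_zero] at h0
      refine ⟨a, b, ⟨c, fun i hi k' => ?_⟩, h0⟩
      constructor
      · intro hk'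
        have := H_unique hk' (d i hi)
        rw [this]; exact h0
      · intro hk'
        have := H_unique hk' h0
        rw [this]; exact d i hi
  rw [e1] at g
  exact g

end Pool.Agent.R468.RC
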