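import Pool.Agent.R468.RC.N

/-!
Residue classes, part 17: descent words.
-/

set_option autoImplicit false

namespace Pool.Agent.R468.RC

open Filter Topology Finset
open Pool.Agent.R468.GL
open Pool.Agent.H499R2.LT
open Pool.Agent.H499R2.ND (Td Tn Dn count_residues)
open Pool.Agent.H499R2.HL

/-- the first parities of the trajectory -/
def word (s n : ℕ) : List ℕ := (List.range s).map fun i => Tn^[i] n % 2

theorem word_len (s n : ℕ) : (word s n).length = s := by unfold word; simp

theorem word_succ (s n : ℕ) : word (s + 1) n = word s n ++ [Tn^[s] n % 2] := by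
  unfold word
  rw [List.range_succ, List.map_append, List.map_singleton]

theorem odn_succ' (k n : ℕ) : odn (k + 1) n = odn k n + Tn^[k] n % 2 := by
  unfold odn
  rw [Finset.range_add_one, Finset.filter_insert]
  rcases Nat.mod_two_eq_zero_or_one (Tn^[k] n) with h | h
  · rw [if_neg (by omega), h, Nat.add_zero]
  · rw [if_pos h, h, Finset.card_insert_of_notMem]
    intro h'
    have := Finset.mem_range.1 (Finset.mem_filter.1 h').1
    omega

theorem od_odn' (k n : ℕ) : Pool.Agent.Helper894.Collatz.od k n = odn k n := by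
  induction k with
  | zero => simp [Pool.Agent.Helper894.Collatz.od, odn]
  | succ k ih => rw [Pool.Agent.Helper894.Collatz.od_succ, odn_succ', ih, Pool.Agent.H499R2.ND.Tn_eq]

theorem word_sum (s n : ℕ) : (word s n).sum = odn s n := by
  induction s with
  | zero => simp [word, odn]
  | succ s ih => rw [word_succ, List.sum_append, ih, odn_succ']; simp

theorem word_take {i s : ℕ} (h : i ≤ s) (n : ℕ) : (word s n).take i = word i n := by
  unfold word
  rw [← List.map_take, List.take_range, min_eq_left h]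

theorem word_bit (s n : ℕ) : ∀ a ∈ word s n, a = 0 ∨ a = 1 := by
  intro a ha
  unfold word at ha
  rw [List.mem_map] at ha
  obtain ⟨i, _, rfl⟩ := ha
  omega

theorem par_mod {i s : ℕ} (h : i < s) (n : ℕ) : Tn^[i] (n % 2 ^ s) % 2 = Tn^[i] n % 2 :=
  Pool.Agent.H499R2.ND.parity_mod h n

theorem word_mod {i s : ℕ} (h : i ≤ s) (n : ℕ) : word i (n % 2 ^ s) = word i n := by
  unfold word
  apply List.map_congr_left
  intro j hj
  rw [List.mem_range] at hj
  exact par_mod (by omega) n

theorem odn_modle {i s : ℕ} (h : i ≤ s) (n : ℕ) : odn i (n % 2 ^ s) = odn i n := by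
  rw [← word_sum, ← word_sum, word_mod h]

theorem word_inj {s a b : ℕ} (ha : a < 2 ^ s) (hb : b < 2 ^ s) (h : word s a = word s b) : a = b := by
  apply Pool.Agent.H499R2.ND.pv_inj s a b ha hb
  intro i hi
  have h1 : (word s a)[i]? = (word s b)[i]? := by rw [h]
  unfold word at h1
  rw [List.getElem?_map, List.getElem?_map, List.getElem?_range hi] at h1
  simpa using h1

theorem word_surj : ∀ (s : ℕ) (w : List ℕ), w.length = s → (∀ a ∈ w, a = 0 ∨ a = 1) → ∃ c < 2 ^ s, word s c = w := by
  intro s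
  induction s with
  | zero =>
    intro w hw _
    exact ⟨0, by norm_num, by rw [List.length_eq_zero_iff.1 hw]; rfl⟩
  | succ s ih =>
    intro w hw hb
    rcases List.eq_nil_or_concat w with h | ⟨w', a, h⟩
    · rw [h] at hw; simp at hw
    · rw [List.concat_eq_append] at h
      subst h
      rw [List.length_append, List.length_singleton] at hw
      obtain ⟨c, hc, hcw⟩ := ih w' (by omega) (fun b hb' => hb b (List.mem_append_left _ hb'))
      have ha := hb a (List.mem_append_right _ (List.mem_singleton_self a))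
      by_cases h1 : Tn^[s] c % 2 = a
      · exact ⟨c, by rw [pow_succ]; omega, by rw [word_succ, hcw, h1]⟩
      · refine ⟨c + 2 ^ s, by rw [pow_succ]; omega, ?_⟩
        have h2 : word s (c + 2 ^ s) = word s c := by
          rw [← word_mod le_rfl (c + 2 ^ s), Nat.add_mod_right, Nat.mod_eq_of_lt hc]
        have h3 := Pool.Agent.Helper894.Collatz.flip_parity s c
        rw [Pool.Agent.H499R2.ND.Tn_eq] at h3
        have h4 := Nat.mod_lt (Tn^[s] c) (show 2 > 0 by norm_num)
        rw [word_succ, h2, hcw, h3]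
        congr 2
        omega

/-- the descent words -/
def DW (w : List ℕ) : Prop := (∀ a ∈ w, a = 0 ∨ a = 1) ∧ 3 ^ w.sum < 2 ^ w.length ∧
  ∀ i, 1 ≤ i → i < w.length → 2 ^ i < 3 ^ (w.take i).sum

/-- the coefficient stopping time of `n` is `s` -/
def CD (s n : ℕ) : Prop := 3 ^ odn s n < 2 ^ s ∧ ∀ i, 1 ≤ i → i < s → 2 ^ i < 3 ^ odn i n

theorem DW_word (s n : ℕ) : DW (word s n) ↔ CD s n := by
  unfold DW CD
  rw [word_sum, word_len]
  constructor
  · rintro ⟨_, h1, h2⟩
    refine ⟨h1, fun i hi his => ?_⟩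
    have := h2 i hi his
    rwa [word_take his.le, word_sum] at this
  · rintro ⟨h1, h2⟩
    refine ⟨word_bit s n, h1, fun i hi his => ?_⟩
    rw [word_take his.le, word_sum]
    exact h2 i hi his

theorem CD_pos {s n : ℕ} (h : CD s n) : 1 ≤ s := by
  by_contra hc
  have h0 : s = 0 := by omega
  subst h0
  have := h.1
  simp [odn] at this

theorem CD_uni {s s' n : ℕ} (h : CD s n) (h' : CD s' n) : s = s' := by
  rcases lt_trichotomy s s' with h1 | h1 | h1
  · have := h'.2 s (CD_pos h) h1
    have := h.1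
    omega
  · exact h1
  · have := h.2 s' (CD_pos h') h1
    have := h'.1
    omega

theorem CD_mod {s J : ℕ} (h : s ≤ J) (n : ℕ) : CD s (n % 2 ^ J) ↔ CD s n := by
  unfold CD
  rw [odn_modle h]
  refine and_congr_right fun _ => forall_congr' fun i => forall_congr' fun _ => forall_congr' fun hi => ?_
  rw [odn_modle (by omega)]

/-- a descent word of length at most `J` in the set -/
def EJ (S : Set (List ℕ)) (J n : ℕ) : Prop := ∃ s ≤ J, CD s n ∧ word s n ∈ S

theorem EJ_mod (S : Set (List ℕ)) (J n : ℕ) : EJ S J (n % 2 ^ J) ↔ EJ S J n := by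
  unfold EJ
  refine exists_congr fun s => and_congr_right fun hs => ?_
  rw [CD_mod hs, word_mod hs]

/-- the number of the descent words of length `s` in the set -/
noncomputable def zc (S : Set (List ℕ)) (s : ℕ) : ℕ := {w : List ℕ | w ∈ S ∧ w.length = s ∧ DW w}.ncard

theorem zc_eq (S : Set (List ℕ)) (s : ℕ) [DecidablePred fun c => CD s c ∧ word s c ∈ S] :
    ((range (2 ^ s)).filter (fun c => CD s c ∧ word s c ∈ S)).card = zc S s := by
  unfold zc
  rw [← Set.ncard_coe_finset, ← Set.InjOn.ncard_image (f := word s)]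
  · congr 1
    ext w
    rw [Set.mem_image]
    constructor
    · rintro ⟨c, hc, rfl⟩
      rw [Finset.mem_coe, mem_filter] at hc
      exact ⟨hc.2.2, word_len s c, (DW_word s c).2 hc.2.1⟩
    · rintro ⟨h1, h2, h3⟩
      obtain ⟨c, hc, hcw⟩ := word_surj s w h2 h3.1
      refine ⟨c, ?_, hcw⟩
      rw [Finset.mem_coe, mem_filter, mem_range, hcw]
      exact ⟨hc, (DW_word s c).1 (by rw [hcw]; exact h3), h1⟩
  · intro a ha b hb hab
    rw [Finset.mem_coe, mem_filter, mem_range] at ha hb
    exact word_inj ha.1 hb.1 hab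

/-- counting a periodic set in a longer interval -/
theorem cnt_ext {s J : ℕ} (h : s ≤ J) (A : ℕ → Prop) [DecidablePred A] (hA : ∀ n, A (n % 2 ^ s) ↔ A n) :
    ((range (2 ^ J)).filter A).card = ((range (2 ^ s)).filter A).card * 2 ^ (J - s) := by
  have e : 2 ^ J = 2 ^ s * 2 ^ (J - s) := by rw [← pow_add, Nat.add_sub_cancel' h]
  rw [← Finset.card_range (2 ^ (J - s)), ← Finset.card_product]
  symm
  apply Finset.card_bij (fun q _ => q.1 + 2 ^ s * q.2)
  · rintro ⟨a, b⟩ hab
    rw [mem_product, mem_filter, mem_range, mem_range] at hab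
    obtain ⟨⟨h1, h2⟩, h3⟩ := hab
    rw [mem_filter, mem_range, e]
    constructor
    · simp only at h1 h3 ⊢
      calc a + 2 ^ s * b < 2 ^ s + 2 ^ s * b := by omega
        _ = 2 ^ s * (b + 1) := by ring
        _ ≤ 2 ^ s * 2 ^ (J - s) := Nat.mul_le_mul_left _ h3
    · rw [← hA, Nat.add_mul_mod_self_left, hA]
      exact h2
  · rintro ⟨a, b⟩ hab ⟨a', b'⟩ hab' he
    rw [mem_product, mem_filter, mem_range, mem_range] at hab hab'
    simp only at he hab hab'
    have e1 : (a + 2 ^ s * b) % 2 ^ s = a := by rw [Nat.add_mul_mod_self_left]; exact Nat.mod_eq_of_lt hab.1.1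
    have e2 : (a' + 2 ^ s * b') % 2 ^ s = a' := by
      rw [Nat.add_mul_mod_self_left]; exact Nat.mod_eq_of_lt hab'.1.1
    have e3 : a = a' := by rw [← e1, ← e2, he]
    subst e3
    have e4 : 2 ^ s * b = 2 ^ s * b' := by omega
    rw [Nat.eq_of_mul_eq_mul_left (by positivity) e4]
  · intro c hc
    rw [mem_filter, mem_range, e] at hc
    refine ⟨(c % 2 ^ s, c / 2 ^ s), ?_, Nat.mod_add_div c (2 ^ s)⟩
    rw [mem_product, mem_filter, mem_range, mem_range]
    refine ⟨⟨Nat.mod_lt _ (by positivity), (hA c).2 hc.2⟩, ?_⟩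
    exact Nat.div_lt_of_lt_mul hc.1

open Classical in
/-- the proportion of the residues -/
theorem EJ_card (S : Set (List ℕ)) (J : ℕ) : (((range (2 ^ J)).filter (EJ S J)).card : ℝ) / 2 ^ J =
    ∑ s ∈ range (J + 1), (zc S s : ℝ) / 2 ^ s := by
  have h1 : (range (2 ^ J)).filter (EJ S J) = (range (J + 1)).biUnion
      (fun s => (range (2 ^ J)).filter (fun c => CD s c ∧ word s c ∈ S)) := by
    ext c
    rw [mem_filter, mem_biUnion]
    constructor
    · rintro ⟨h1, s, hs, h2⟩
      exact ⟨s, mem_range.2 (by omega), by rw [mem_filter]; exact ⟨h1, h2⟩⟩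
    · rintro ⟨s, hs, h2⟩
      rw [mem_filter] at h2
      exact ⟨h2.1, s, by have := mem_range.1 hs; omega, h2.2⟩
  rw [h1, card_biUnion]
  · push_cast
    rw [sum_div]
    refine sum_congr rfl fun s hs => ?_
    have hsJ : s ≤ J := by have := mem_range.1 hs; omega
    have h2 := cnt_ext hsJ (fun c => CD s c ∧ word s c ∈ S) (fun n => by rw [CD_mod le_rfl, word_mod le_rfl])
    rw [h2, zc_eq]
    push_cast
    have e : (2 : ℝ) ^ J = 2 ^ s * 2 ^ (J - s) := by rw [← pow_add, Nat.add_sub_cancel' hsJ]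
    rw [e]
    field_simp
  · intro s _ s' _ hne
    rw [Function.onFun, disjoint_left]
    intro c hc hc'
    rw [mem_filter] at hc hc'
    exact hne (CD_uni hc.2.1 hc'.2.1)

open Classical in
/-- almost all residues have a descent -/
theorem EJ_univ {J : ℕ} (hJ : 1 ≤ J) : 1 - 2 * Pool.Agent.H499R2.ND.th ^ J ≤ ∑ s ∈ range (J + 1), (zc Set.univ s : ℝ) / 2 ^ s := by
  rw [← EJ_card]
  have h1 : (range (2 ^ J)).filter (fun c => ¬ EJ Set.univ J c) ⊆
      (range (2 ^ J)).filter (fun r => 2 ^ J < 2 * 3 ^ Pool.Agent.Helper894.Collatz.od J r) := by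
    intro c hc
    rw [mem_filter] at hc ⊢
    refine ⟨hc.1, ?_⟩
    rw [od_odn']
    by_contra hcon
    apply hc.2
    have h2 : ∃ s, s ≤ J ∧ 3 ^ odn s c < 2 ^ s := ⟨J, le_rfl, by
      have : 0 < 3 ^ odn J c := by positivity
      omega⟩
    obtain ⟨hs1, hs2⟩ := Nat.find_spec h2
    refine ⟨Nat.find h2, hs1, ⟨hs2, fun i hi1 hi2 => ?_⟩, Set.mem_univ _⟩
    have h3 := Nat.find_min h2 hi2
    push Not at h3
    have h4 := h3 (by omega)
    refine lt_of_le_of_ne h4 fun h5 => ?_
    have h6 : 2 ∣ 3 ^ odn i c := by rw [← h5]; exact dvd_pow_self 2 (by omega)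
    have := (Nat.prime_two).dvd_of_dvd_pow h6
    omega
  have h2 : (((range (2 ^ J)).filter (fun c => ¬ EJ Set.univ J c)).card : ℝ) ≤ 2 * Pool.Agent.H499R2.ND.th ^ J * 2 ^ J :=
    le_trans (by exact_mod_cast card_le_card h1) (count_residues J)
  have h3 := card_filter_add_card_filter_not (s := range (2 ^ J)) (EJ Set.univ J)
  rw [card_range] at h3
  have h4 : (((range (2 ^ J)).filter (EJ Set.univ J)).card : ℝ) +
      (((range (2 ^ J)).filter (fun c => ¬ EJ Set.univ J c)).card : ℝ) = 2 ^ J := by exact_mod_cast h3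
  rw [le_div_iff₀ (by positivity)]
  have e : (1 - 2 * Pool.Agent.H499R2.ND.th ^ J) * 2 ^ J = 2 ^ J - 2 * Pool.Agent.H499R2.ND.th ^ J * 2 ^ J := by ring
  rw [e]
  linarith

theorem EJ_le_one (S : Set (List ℕ)) (J : ℕ) : ∑ s ∈ range (J + 1), (zc S s : ℝ) / 2 ^ s ≤ 1 := by
  classical
  rw [← EJ_card, div_le_one (by positivity)]
  have := card_filter_le (range (2 ^ J)) (EJ S J)
  rw [card_range] at this
  exact_mod_cast this

end Pool.Agent.R468.RC
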