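import Pool.Agent.R468.RC.R

/-!
Residue classes, part 18: the law of the descent word inside the levels, in total variation.
-/

set_option autoImplicit false

namespace Pool.Agent.R468.RC

open Filter Topology Finset
open Pool.Agent.R468.GL
open Pool.Agent.R468.LL (lam lam_eq lam_pos lam_lt)
open Pool.Agent.H499R2.LT
open Pool.Agent.H499R2.ND (Td Tn Dn)
open Pool.Agent.H499R2.HL

/-! ### the weights -/

theorem DW_fin (s : ℕ) : {w : List ℕ | w.length = s ∧ DW w}.Finite := by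
  apply ((Set.finite_Iio (2 ^ s)).image (word s)).subset
  rintro w ⟨h1, h2⟩
  obtain ⟨c, hc, hcw⟩ := word_surj s w h1 h2.1
  exact ⟨c, hc, hcw⟩

theorem zc_mono (S : Set (List ℕ)) (s : ℕ) : zc S s ≤ zc Set.univ s := by
  unfold zc
  apply Set.ncard_le_ncard
  · rintro w ⟨_, h2, h3⟩
    exact ⟨Set.mem_univ _, h2, h3⟩
  · exact (DW_fin s).subset fun w hw => hw.2

theorem zs (S : Set (List ℕ)) : Summable fun s : ℕ => (zc S s : ℝ) / 2 ^ s := by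
  apply summable_of_sum_range_le (c := 1)
  · intro s; positivity
  · intro n
    cases n with
    | zero => simp
    | succ J => exact EJ_le_one S J

theorem th_tend : Tendsto (fun J : ℕ => 2 * Pool.Agent.H499R2.ND.th ^ J) atTop (𝓝 0) := by
  have := (tendsto_pow_atTop_nhds_zero_of_lt_one Pool.Agent.H499R2.ND.th_pos.le Pool.Agent.H499R2.ND.th_lt).const_mul 2
  simpa using this

theorem z_one : HasSum (fun s : ℕ => (zc Set.univ s : ℝ) / 2 ^ s) 1 := by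
  rw [hasSum_iff_tendsto_nat_of_nonneg (fun s => by positivity)]
  rw [← tendsto_add_atTop_iff_nat 1]
  have h1 : Tendsto (fun J : ℕ => 1 - 2 * Pool.Agent.H499R2.ND.th ^ J) atTop (𝓝 (1 - 0)) :=
    tendsto_const_nhds.sub th_tend
  rw [sub_zero] at h1
  refine tendsto_of_tendsto_of_tendsto_of_le_of_le' h1 tendsto_const_nhds ?_ ?_
  · filter_upwards [eventually_ge_atTop 1] with J hJ
    exact EJ_univ hJ
  · exact Eventually.of_forall fun J => EJ_le_one _ J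

theorem z_tail (S : Set (List ℕ)) {J : ℕ} (hJ : 1 ≤ J) :
    |(∑ s ∈ range (J + 1), (zc S s : ℝ) / 2 ^ s) - ∑' s : ℕ, (zc S s : ℝ) / 2 ^ s| ≤
      2 * Pool.Agent.H499R2.ND.th ^ J := by
  have h1 := (zs S).sum_add_tsum_nat_add (J + 1)
  have h2 := (zs Set.univ).sum_add_tsum_nat_add (J + 1)
  have h3 : ∑' i : ℕ, (zc S (i + (J + 1)) : ℝ) / 2 ^ (i + (J + 1)) ≤
      ∑' i : ℕ, (zc Set.univ (i + (J + 1)) : ℝ) / 2 ^ (i + (J + 1)) := by
    apply Summable.tsum_le_tsum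
    · intro i
      exact div_le_div_of_nonneg_right (by exact_mod_cast zc_mono S _) (by positivity)
    · exact (summable_nat_add_iff (J + 1)).2 (zs S)
    · exact (summable_nat_add_iff (J + 1)).2 (zs Set.univ)
  have h4 : 0 ≤ ∑' i : ℕ, (zc S (i + (J + 1)) : ℝ) / 2 ^ (i + (J + 1)) := tsum_nonneg fun i => by positivity
  rw [z_one.tsum_eq] at h2
  have h5 := EJ_univ hJ
  rw [abs_le]
  constructor <;> linarith

/-! ### the stopping time -/

/-- the stopping time of `n` is `s` -/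
def ST (s n : ℕ) : Prop := Tn^[s] n < n ∧ ∀ i < s, n ≤ Tn^[i] n

theorem lt_iff {i J n : ℕ} (hi : i ≤ J) (hn : 4 ^ J ≤ n) : Tn^[i] n < n ↔ 3 ^ odn i n < 2 ^ i := by
  have hlow := iter_lower i n
  have hup := iter_upper i n
  have hn0 : 0 < n := lt_of_lt_of_le (by positivity) hn
  constructor
  · intro h
    have h1 : 2 ^ i * Tn^[i] n < 2 ^ i * n := Nat.mul_lt_mul_of_pos_left h (by positivity)
    have h2 : 3 ^ odn i n * n < 2 ^ i * n := lt_of_le_of_lt hlow h1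
    exact Nat.lt_of_mul_lt_mul_right h2
  · intro h
    have h1 : 3 ^ odn i n * 2 ^ i ≤ 4 ^ J := by
      calc 3 ^ odn i n * 2 ^ i ≤ 2 ^ i * 2 ^ i := Nat.mul_le_mul_right _ h.le
        _ = 4 ^ i := by rw [← mul_pow]; norm_num
        _ ≤ 4 ^ J := Nat.pow_le_pow_right (by norm_num) hi
    have h2 : 3 ^ odn i n * n + n ≤ 2 ^ i * n := by
      calc 3 ^ odn i n * n + n = (3 ^ odn i n + 1) * n := by ring
        _ ≤ 2 ^ i * n := Nat.mul_le_mul_right _ h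
    have h3 : 3 ^ odn i n * (n + 2 ^ i) = 3 ^ odn i n * n + 3 ^ odn i n * 2 ^ i := by ring
    have h4 : 0 < 3 ^ odn i n := by positivity
    have h5 : 2 ^ i * Tn^[i] n < 2 ^ i * n := by omega
    exact Nat.lt_of_mul_lt_mul_left h5

theorem pow_ne {i a : ℕ} (hi : 1 ≤ i) : 2 ^ i ≠ 3 ^ a := by
  intro h5
  have h6 : 2 ∣ 3 ^ a := by rw [← h5]; exact dvd_pow_self 2 (by omega)
  have := (Nat.prime_two).dvd_of_dvd_pow h6
  omega

theorem CD_ST {s J n : ℕ} (hs : s ≤ J) (hn : 4 ^ J ≤ n) : CD s n ↔ ST s n := by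
  unfold CD ST
  rw [lt_iff hs hn]
  refine and_congr_right fun _ => ?_
  constructor
  · intro h i hi
    rcases Nat.eq_zero_or_pos i with h0 | h0
    · subst h0; exact le_rfl
    · have h1 := h i h0 hi
      by_contra hc
      push Not at hc
      rw [lt_iff (by omega) hn] at hc
      omega
  · intro h i hi0 hi
    have h1 := h i hi
    have h2 : ¬ 3 ^ odn i n < 2 ^ i := by
      rw [← lt_iff (by omega) hn]
      omega
    exact lt_of_le_of_ne (by omega) (pow_ne hi0)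

open Classical in
/-- Chinese remainders -/
theorem crt_card {Q : ℕ} (hQ : Odd Q) (r J : ℕ) (A : ℕ → Prop) (hA : ∀ n, A (n % 2 ^ J) ↔ A n) :
    ((range (2 ^ J * Q)).filter (fun c => c ≡ r [MOD Q] ∧ A c)).card = ((range (2 ^ J)).filter A).card := by
  have hQ0 : 0 < Q := hQ.pos
  have hcop : Nat.Coprime (2 ^ J) Q := (Nat.coprime_two_left.2 hQ).pow_left J
  apply Finset.card_bij (fun c _ => c % 2 ^ J)
  · intro c hc'
    rw [mem_filter] at hc'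
    rw [mem_filter, mem_range, hA]
    exact ⟨Nat.mod_lt _ (by positivity), hc'.2.2⟩
  · intro a ha b hb hab
    rw [mem_filter, mem_range] at ha hb
    have h2 : a ≡ b [MOD 2 ^ J * Q] :=
      (Nat.modEq_and_modEq_iff_modEq_mul hcop).1 ⟨hab, ha.2.1.trans hb.2.1.symm⟩
    exact Nat.ModEq.eq_of_lt_of_lt h2 ha.1 hb.1
  · intro b hb
    rw [mem_filter, mem_range] at hb
    obtain ⟨z, hz1, hz2⟩ := Nat.chineseRemainder hcop b r
    have h3 : z % 2 ^ J = b % 2 ^ J := hz1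
    refine ⟨z % (2 ^ J * Q), ?_, ?_⟩
    · rw [mem_filter, mem_range]
      refine ⟨Nat.mod_lt _ (by positivity), ((Nat.mod_modEq z (2 ^ J * Q)).of_mul_left _).trans hz2, ?_⟩
      rw [← hA, Nat.mod_mul_right_mod, h3, Nat.mod_eq_of_lt hb.1]
      exact hb.2
    · rw [Nat.mod_mul_right_mod, h3, Nat.mod_eq_of_lt hb.1]

section
variable {Ψ : ℝ → ℝ} (hc : Continuous Ψ) (hp : ∀ t, Ψ (t + 1) = Ψ t) {M : ℝ} (hM : ∀ t, |Ψ t| ≤ M)
  (hL : LQ (fun _ => True) 1 Ψ)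
include hc hp hM hL

/-- uniformity over the unions of classes -/
theorem unif_union {q : ℕ} (hq : 1 ≤ q) (K : ℝ) {ε : ℝ} (hε : 0 < ε) : ∀ᶠ p in xg PT K, ∀ W ⊆ range q,
    |aZ (fun n => n % q ∈ W) p - W.card / q * Ψ (sv PT p)| ≤ ε := by
  have h : ∀ W ∈ (range q).powerset, ∀ᶠ p in xg PT K,
      |aZ (fun n => n % q ∈ W) p - W.card / q * Ψ (sv PT p)| ≤ ε := by
    intro W hW
    rw [mem_powerset] at hW
    have h1 := LQ_union (Ψ := Ψ) (q := q) (by omega) (t := 1 / (q : ℝ)) W hW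
      (fun r _ => mod_law hc hp hM hL hq r) K
    filter_upwards [(Metric.tendsto_nhds.1 h1) ε hε] with p hp'
    rw [Real.dist_eq, sub_zero] at hp'
    unfold aZ
    have e : (W.card : ℝ) / q = W.card * (1 / q) := by ring
    rw [e]
    exact hp'.le
  have h2 := (Filter.eventually_all_finset (range q).powerset).2 h
  filter_upwards [h2] with p hp' W hW
  exact hp' W (mem_powerset.2 hW)

/-- THE LAW OF THE DESCENT WORD inside the levels, in total variation -/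
theorem desc_level {Q : ℕ} (hQ : Odd Q) (r : ℕ) (K : ℝ) {ε : ℝ} (hε : 0 < ε) : ∀ᶠ p in xg PT K,
    ∀ S : Set (List ℕ), |aZ (fun n => n ≡ r [MOD Q] ∧ ∃ s, ST s n ∧ word s n ∈ S) p -
      (∑' s : ℕ, (zc S s : ℝ) / 2 ^ s) / Q * Ψ (sv PT p)| ≤ ε := by
  classical
  have hQ1 : (1 : ℝ) ≤ Q := by exact_mod_cast hQ.pos
  have hQ0 : 0 < Q := hQ.pos
  have hM0 : 0 ≤ M := (abs_nonneg _).trans (hM 0)
  obtain ⟨J0, hJ0⟩ := back_small K (ε := ε / 4) (by positivity)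
  have ht : Tendsto (fun J : ℕ => 2 * Pool.Agent.H499R2.ND.th ^ J * M) atTop (𝓝 0) := by
    have := th_tend.mul_const M
    simpa using this
  obtain ⟨J, hJ1, hJ2, hJ3⟩ := ((ht.eventually (gt_mem_nhds (show (0 : ℝ) < ε / 4 by positivity))).and
    ((eventually_ge_atTop J0).and (eventually_ge_atTop 1))).exists
  have hq : 1 ≤ 2 ^ J * Q := Nat.one_le_iff_ne_zero.2 (by positivity)
  filter_upwards [hJ0, const_small (4 ^ J) K (ε := ε / 4) (by positivity),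
    unif_union hc hp hM hL hq K (ε := ε / 4) (by positivity), gd_pos_ev K, xg_ge K 1] with p g1 g2 g3 g4 g5 S
  have hx : 0 < p.1 * gd PT p.1 p.2 := mul_pos (by linarith) g4
  set W : Finset ℕ := (range (2 ^ J * Q)).filter (fun c => c ≡ r [MOD Q] ∧ EJ S J c) with hW
  have g3' := g3 W (filter_subset _ _)
  have e1 : (fun n => n % (2 ^ J * Q) ∈ W) = fun n => n ≡ r [MOD Q] ∧ EJ S J n := by
    funext n
    rw [hW, mem_filter, mem_range]
    have h2 : n % (2 ^ J * Q) < 2 ^ J * Q := Nat.mod_lt _ (by positivity)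
    have h3 : n % (2 ^ J * Q) ≡ r [MOD Q] ↔ n ≡ r [MOD Q] := by
      have h4 : n % (2 ^ J * Q) ≡ n [MOD Q] := (Nat.mod_modEq n (2 ^ J * Q)).of_mul_left _
      exact ⟨fun h => h4.symm.trans h, fun h => h4.trans h⟩
    have h5 : EJ S J (n % (2 ^ J * Q)) ↔ EJ S J n := by
      rw [← EJ_mod S J (n % (2 ^ J * Q)), Nat.mod_mul_right_mod, EJ_mod]
    rw [h3, h5]
    simp [h2]
  have e2 : (W.card : ℝ) / ((2 ^ J * Q : ℕ) : ℝ) = (∑ s ∈ range (J + 1), (zc S s : ℝ) / 2 ^ s) / Q := by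
    rw [hW, crt_card hQ r J (EJ S J) (EJ_mod S J), ← EJ_card]
    push_cast
    rw [div_div]
  rw [e1, e2] at g3'
  -- comparison
  set A := {n : ℕ | 1 ≤ n ∧ (n : ℝ) ≤ p.1 ∧ (n ≡ r [MOD Q] ∧ EJ S J n) ∧ 0 ≤ p.2 ∧ H p.2.toNat n} with hA
  set B := {n : ℕ | 1 ≤ n ∧ (n : ℝ) ≤ p.1 ∧ (n ≡ r [MOD Q] ∧ ∃ s, ST s n ∧ word s n ∈ S) ∧ 0 ≤ p.2 ∧
    H p.2.toNat n} with hB
  set D := {n : ℕ | 1 ≤ n ∧ (n : ℝ) ≤ p.1 ∧ (∃ j, J0 ≤ j ∧ n ≤ Tn^[j] n) ∧ 0 ≤ p.2 ∧ H p.2.toNat n} with hD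
  have hAf : A.Finite := fin_cZ _ p
  have hBf : B.Finite := fin_cZ _ p
  have hDf : D.Finite := fin_cZ _ p
  set E : Set ℕ := ((Finset.range (4 ^ J) : Finset ℕ) : Set ℕ) with hE
  have hEf : E.Finite := Finset.finite_toSet _
  have hEc : E.ncard = 4 ^ J := by rw [hE, Set.ncard_coe_finset, Finset.card_range]
  have i1 : A ⊆ (B ∪ D) ∪ E := by
    rintro n ⟨a1, a2, ⟨a0, s, hs, a3, a3'⟩, a4, a5⟩
    by_cases hn : n < 4 ^ J
    · right
      rw [hE, Finset.mem_coe, Finset.mem_range]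
      exact hn
    · left; left
      exact ⟨a1, a2, ⟨a0, s, (CD_ST hs (by omega)).1 a3, a3'⟩, a4, a5⟩
  have i2 : B ⊆ (A ∪ D) ∪ E := by
    rintro n ⟨a1, a2, ⟨a0, s, a3, a3'⟩, a4, a5⟩
    by_cases hn : n < 4 ^ J
    · right
      rw [hE, Finset.mem_coe, Finset.mem_range]
      exact hn
    left
    rcases le_or_gt s J with hs | hs
    · left
      exact ⟨a1, a2, ⟨a0, s, hs, (CD_ST hs (by omega)).2 a3, a3'⟩, a4, a5⟩
    · right
      exact ⟨a1, a2, ⟨J, hJ2, a3.2 J hs⟩, a4, a5⟩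
  have c1 : A.ncard ≤ B.ncard + D.ncard + 4 ^ J := by
    refine (Set.ncard_le_ncard i1 ((hBf.union hDf).union hEf)).trans ?_
    refine (Set.ncard_union_le _ _).trans ?_
    exact add_le_add (Set.ncard_union_le _ _) hEc.le
  have c2 : B.ncard ≤ A.ncard + D.ncard + 4 ^ J := by
    refine (Set.ncard_le_ncard i2 ((hAf.union hDf).union hEf)).trans ?_
    refine (Set.ncard_union_le _ _).trans ?_
    exact add_le_add (Set.ncard_union_le _ _) hEc.le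
  have c1' : cZ (fun n => n ≡ r [MOD Q] ∧ EJ S J n) p ≤
      cZ (fun n => n ≡ r [MOD Q] ∧ ∃ s, ST s n ∧ word s n ∈ S) p +
      cZ (fun n => ∃ j, J0 ≤ j ∧ n ≤ Tn^[j] n) p + (4 : ℝ) ^ J := by
    unfold cZ
    exact_mod_cast c1
  have c2' : cZ (fun n => n ≡ r [MOD Q] ∧ ∃ s, ST s n ∧ word s n ∈ S) p ≤
      cZ (fun n => n ≡ r [MOD Q] ∧ EJ S J n) p +
      cZ (fun n => ∃ j, J0 ≤ j ∧ n ≤ Tn^[j] n) p + (4 : ℝ) ^ J := by
    unfold cZ
    exact_mod_cast c2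
  have d1 := div_le_div_of_nonneg_right c1' hx.le
  have d2 := div_le_div_of_nonneg_right c2' hx.le
  rw [add_div, add_div] at d1 d2
  have hΨ : |(∑ s ∈ range (J + 1), (zc S s : ℝ) / 2 ^ s) / Q * Ψ (sv PT p) -
      (∑' s : ℕ, (zc S s : ℝ) / 2 ^ s) / Q * Ψ (sv PT p)| ≤ ε / 4 := by
    rw [← sub_mul, ← sub_div, abs_mul, abs_div, abs_of_pos (by linarith : (0 : ℝ) < Q)]
    calc |(∑ s ∈ range (J + 1), (zc S s : ℝ) / 2 ^ s) - ∑' s : ℕ, (zc S s : ℝ) / 2 ^ s| / Q * |Ψ (sv PT p)|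
        ≤ 2 * Pool.Agent.H499R2.ND.th ^ J * M := by
          apply mul_le_mul _ (hM _) (abs_nonneg _) (by have := Pool.Agent.H499R2.ND.th_pos; positivity)
          exact (div_le_self (abs_nonneg _) hQ1).trans (z_tail S hJ3)
      _ ≤ ε / 4 := hJ1.le
  have g3'' := abs_le.1 g3'
  have hΨ' := abs_le.1 hΨ
  unfold aZ at g1 g3'' ⊢
  rw [abs_le]
  constructor <;> linarith [g3''.1, g3''.2, hΨ'.1, hΨ'.2]

end

/-- eventually, in elementary terms -/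
theorem xg_elem {Φ : ℝ × ℤ → Prop} {K : ℝ} (h : ∀ᶠ p in xg PT (K * lam), Φ p) : ∃ X₀ : ℝ, ∀ x : ℝ, X₀ ≤ x →
    ∀ k : ℕ, |(k : ℝ) - 2 / Real.log (4 / 3) * Real.log x| ≤ K * Real.sqrt (Real.log x) → Φ (x, ((k : ℕ) : ℤ)) := by
  have hlam := lam_pos
  unfold xg at h
  rw [Filter.eventually_inf_principal, Filter.eventually_comap] at h
  obtain ⟨X₀, hX₀⟩ := eventually_atTop.1 h
  refine ⟨max X₀ 2, fun x hx k hk => ?_⟩
  have hmem : |(((k : ℕ) : ℤ) : ℝ) * lam - A0 PT * Real.log x| ≤ K * lam * Real.sqrt (Real.log x) := by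
    have e : (((k : ℕ) : ℤ) : ℝ) * lam - A0 PT * Real.log x =
        ((k : ℝ) - 2 / Real.log (4 / 3) * Real.log x) * lam := by
      rw [A0_PT, ← lam_log]
      push_cast
      field_simp
    rw [e, abs_mul, abs_of_pos hlam]
    calc _ ≤ K * Real.sqrt (Real.log x) * lam := mul_le_mul_of_nonneg_right hk hlam.le
      _ = _ := by ring
  exact hX₀ x ((le_max_left _ _).trans hx) (x, ((k : ℕ) : ℤ)) rfl hmem

theorem cZ_elem (Q : ℕ → Prop) (x : ℝ) (k : ℕ) : cZ Q (x, ((k : ℕ) : ℤ)) =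
    ({n : ℕ | 1 ≤ n ∧ (n : ℝ) ≤ x ∧ Q n ∧ H k n}.ncard : ℝ) := by
  unfold cZ
  congr 2
  ext n
  rw [Set.mem_ofPred_eq, Set.mem_ofPred_eq]
  simp only [Int.toNat_natCast, Nat.cast_nonneg, true_and]

theorem gd_elem (x : ℝ) (k : ℕ) : gd PT x ((k : ℕ) : ℤ) =
    Real.exp (-(((k : ℝ) - 2 / Real.log (4 / 3) * Real.log x) ^ 2 /
        (2 * (2 * Real.log 3 ^ 2 / Real.log (4 / 3) ^ 3 * Real.log x)))) /
        Real.sqrt (2 * Real.pi * (2 * Real.log 3 ^ 2 / Real.log (4 / 3) ^ 3 * Real.log x)) := by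
  unfold gd
  rw [A0_PT, ww_PT, lam_log]
  push_cast
  rfl

theorem sv_elem {x : ℝ} (hx : 0 < x) (k : ℕ) : sv PT (x, ((k : ℕ) : ℤ)) = Real.logb 3 (x / 2 ^ k) := by
  unfold sv Real.logb
  rw [ww_PT, kap_PT, Real.log_div hx.ne' (by positivity), Real.log_pow]
  push_cast
  rfl

/-- THE LAW OF THE DESCENT WORD inside the levels -/
theorem main_desc : ∃ (δ : ℝ) (Ψ : ℝ → ℝ), 0 < δ ∧ δ ≤ 1 ∧
    (δ = 1 ↔ ∀ n : ℕ, 1 ≤ n → ∃ k : ℕ, Tn^[k] n = 1) ∧
    Dn (fun n => ∃ k : ℕ, Tn^[k] n = 1) δ ∧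
    Continuous Ψ ∧ (∀ t, Ψ (t + 1) = Ψ t) ∧
    (∀ t, δ * (Real.log 3 / 2) ≤ Ψ t ∧ Ψ t ≤ δ * (3 * Real.log 3 / 2)) ∧
    (∫ t in (0 : ℝ)..1, Ψ t = δ) ∧
    ∀ (Q r : ℕ), Odd Q → ∀ K ε : ℝ, 0 < ε → ∃ X₀ : ℝ, ∀ x : ℝ, X₀ ≤ x → ∀ k : ℕ,
      |(k : ℝ) - 2 / Real.log (4 / 3) * Real.log x| ≤ K * Real.sqrt (Real.log x) → ∀ S : Set (List ℕ),
      |({n : ℕ | 1 ≤ n ∧ (n : ℝ) ≤ x ∧ (n ≡ r [MOD Q] ∧ ∃ s, ST s n ∧ word s n ∈ S) ∧ H k n}.ncard : ℝ) /
        (x * (Real.exp (-(((k : ℝ) - 2 / Real.log (4 / 3) * Real.log x) ^ 2 /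
          (2 * (2 * Real.log 3 ^ 2 / Real.log (4 / 3) ^ 3 * Real.log x)))) /
          Real.sqrt (2 * Real.pi * (2 * Real.log 3 ^ 2 / Real.log (4 / 3) ^ 3 * Real.log x)))) -
        (∑' s : ℕ, (zc S s : ℝ) / 2 ^ s) / Q * Ψ (Real.logb 3 (x / 2 ^ k))| ≤ ε := by
  obtain ⟨δ, Ψ, M, h0, h0', h0'', h1, h2, h3, h4, h5, h6, h7, h8, h9, h10⟩ := base
  have hl3 : 0 < Real.log 3 := Real.log_pos (by norm_num)
  have hM : ∀ t, |Ψ t| ≤ M := fun t => by
    rw [abs_of_nonneg ((by positivity : 0 ≤ δ * (Real.log 3 / 2)).trans (h4 t).1)]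
    exact h6 t
  refine ⟨δ, Ψ, h0, h0', h0'', h1, h2, h3, h4, h5, fun Q r hQ K ε hε => ?_⟩
  obtain ⟨X₀, hX⟩ := xg_elem (desc_level h2 h3 hM h9 hQ r (K * lam) hε)
  refine ⟨max X₀ 1, fun x hx k hk S => ?_⟩
  have hx0 : 0 < x := lt_of_lt_of_le one_pos ((le_max_right _ _).trans hx)
  have g := hX x ((le_max_left _ _).trans hx) k hk S
  unfold aZ at g
  simp only at g
  rw [cZ_elem, gd_elem, sv_elem hx0] at g
  exact g

end Pool.Agent.R468.RC
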