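import Pool.Agent.R468.RC.S

/-!
Residue classes, part 18: the joint law of an integer and its maximum excursion inside the levels of the
total stopping time.
-/

set_option autoImplicit false

namespace Pool.Agent.R468.RC

open Filter Topology Finset
open Pool.Agent.R468.GL
open Pool.Agent.R468.LL (lam lam_eq lam_pos lam_lt)
open Pool.Agent.H499R2.LT
open Pool.Agent.H499R2.ND (Td Tn Dn AK rK iter_real er_le rK_ge)
open Pool.Agent.H499R2.HL
open Pool.Agent.Helper894.Collatz (er)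

/-! ### the peak -/

/-- the largest of the ratios `3^odds / 2^s`, `s ≤ J` -/
noncomputable def pk (J n : ℕ) : ℝ :=
  (range (J + 1)).sup' ⟨0, mem_range.2 (Nat.succ_pos J)⟩ (fun s => (3 : ℝ) ^ odn s n / 2 ^ s)

theorem le_pk {s J : ℕ} (h : s ≤ J) (n : ℕ) : (3 : ℝ) ^ odn s n / 2 ^ s ≤ pk J n :=
  Finset.le_sup' (fun s => (3 : ℝ) ^ odn s n / 2 ^ s) (mem_range.2 (by omega))

theorem pk_le {J n : ℕ} {a : ℝ} (h : ∀ s ≤ J, (3 : ℝ) ^ odn s n / 2 ^ s ≤ a) : pk J n ≤ a :=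
  Finset.sup'_le _ _ fun s hs => h s (by rw [mem_range] at hs; omega)

theorem one_le_pk (J n : ℕ) : 1 ≤ pk J n := by
  have := le_pk (Nat.zero_le J) n
  simpa [odn] using this

theorem pk_pos (J n : ℕ) : 0 < pk J n := lt_of_lt_of_le one_pos (one_le_pk J n)

theorem pk_mono {J J' : ℕ} (h : J ≤ J') (n : ℕ) : pk J n ≤ pk J' n :=
  pk_le fun _ hs => le_pk (hs.trans h) n

theorem pk_up (J n : ℕ) : pk J n ≤ (3 / 2) ^ J := by
  apply pk_le
  intro s hs
  calc (3 : ℝ) ^ odn s n / 2 ^ s ≤ 3 ^ s / 2 ^ s := by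
        apply div_le_div_of_nonneg_right _ (by positivity)
        exact pow_le_pow_right₀ (by norm_num) (odn_le s n)
    _ = (3 / 2) ^ s := by rw [div_pow]
    _ ≤ (3 / 2) ^ J := pow_le_pow_right₀ (by norm_num) hs

theorem pk_mod (J n : ℕ) : pk J (n % 2 ^ J) = pk J n := by
  apply le_antisymm
  · apply pk_le
    intro s hs
    rw [odn_modle hs]
    exact le_pk hs n
  · apply pk_le
    intro s hs
    rw [← odn_modle hs]
    exact le_pk hs _

/-- the peak changes at the time `J + 1` only if there are many odd terms -/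
theorem pk_step {J n : ℕ} (h : pk (J + 1) n ≠ pk J n) : (3 / 5 : ℝ) * (J + 1 : ℕ) ≤ (odn (J + 1) n : ℝ) := by
  by_contra hcon
  push Not at hcon
  apply h
  apply le_antisymm _ (pk_mono (Nat.le_succ J) n)
  apply pk_le
  intro s hs
  rcases Nat.lt_or_ge J s with h1 | h1
  · have e : s = J + 1 := by omega
    subst e
    have h2 : (3 : ℝ) ^ odn (J + 1) n ≤ 2 ^ (J + 1) := by
      have h3 : 5 * odn (J + 1) n ≤ 3 * (J + 1) := by
        have : (5 : ℝ) * odn (J + 1) n ≤ 3 * (J + 1 : ℕ) := by linarith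
        exact_mod_cast this
      have h4 : ((3 : ℝ) ^ odn (J + 1) n) ^ 5 ≤ (2 ^ (J + 1)) ^ 5 := by
        calc ((3 : ℝ) ^ odn (J + 1) n) ^ 5 = 3 ^ (5 * odn (J + 1) n) := by rw [← pow_mul]; ring_nf
          _ ≤ 3 ^ (3 * (J + 1)) := pow_le_pow_right₀ (by norm_num) h3
          _ = 27 ^ (J + 1) := by rw [pow_mul]; norm_num
          _ ≤ 32 ^ (J + 1) := pow_le_pow_left₀ (by norm_num) (by norm_num) _
          _ = (2 ^ (J + 1)) ^ 5 := by
            rw [show (32 : ℝ) = 2 ^ 5 by norm_num, ← pow_mul, ← pow_mul, mul_comm]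
      exact le_of_pow_le_pow_left₀ (by norm_num) (by positivity) h4
    have h5 : (3 : ℝ) ^ odn (J + 1) n / 2 ^ (J + 1) ≤ 1 := by
      rw [div_le_one (by positivity)]
      exact h2
    exact h5.trans (one_le_pk J n)
  · exact le_pk h1 n

/-- the terms in the first `J` steps -/
theorem it_pk {J j : ℕ} (hj : j ≤ J) (n : ℕ) : (3 : ℝ) ^ odn j n / 2 ^ j * n ≤ (Tn^[j] n : ℕ) ∧
    ((Tn^[j] n : ℕ) : ℝ) ≤ pk J n * n + (3 / 2) ^ J := by
  have h6 := iter_real j n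
  rw [od_odn'] at h6
  have h2 : (0 : ℝ) < 2 ^ j := by positivity
  have e : ((Tn^[j] n : ℕ) : ℝ) = 3 ^ odn j n / 2 ^ j * n + er j n / 2 ^ j := by
    field_simp
    linarith
  have h7 : (er j n : ℝ) / 2 ^ j ≤ (3 / 2) ^ J := by
    have h8 : er j n ≤ 3 ^ j := by
      have := er_le j n
      exact le_trans (Nat.le_add_right _ _) this
    have h9 : (er j n : ℝ) ≤ 3 ^ j := by exact_mod_cast h8
    calc (er j n : ℝ) / 2 ^ j ≤ 3 ^ j / 2 ^ j := div_le_div_of_nonneg_right h9 h2.le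
      _ = (3 / 2) ^ j := by rw [div_pow]
      _ ≤ (3 / 2) ^ J := pow_le_pow_right₀ (by norm_num) hj
  constructor
  · rw [e]
    have : (0 : ℝ) ≤ er j n / 2 ^ j := by positivity
    linarith
  · rw [e]
    have := mul_le_mul_of_nonneg_right (le_pk hj n) (Nat.cast_nonneg (α := ℝ) n)
    linarith

/-! ### the functions -/

/-- the share `min (1, lam / peak)` -/
noncomputable def sh (v : ℝ) (J n : ℕ) : ℝ := min 1 (v / pk J n)

/-- the mean of the shares -/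
noncomputable def kapJ (v : ℝ) (J : ℕ) : ℝ := (∑ c ∈ range (2 ^ J), sh v J c) / 2 ^ J

/-- the mean of the profiles -/
noncomputable def PhJ (Ψ : ℝ → ℝ) (v u : ℝ) (J : ℕ) : ℝ :=
  (∑ c ∈ range (2 ^ J), sh v J c * Ψ (u + Real.logb 3 (sh v J c))) / 2 ^ J

theorem sh_pos {v : ℝ} (hv : 1 ≤ v) (J n : ℕ) : 0 < sh v J n :=
  lt_min one_pos (div_pos (by linarith) (pk_pos J n))

theorem sh_le (v : ℝ) (J n : ℕ) : sh v J n ≤ 1 := min_le_left _ _

theorem sh_low {v : ℝ} (hv : 1 ≤ v) (J n : ℕ) : (2 / 3) ^ J ≤ sh v J n := by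
  apply le_min
  · exact pow_le_one₀ (by norm_num) (by norm_num)
  · rw [le_div_iff₀ (pk_pos J n)]
    calc (2 / 3 : ℝ) ^ J * pk J n ≤ (2 / 3) ^ J * (3 / 2) ^ J := mul_le_mul_of_nonneg_left (pk_up J n) (by positivity)
      _ = 1 := by rw [← mul_pow]; norm_num
      _ ≤ v := hv

theorem sh_mod (v : ℝ) (J n : ℕ) : sh v J (n % 2 ^ J) = sh v J n := by
  unfold sh
  rw [pk_mod]

/-- a sum over the residues modulo `2^(J+1)` of a function of the residue modulo `2^J` -/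
theorem sum_half (J : ℕ) (f : ℕ → ℝ) (hf : ∀ n, f (n % 2 ^ J) = f n) :
    (∑ c ∈ range (2 ^ (J + 1)), f c) / 2 ^ (J + 1) = (∑ c ∈ range (2 ^ J), f c) / 2 ^ J := by
  have e : (2 : ℕ) ^ (J + 1) = 2 ^ J + 2 ^ J := by ring
  have h1 : ∑ c ∈ range (2 ^ (J + 1)), f c = ∑ c ∈ range (2 ^ J), f c + ∑ c ∈ range (2 ^ J), f (2 ^ J + c) := by
    rw [e, Finset.sum_range_add]
  have h2 : ∑ c ∈ range (2 ^ J), f (2 ^ J + c) = ∑ c ∈ range (2 ^ J), f c := by
    apply Finset.sum_congr rfl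
    intro c _
    rw [← hf (2 ^ J + c), Nat.add_mod_left, hf]
  rw [h1, h2, pow_succ]
  field_simp
  ring

/-- one step of a mean of a function of the peak -/
theorem mean_step {ρ : ℝ} (hW : ∀ j : ℕ, ((Wj j).card : ℝ) ≤ 2 * 2 ^ j * ρ ^ j) {M : ℝ} (J : ℕ) (F : ℝ → ℝ)
    (hF : ∀ t, 1 ≤ t → |F t| ≤ M) :
    |(∑ c ∈ range (2 ^ (J + 1)), F (pk (J + 1) c)) / 2 ^ (J + 1) - (∑ c ∈ range (2 ^ J), F (pk J c)) / 2 ^ J| ≤
      4 * M * ρ ^ (J + 1) := by
  classical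
  have hM : 0 ≤ M := (abs_nonneg _).trans (hF 1 le_rfl)
  rw [← sum_half J (fun c => F (pk J c)) (fun n => by simp only [pk_mod]), ← sub_div, ← Finset.sum_sub_distrib, abs_div,
    abs_of_pos (by positivity : (0 : ℝ) < 2 ^ (J + 1)), div_le_iff₀ (by positivity)]
  refine (Finset.abs_sum_le_sum_abs _ _).trans ?_
  have h1 : ∑ c ∈ range (2 ^ (J + 1)), |F (pk (J + 1) c) - F (pk J c)| ≤ ∑ c ∈ Wj (J + 1), 2 * M := by
    have hsub : Wj (J + 1) ⊆ range (2 ^ (J + 1)) := filter_subset _ _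
    rw [← Finset.sum_subset hsub]
    · apply Finset.sum_le_sum
      intro c _
      have h2 := hF _ (one_le_pk (J + 1) c)
      have h3 := hF _ (one_le_pk J c)
      have := abs_sub (F (pk (J + 1) c)) (F (pk J c))
      linarith
    · intro c hc hcW
      by_cases h : pk (J + 1) c = pk J c
      · rw [h, sub_self, abs_zero]
      · exfalso
        apply hcW
        unfold Wj
        rw [mem_filter]
        exact ⟨hc, pk_step h⟩
  refine h1.trans ?_
  rw [Finset.sum_const, nsmul_eq_mul]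
  calc ((Wj (J + 1)).card : ℝ) * (2 * M) ≤ 2 * 2 ^ (J + 1) * ρ ^ (J + 1) * (2 * M) :=
        mul_le_mul_of_nonneg_right (hW (J + 1)) (by positivity)
    _ = 4 * M * ρ ^ (J + 1) * 2 ^ (J + 1) := by ring

/-- the limit of such means -/
theorem mean_lim {ρ : ℝ} (hρ0 : 0 < ρ) (hρ1 : ρ < 1) (hW : ∀ j : ℕ, ((Wj j).card : ℝ) ≤ 2 * 2 ^ j * ρ ^ j) {M : ℝ}
    (F : ℝ → ℝ) (hF : ∀ t, 1 ≤ t → |F t| ≤ M) :
    ∃ L : ℝ, Tendsto (fun J : ℕ => (∑ c ∈ range (2 ^ J), F (pk J c)) / 2 ^ J) atTop (𝓝 L) ∧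
      ∀ J : ℕ, |(∑ c ∈ range (2 ^ J), F (pk J c)) / 2 ^ J - L| ≤ 4 * M * ρ * ρ ^ J / (1 - ρ) := by
  set f : ℕ → ℝ := fun J => (∑ c ∈ range (2 ^ J), F (pk J c)) / 2 ^ J with hf
  have hd : ∀ n, dist (f n) (f (n + 1)) ≤ 4 * M * ρ * ρ ^ n := by
    intro n
    rw [dist_comm, Real.dist_eq]
    refine (mean_step hW n F hF).trans (le_of_eq ?_)
    ring
  have hc := cauchySeq_of_le_geometric ρ (4 * M * ρ) hρ1 hd
  obtain ⟨L, hL⟩ := cauchySeq_tendsto_of_complete hc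
  refine ⟨L, hL, fun J => ?_⟩
  have := dist_le_of_le_geometric_of_tendsto ρ (4 * M * ρ) hρ1 hd hL J
  rwa [Real.dist_eq] at this

end Pool.Agent.R468.RC
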