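import Pool.Agent.R468.RC.T

/-!
Residue classes, part 19: the joint law of an integer and its maximum excursion, the count.
-/

set_option autoImplicit false

namespace Pool.Agent.R468.RC

open Filter Topology Finset
open Pool.Agent.R468.GL
open Pool.Agent.R468.LL (lam lam_eq lam_pos lam_lt)
open Pool.Agent.H499R2.LT
open Pool.Agent.H499R2.ND (Td Tn Dn)
open Pool.Agent.H499R2.HL

/-- scaling the argument by a variable factor -/
theorem LQ_scale {Q : ℕ → Prop} {t : ℝ} {Ψ : ℝ → ℝ} (h : LQ Q t Ψ) {M : ℝ} (hM : ∀ t, |Ψ t| ≤ M)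
    {a : ℝ × ℤ → ℝ} {a0 : ℝ} (ha0 : 0 < a0) (ha : ∀ p, a0 ≤ a p ∧ a p ≤ 1) (K : ℝ) :
    Tendsto (fun p : ℝ × ℤ => cZ Q (a p * p.1, p.2) / (p.1 * gd PT p.1 p.2) -
      t * (a p * Ψ (sv PT p + Real.logb 3 (a p)))) (xg PT K) (𝓝 0) := by
  set φ : ℝ × ℤ → ℝ × ℤ := fun p => (a p * p.1, p.2) with hφ
  have h1 : ∀ᶠ p : ℝ × ℤ in xg PT K, 0 < (φ p).1 ∧ |Real.log (φ p).1 - Real.log p.1| ≤ -Real.log a0 := by
    filter_upwards [xg_ge K 1] with p hp
    have hap : 0 < a p := ha0.trans_le (ha p).1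
    have hx : 0 < p.1 := by linarith
    refine ⟨mul_pos hap hx, ?_⟩
    rw [hφ]
    simp only
    rw [Real.log_mul hap.ne' hx.ne', add_sub_cancel_right]
    have h2 : Real.log a0 ≤ Real.log (a p) := Real.log_le_log ha0 (ha p).1
    have h3 : Real.log (a p) ≤ 0 := Real.log_nonpos hap.le (ha p).2
    rw [abs_of_nonpos h3]
    linarith
  have h2 : ∀ᶠ p : ℝ × ℤ in xg PT K, |((φ p).2 : ℝ) - p.2| ≤ 0 := Eventually.of_forall fun p => by simp [hφ]
  have hR := mv_gd PT h1 h2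
  have hX := (h (2 * |K| + 1)).comp (mv_xg PT h1 h2)
  have hM0 : 0 ≤ M := (abs_nonneg _).trans (hM 0)
  -- the limit of the bracket
  have hB : Tendsto (fun p : ℝ × ℤ => (cZ Q (φ p) / ((φ p).1 * gd PT (φ p).1 (φ p).2) - t * Ψ (sv PT (φ p))) *
      (gd PT (φ p).1 (φ p).2 / gd PT p.1 p.2) +
      t * Ψ (sv PT (φ p)) * (gd PT (φ p).1 (φ p).2 / gd PT p.1 p.2 - 1)) (xg PT K) (𝓝 0) := by
    have h3 := hX.mul hR
    simp only [Function.comp, zero_mul] at h3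
    have h4 : Tendsto (fun p : ℝ × ℤ => t * Ψ (sv PT (φ p)) * (gd PT (φ p).1 (φ p).2 / gd PT p.1 p.2 - 1))
        (xg PT K) (𝓝 0) := by
      have h5 := ((hR.sub_const 1).abs).const_mul (|t| * M)
      rw [sub_self, abs_zero, mul_zero] at h5
      refine squeeze_zero_norm (fun p => ?_) h5
      rw [Real.norm_eq_abs, abs_mul, abs_mul]
      exact mul_le_mul_of_nonneg_right (mul_le_mul_of_nonneg_left (hM _) (abs_nonneg _)) (abs_nonneg _)
    have := h3.add h4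
    rwa [add_zero] at this
  have hB' := hB.norm
  rw [norm_zero] at hB'
  refine squeeze_zero_norm' ?_ hB'
  filter_upwards [gd_pos_ev K, xg_ge K 1, (mv_log PT h1).eventually (eventually_gt_atTop 0)] with p g1 g2 g3
  have hap : 0 < a p := ha0.trans_le (ha p).1
  have hx : 0 < p.1 := by linarith
  have hg' : 0 < gd PT (φ p).1 (φ p).2 := gd_pos PT g3 _
  have hsv : sv PT (φ p) = sv PT p + Real.logb 3 (a p) := by
    unfold sv Real.logb
    rw [ww_PT, hφ]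
    simp only
    rw [Real.log_mul hap.ne' hx.ne']
    ring
  rw [hsv]
  have e : cZ Q (a p * p.1, p.2) / (p.1 * gd PT p.1 p.2) - t * (a p * Ψ (sv PT p + Real.logb 3 (a p))) =
      a p * ((cZ Q (φ p) / ((φ p).1 * gd PT (φ p).1 (φ p).2) - t * Ψ (sv PT p + Real.logb 3 (a p))) *
      (gd PT (φ p).1 (φ p).2 / gd PT p.1 p.2) +
      t * Ψ (sv PT p + Real.logb 3 (a p)) * (gd PT (φ p).1 (φ p).2 / gd PT p.1 p.2 - 1)) := by
    have e1 : (φ p).1 = a p * p.1 := rfl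
    have e2 : cZ Q (φ p) = cZ Q (a p * p.1, p.2) := rfl
    rw [e2]
    generalize cZ Q (a p * p.1, p.2) = N
    generalize gd PT (φ p).1 (φ p).2 = g at hg' ⊢
    rw [e1]
    field_simp
    ring
  rw [e, norm_mul, Real.norm_of_nonneg hap.le]
  exact mul_le_of_le_one_left (norm_nonneg _) (ha p).2

/-- the count as the cardinality of a finite set -/
theorem cZ_card (Q : ℕ → Prop) {a x : ℝ} (hx : 0 ≤ x) (ha : a ≤ 1) (k : ℤ) (W : Finset ℕ)
    (hW : ∀ n : ℕ, n ∈ W ↔ n ∈ Icc 1 ⌊x⌋₊ ∧ (n : ℝ) ≤ a * x ∧ Q n ∧ 0 ≤ k ∧ H k.toNat n) :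
    cZ Q (a * x, k) = (W.card : ℝ) := by
  unfold cZ
  rw [← Set.ncard_coe_finset]
  congr 2
  ext n
  rw [Set.mem_ofPred_eq, Finset.mem_coe, hW, mem_Icc]
  constructor
  · rintro ⟨h1, h2, h3⟩
    refine ⟨⟨h1, Nat.le_floor (h2.trans ?_)⟩, h2, h3⟩
    exact mul_le_of_le_one_left hx ha
  · rintro ⟨⟨h1, _⟩, h2, h3⟩
    exact ⟨h1, h2, h3⟩

section
variable {Ψ : ℝ → ℝ} (hc : Continuous Ψ) (hp : ∀ t, Ψ (t + 1) = Ψ t) {M : ℝ} (hM : ∀ t, |Ψ t| ≤ M)
  (hL : LQ (fun _ => True) 1 Ψ)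
include hc hp hM hL

/-- the law of the truncated levels, `J` steps -/
theorem U_law {Q : ℕ} (hQ : Odd Q) (r J : ℕ) {v : ℝ × ℤ → ℝ} (hv : ∀ p, 1 ≤ v p) (K : ℝ) :
    Tendsto (fun p : ℝ × ℤ => cZ (fun n => (n : ℝ) ≤ sh (v p) J n * p.1 ∧ n ≡ r [MOD Q]) p / (p.1 * gd PT p.1 p.2) -
      PhJ Ψ (v p) (sv PT p) J / Q) (xg PT K) (𝓝 0) := by
  classical
  have hQ0 : 0 < Q := hQ.pos
  have hQR : (0 : ℝ) < Q := by exact_mod_cast hQ0
  have hcop : Nat.Coprime (2 ^ J) Q := (Nat.coprime_two_left.2 hQ).pow_left J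
  set rc : ℕ → ℕ := fun c => (Nat.chineseRemainder hcop c r : ℕ) with hrc
  have hrc1 : ∀ c n : ℕ, n ≡ rc c [MOD 2 ^ J * Q] ↔ n ≡ c [MOD 2 ^ J] ∧ n ≡ r [MOD Q] := by
    intro c n
    have h1 := (Nat.chineseRemainder hcop c r).2
    rw [← Nat.modEq_and_modEq_iff_modEq_mul hcop]
    constructor
    · rintro ⟨h2, h3⟩
      exact ⟨h2.trans h1.1, h3.trans h1.2⟩
    · rintro ⟨h2, h3⟩
      exact ⟨h2.trans h1.1.symm, h3.trans h1.2.symm⟩
  have hlaw : ∀ c ∈ range (2 ^ J), Tendsto (fun p : ℝ × ℤ =>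
      cZ (fun n => n ≡ rc c [MOD 2 ^ J * Q]) (sh (v p) J c * p.1, p.2) / (p.1 * gd PT p.1 p.2) -
      1 / ((2 ^ J * Q : ℕ) : ℝ) * (sh (v p) J c * Ψ (sv PT p + Real.logb 3 (sh (v p) J c)))) (xg PT K) (𝓝 0) := by
    intro c _
    exact LQ_scale (mod_law hc hp hM hL (q := 2 ^ J * Q) (Nat.one_le_iff_ne_zero.2 (by positivity)) (rc c)) hM
      (a := fun p => sh (v p) J c) (a0 := (2 / 3) ^ J) (by positivity) (fun p => ⟨sh_low (hv p) J c, sh_le _ _ _⟩) K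
  have hsum := tendsto_finsetSum (range (2 ^ J)) hlaw
  rw [Finset.sum_const_zero] at hsum
  refine hsum.congr' ?_
  filter_upwards [xg_ge K 1] with p g1
  have hx : 0 ≤ p.1 := by linarith
  rw [Finset.sum_sub_distrib, ← Finset.sum_div, ← Finset.mul_sum]
  have e1 : ∑ c ∈ range (2 ^ J), cZ (fun n => n ≡ rc c [MOD 2 ^ J * Q]) (sh (v p) J c * p.1, p.2) =
      cZ (fun n => (n : ℝ) ≤ sh (v p) J n * p.1 ∧ n ≡ r [MOD Q]) p := by
    set W := (Icc 1 ⌊p.1⌋₊).filter (fun n : ℕ => (n : ℝ) ≤ p.1 ∧ ((n : ℝ) ≤ sh (v p) J n * p.1 ∧ n ≡ r [MOD Q]) ∧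
      0 ≤ p.2 ∧ H p.2.toNat n) with hW
    have e2 := cZ_card (fun n => (n : ℝ) ≤ sh (v p) J n * p.1 ∧ n ≡ r [MOD Q]) hx (le_refl (1 : ℝ)) p.2 W
      (fun n => by rw [hW, mem_filter, one_mul])
    rw [one_mul] at e2
    have e3 : cZ (fun n => (n : ℝ) ≤ sh (v p) J n * p.1 ∧ n ≡ r [MOD Q]) p =
      cZ (fun n => (n : ℝ) ≤ sh (v p) J n * p.1 ∧ n ≡ r [MOD Q]) (p.1, p.2) := rfl
    rw [e3, e2]
    have h3 : W.card = ∑ c ∈ range (2 ^ J), (W.filter (fun n => n % 2 ^ J = c)).card :=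
      Finset.card_eq_sum_card_fiberwise (fun n _ => Finset.mem_coe.2 (mem_range.2 (Nat.mod_lt _ (by positivity))))
    rw [h3]
    push_cast
    apply Finset.sum_congr rfl
    intro c hc'
    rw [mem_range] at hc'
    apply cZ_card _ hx (sh_le _ _ _) p.2
    intro n
    rw [mem_filter, hW, mem_filter, hrc1]
    have h5 : n % 2 ^ J = c ↔ n ≡ c [MOD 2 ^ J] := by
      unfold Nat.ModEq
      rw [Nat.mod_eq_of_lt hc']
    have h6 : n % 2 ^ J = c → sh (v p) J n = sh (v p) J c := by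
      intro h
      rw [← sh_mod (v p) J n, h]
    have h7 : sh (v p) J c * p.1 ≤ p.1 := mul_le_of_le_one_left hx (sh_le _ _ _)
    constructor
    · rintro ⟨⟨q1, _, ⟨q3, q4⟩, q5⟩, q6⟩
      rw [h6 q6] at q3
      exact ⟨q1, q3, ⟨h5.1 q6, q4⟩, q5⟩
    · rintro ⟨q1, q2, ⟨q3, q4⟩, q5⟩
      have q3' := h5.2 q3
      exact ⟨⟨q1, q2.trans h7, ⟨by rw [h6 q3']; exact q2, q4⟩, q5⟩, q3'⟩
  rw [e1]
  congr 1
  unfold PhJ
  push_cast
  field_simp

/-- THE JOINT LAW in the levels -/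
theorem joint_level {Q : ℕ} (hQ : Odd Q) (r : ℕ) {Φ : ℝ → ℝ → ℝ} {C ρ : ℝ} (hρ0 : 0 < ρ) (hρ1 : ρ < 1)
    (hΦ : ∀ v : ℝ, 1 ≤ v → ∀ (u : ℝ) (J : ℕ), |PhJ Ψ v u J - Φ v u| ≤ C * ρ ^ J)
    {v : ℝ × ℤ → ℝ} (hv : ∀ p, 1 ≤ v p) (K : ℝ) :
    Tendsto (fun p : ℝ × ℤ => cZ (fun n => (∀ j, ((Tn^[j] n : ℕ) : ℝ) ≤ v p * p.1) ∧ n ≡ r [MOD Q]) p /
      (p.1 * gd PT p.1 p.2) - Φ (v p) (sv PT p) / Q) (xg PT K) (𝓝 0) := by
  classical
  have hQ1 : (1 : ℝ) ≤ Q := by exact_mod_cast hQ.pos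
  rw [Metric.tendsto_nhds]
  intro ε hε
  obtain ⟨J0, hJ0⟩ := back_small K (ε := ε / 8) (by positivity)
  have hq1 : Tendsto (fun J : ℕ => C * ρ ^ J) atTop (𝓝 0) := by
    have := (tendsto_pow_atTop_nhds_zero_of_lt_one hρ0.le hρ1).const_mul C
    rwa [mul_zero] at this
  obtain ⟨J, hJ2, hJ1⟩ := ((hq1.eventually (gt_mem_nhds (show (0 : ℝ) < ε / 8 by positivity))).and
    (eventually_ge_atTop J0)).exists
  set L : ℕ := ⌈((3 : ℝ) / 2) ^ J⌉₊ with hLdef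
  filter_upwards [hJ0, const_small ((2 ^ J * L : ℕ) : ℝ) K (ε := ε / 8) (by positivity),
    (Metric.tendsto_nhds.1 (U_law hc hp hM hL hQ r J hv K)) (ε / 8) (by positivity), gd_pos_ev K, xg_ge K 1]
    with p g1 g2 g3 g4 g5
  have hx0 : 0 < p.1 := by linarith
  have hx : 0 < p.1 * gd PT p.1 p.2 := mul_pos hx0 g4
  have hvp := hv p
  set w := v p with hw
  set B := (Icc 1 ⌊p.1⌋₊).filter (fun n : ℕ => (n : ℝ) ≤ p.1 ∧ ((∀ j, ((Tn^[j] n : ℕ) : ℝ) ≤ w * p.1) ∧ n ≡ r [MOD Q]) ∧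
      0 ≤ p.2 ∧ H p.2.toNat n) with hB
  set U := (Icc 1 ⌊p.1⌋₊).filter (fun n : ℕ => (n : ℝ) ≤ p.1 ∧ ((n : ℝ) ≤ sh w J n * p.1 ∧ n ≡ r [MOD Q]) ∧
      0 ≤ p.2 ∧ H p.2.toNat n) with hU
  set D := (Icc 1 ⌊p.1⌋₊).filter (fun n : ℕ => (n : ℝ) ≤ p.1 ∧ (∃ j, J0 ≤ j ∧ n ≤ Tn^[j] n) ∧
      0 ≤ p.2 ∧ H p.2.toNat n) with hD
  set E := (Icc 1 ⌊p.1⌋₊).filter (fun n : ℕ => (n : ℝ) ≤ w * p.1 / pk J n ∧ w * p.1 < pk J n * n + (3 / 2) ^ J) with hE
  have eB := cZ_card (fun n => (∀ j, ((Tn^[j] n : ℕ) : ℝ) ≤ w * p.1) ∧ n ≡ r [MOD Q]) hx0.le (le_refl (1 : ℝ)) p.2 B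
    (fun n => by rw [hB, mem_filter, one_mul])
  have eU := cZ_card (fun n => (n : ℝ) ≤ sh w J n * p.1 ∧ n ≡ r [MOD Q]) hx0.le (le_refl (1 : ℝ)) p.2 U
    (fun n => by rw [hU, mem_filter, one_mul])
  have eD := cZ_card (fun n => ∃ j, J0 ≤ j ∧ n ≤ Tn^[j] n) hx0.le (le_refl (1 : ℝ)) p.2 D
    (fun n => by rw [hD, mem_filter, one_mul])
  rw [one_mul] at eB eU eD
  have i1 : B ⊆ U := by
    intro n hn
    rw [hB, mem_filter] at hn
    obtain ⟨h1, h2, ⟨h3, h4⟩, h5⟩ := hn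
    rw [hU, mem_filter]
    refine ⟨h1, h2, ⟨?_, h4⟩, h5⟩
    unfold sh
    rw [min_mul_of_nonneg _ _ hx0.le, one_mul]
    apply le_min h2
    have h6 : pk J n ≤ w * p.1 / n := by
      have hn0 : (0 : ℝ) < n := by
        rw [mem_Icc] at h1
        exact_mod_cast (by omega : 0 < n)
      apply pk_le
      intro s hs
      rw [le_div_iff₀ hn0]
      exact (it_pk hs n).1.trans (h3 s)
    have hn0 : (0 : ℝ) < n := by
      rw [mem_Icc] at h1
      exact_mod_cast (by omega : 0 < n)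
    rw [le_div_iff₀ hn0] at h6
    rw [div_mul_eq_mul_div, le_div_iff₀ (pk_pos J n)]
    linarith
  have i2 : U ⊆ (B ∪ D) ∪ E := by
    intro n hn
    rw [hU, mem_filter] at hn
    obtain ⟨h1, h2, ⟨h3, h4⟩, h5⟩ := hn
    rw [mem_union, mem_union]
    have h3' : (n : ℝ) ≤ w * p.1 / pk J n := by
      refine h3.trans ?_
      unfold sh
      rw [min_mul_of_nonneg _ _ hx0.le, one_mul]
      refine (min_le_right _ _).trans (le_of_eq ?_)
      rw [div_mul_eq_mul_div]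
    by_cases he : w * p.1 < pk J n * n + (3 / 2) ^ J
    · right
      rw [hE, mem_filter]
      exact ⟨h1, h3', he⟩
    left
    by_cases hd : ∃ j, J0 ≤ j ∧ n ≤ Tn^[j] n
    · right
      rw [hD, mem_filter]
      exact ⟨h1, h2, hd, h5⟩
    left
    rw [hB, mem_filter]
    refine ⟨h1, h2, ⟨fun j => ?_, h4⟩, h5⟩
    by_contra hj
    push Not at hj
    have hle : n ≤ Tn^[j] n := by
      have h6 : (n : ℝ) ≤ w * p.1 := by nlinarith
      have h7 : (n : ℝ) < ((Tn^[j] n : ℕ) : ℝ) := by linarith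
      exact_mod_cast h7.le
    have hjJ : j < J0 := by
      by_contra hcon
      exact hd ⟨j, by omega, hle⟩
    have h8 := (it_pk (show j ≤ J by omega) n).2
    linarith
  have cE : E.card ≤ 2 ^ J * L := by
    have h1 : E.card ≤ (range (2 ^ J) ×ˢ range L).card := by
      apply Finset.card_le_card_of_injOn (fun n => (n % 2 ^ J, ⌊w * p.1 / pk J n⌋₊ - n))
      · intro n hn
        rw [Finset.mem_coe, hE, mem_filter] at hn
        obtain ⟨_, h2, h3⟩ := hn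
        rw [Finset.mem_coe, mem_product, mem_range, mem_range]
        refine ⟨Nat.mod_lt _ (by positivity), ?_⟩
        simp only
        have h4 : n ≤ ⌊w * p.1 / pk J n⌋₊ := Nat.le_floor h2
        have h5 : ((⌊w * p.1 / pk J n⌋₊ - n : ℕ) : ℝ) < (3 / 2) ^ J := by
          rw [Nat.cast_sub h4]
          have h6 : ((⌊w * p.1 / pk J n⌋₊ : ℕ) : ℝ) ≤ w * p.1 / pk J n := Nat.floor_le (by
            have := pk_pos J n
            positivity)
          have h7 : w * p.1 / pk J n < n + (3 / 2) ^ J := by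
            rw [div_lt_iff₀ (pk_pos J n)]
            have h8 : (3 / 2 : ℝ) ^ J ≤ (3 / 2) ^ J * pk J n := le_mul_of_one_le_right (by positivity) (one_le_pk J n)
            nlinarith
          linarith
        have h9 : ((⌊w * p.1 / pk J n⌋₊ - n : ℕ) : ℝ) < (L : ℝ) := h5.trans_le (Nat.le_ceil _)
        exact_mod_cast h9
      · intro n hn n' hn' he
        rw [Finset.mem_coe, hE, mem_filter] at hn hn'
        simp only [Prod.mk.injEq] at he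
        obtain ⟨e1, e2⟩ := he
        have e3 : pk J n = pk J n' := by rw [← pk_mod J n, ← pk_mod J n', e1]
        have h4 : n ≤ ⌊w * p.1 / pk J n⌋₊ := Nat.le_floor hn.2.1
        have h4' : n' ≤ ⌊w * p.1 / pk J n'⌋₊ := Nat.le_floor hn'.2.1
        rw [e3] at h4 e2
        omega
    rwa [Finset.card_product, Finset.card_range, Finset.card_range] at h1
  have c1 : (B.card : ℝ) ≤ U.card := by exact_mod_cast Finset.card_le_card i1
  have c2 : (U.card : ℝ) ≤ B.card + D.card + ((2 ^ J * L : ℕ) : ℝ) := by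
    have h1 : U.card ≤ B.card + D.card + 2 ^ J * L := by
      refine (Finset.card_le_card i2).trans ?_
      refine (Finset.card_union_le _ _).trans ?_
      exact add_le_add (Finset.card_union_le _ _) cE
    exact_mod_cast h1
  have d1 := div_le_div_of_nonneg_right c1 hx.le
  have d2 := div_le_div_of_nonneg_right c2 hx.le
  rw [add_div, add_div] at d2
  unfold aZ at g1
  rw [← eB, ← eU] at d1
  rw [← eB, ← eU, ← eD] at d2
  have e4 : ∀ Q' : ℕ → Prop, cZ Q' (p.1, p.2) = cZ Q' p := fun _ => rfl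
  rw [e4, e4] at d1
  rw [e4, e4, e4] at d2
  rw [Real.dist_eq, sub_zero] at g3 ⊢
  have g3' := abs_lt.1 g3
  have hΨ : |PhJ Ψ w (sv PT p) J / Q - Φ w (sv PT p) / Q| ≤ ε / 8 := by
    rw [← sub_div, abs_div, abs_of_pos (by linarith : (0 : ℝ) < Q)]
    refine (div_le_self (abs_nonneg _) hQ1).trans ?_
    exact (hΦ w hvp _ J).trans hJ2.le
  have hΨ' := abs_le.1 hΨ
  rw [abs_lt]
  constructor <;> linarith [g3'.1, g3'.2, hΨ'.1, hΨ'.2]

end

end Pool.Agent.R468.RC
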