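import Pool.Agent.R468.RC.U

/-!
Residue classes, part 20: the joint law of an integer and its maximum excursion inside the levels, final form.
-/

set_option autoImplicit false

namespace Pool.Agent.R468.RC

open Filter Topology Finset
open Pool.Agent.R468.GL
open Pool.Agent.R468.LL (lam lam_eq lam_pos lam_lt)
open Pool.Agent.H499R2.LT
open Pool.Agent.H499R2.ND (Td Tn Dn AK rK rK_ge)
open Pool.Agent.H499R2.HL

/-- the summand as a function of the peak -/
noncomputable def Ff (Ψ : ℝ → ℝ) (v u t : ℝ) : ℝ := min 1 (v / t) * Ψ (u + Real.logb 3 (min 1 (v / t)))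

theorem Ff_le {Ψ : ℝ → ℝ} {M : ℝ} (hM : ∀ t, |Ψ t| ≤ M) {v : ℝ} (hv : 1 ≤ v) (u : ℝ) {t : ℝ} (ht : 1 ≤ t) :
    |Ff Ψ v u t| ≤ M := by
  unfold Ff
  have h1 : 0 ≤ min 1 (v / t) := le_min zero_le_one (div_nonneg (by linarith) (by linarith))
  rw [abs_mul, abs_of_nonneg h1]
  calc min 1 (v / t) * |Ψ (u + Real.logb 3 (min 1 (v / t)))| ≤ 1 * M :=
        mul_le_mul (min_le_left _ _) (hM _) (abs_nonneg _) zero_le_one
    _ = M := one_mul M

theorem AK_pk {J : ℕ} {v : ℝ} (hv : 1 ≤ v) {n : ℕ} (h : AK J v n) : pk J n ≤ v := by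
  apply pk_le
  intro s hs
  rcases Nat.eq_zero_or_pos s with h0 | h0
  · subst h0
    simp [odn, hv]
  · have h1 := h s h0 hs
    rw [od_odn'] at h1
    rw [div_le_iff₀ (by positivity)]
    exact h1.le

theorem kapJ_low {v w b : ℝ} (hv : 1 ≤ v) (hw : 1 ≤ w) (hb : b ≤ min 1 (v / w)) (hb0 : 0 ≤ b) (J : ℕ) :
    b * (1 - 1 / w) ≤ kapJ v J := by
  classical
  have h1 := rK_ge (by linarith : (0 : ℝ) < w) J
  have h2 : b * rK J w ≤ kapJ v J := by
    unfold rK kapJ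
    rw [mul_div_assoc']
    apply div_le_div_of_nonneg_right _ (by positivity)
    rw [mul_comm, ← nsmul_eq_mul, ← Finset.sum_const]
    refine le_trans (Finset.sum_le_sum (f := fun _ => b) (g := fun c => sh v J c) ?_) ?_
    · intro c hc
      rw [mem_filter] at hc
      have h3 := AK_pk hw hc.2
      unfold sh
      refine hb.trans (min_le_min le_rfl ?_)
      exact div_le_div_of_nonneg_left (by linarith) (pk_pos J c) h3
    · exact Finset.sum_le_sum_of_subset_of_nonneg (filter_subset _ _) fun c _ _ => (sh_pos hv J c).le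
  exact (mul_le_mul_of_nonneg_left h1 hb0).trans h2

theorem kapJ_up (v : ℝ) (J : ℕ) : kapJ v J ≤ 1 := by
  unfold kapJ
  rw [div_le_one (by positivity)]
  calc ∑ c ∈ range (2 ^ J), sh v J c ≤ ∑ c ∈ range (2 ^ J), (1 : ℝ) := Finset.sum_le_sum fun c _ => sh_le _ _ _
    _ = 2 ^ J := by simp

theorem int_shift {Ψ : ℝ → ℝ} (hp : ∀ t, Ψ (t + 1) = Ψ t) (a : ℝ) :
    ∫ u in (0 : ℝ)..1, Ψ (u + a) = ∫ u in (0 : ℝ)..1, Ψ u := by
  rw [intervalIntegral.integral_comp_add_right (fun u => Ψ u) a]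
  have hper : Function.Periodic Ψ 1 := hp
  have := hper.intervalIntegral_add_eq (0 + a) 0
  rw [zero_add] at this
  rw [zero_add, add_comm 1 a]
  rw [this, zero_add]

/-- THE JOINT LAW OF `n` AND `t(n)` inside the levels of the total stopping time -/
theorem main_joint : ∃ (δ : ℝ) (Ψ κ : ℝ → ℝ) (Φ : ℝ → ℝ → ℝ), 0 < δ ∧ δ ≤ 1 ∧
    (δ = 1 ↔ ∀ n : ℕ, 1 ≤ n → ∃ k : ℕ, Tn^[k] n = 1) ∧
    Dn (fun n => ∃ k : ℕ, Tn^[k] n = 1) δ ∧
    Continuous Ψ ∧ (∀ t, Ψ (t + 1) = Ψ t) ∧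
    (∀ t, δ * (Real.log 3 / 2) ≤ Ψ t ∧ Ψ t ≤ δ * (3 * Real.log 3 / 2)) ∧
    (∫ t in (0 : ℝ)..1, Ψ t = δ) ∧
    (∀ K ε : ℝ, 0 < ε → ∃ X₀ : ℝ, ∀ x : ℝ, X₀ ≤ x → ∀ k : ℕ,
      |(k : ℝ) - 2 / Real.log (4 / 3) * Real.log x| ≤ K * Real.sqrt (Real.log x) →
      |({n : ℕ | 1 ≤ n ∧ (n : ℝ) ≤ x ∧ True ∧ H k n}.ncard : ℝ) /
        (x * (Real.exp (-(((k : ℝ) - 2 / Real.log (4 / 3) * Real.log x) ^ 2 /
          (2 * (2 * Real.log 3 ^ 2 / Real.log (4 / 3) ^ 3 * Real.log x)))) /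
          Real.sqrt (2 * Real.pi * (2 * Real.log 3 ^ 2 / Real.log (4 / 3) ^ 3 * Real.log x)))) -
        1 * Ψ (Real.logb 3 (x / 2 ^ k))| ≤ ε) ∧
    (∀ v : ℝ, 1 ≤ v → 1 - 1 / v ≤ κ v ∧ 1 / 4 ≤ κ v ∧ κ v ≤ 1 ∧
      Tendsto (fun J => kapJ v J) atTop (𝓝 (κ v)) ∧
      Continuous (Φ v) ∧ (∀ u, Φ v (u + 1) = Φ v u) ∧
      (∀ u, κ v * (δ * (Real.log 3 / 2)) ≤ Φ v u ∧ Φ v u ≤ κ v * (δ * (3 * Real.log 3 / 2))) ∧
      (∫ u in (0 : ℝ)..1, Φ v u = δ * κ v) ∧
      ∀ u, Tendsto (fun J => PhJ Ψ v u J) atTop (𝓝 (Φ v u))) ∧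
    ∀ (Q r : ℕ), Odd Q → ∀ K ε : ℝ, 0 < ε → ∃ X₀ : ℝ, ∀ x : ℝ, X₀ ≤ x → ∀ k : ℕ,
      |(k : ℝ) - 2 / Real.log (4 / 3) * Real.log x| ≤ K * Real.sqrt (Real.log x) → ∀ v : ℝ, 1 ≤ v →
      |({n : ℕ | 1 ≤ n ∧ (n : ℝ) ≤ x ∧ ((∀ j, ((Tn^[j] n : ℕ) : ℝ) ≤ v * x) ∧ n ≡ r [MOD Q]) ∧ H k n}.ncard : ℝ) /
        (x * (Real.exp (-(((k : ℝ) - 2 / Real.log (4 / 3) * Real.log x) ^ 2 /
          (2 * (2 * Real.log 3 ^ 2 / Real.log (4 / 3) ^ 3 * Real.log x)))) /
          Real.sqrt (2 * Real.pi * (2 * Real.log 3 ^ 2 / Real.log (4 / 3) ^ 3 * Real.log x)))) -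
        Φ v (Real.logb 3 (x / 2 ^ k)) / Q| ≤ ε := by
  classical
  obtain ⟨δ, Ψ, M, h0, h0', h0'', h1, h2, h3, h4, h5, h6, h7, h8, h9, h10⟩ := base
  obtain ⟨ρ, hρ0, hρ1, hW, _⟩ := dev_both
  have hl3 : 0 < Real.log 3 := Real.log_pos (by norm_num)
  have hM : ∀ t, |Ψ t| ≤ M := fun t => by
    rw [abs_of_nonneg ((by positivity : 0 ≤ δ * (Real.log 3 / 2)).trans (h4 t).1)]
    exact h6 t
  -- the limits
  have hΦ : ∀ v u : ℝ, ∃ L : ℝ, 1 ≤ v → Tendsto (fun J => PhJ Ψ v u J) atTop (𝓝 L) ∧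
      ∀ J, |PhJ Ψ v u J - L| ≤ 4 * M * ρ / (1 - ρ) * ρ ^ J := by
    intro v u
    by_cases hv : 1 ≤ v
    · obtain ⟨L, hL1, hL2⟩ := mean_lim hρ0 hρ1 hW (Ff Ψ v u) (fun t ht => Ff_le hM hv u ht)
      refine ⟨L, fun _ => ⟨hL1, fun J => (hL2 J).trans (le_of_eq ?_)⟩⟩
      ring
    · exact ⟨0, fun h => absurd h hv⟩
  choose Φ hΦ using hΦ
  have hκ : ∀ v : ℝ, ∃ L : ℝ, 1 ≤ v → Tendsto (fun J => kapJ v J) atTop (𝓝 L) := by
    intro v
    by_cases hv : 1 ≤ v
    · obtain ⟨L, hL1, _⟩ := mean_lim hρ0 hρ1 hW (M := 1) (fun t => min 1 (v / t)) (fun t ht => by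
        rw [abs_of_nonneg (le_min zero_le_one (div_nonneg (by linarith) (by linarith)))]
        exact min_le_left _ _)
      exact ⟨L, fun _ => hL1⟩
    · exact ⟨0, fun h => absurd h hv⟩
  choose κ hκ using hκ
  have hρq : 0 < 1 - ρ := by linarith
  have hM0 : 0 ≤ M := (abs_nonneg _).trans (hM 0)
  set C : ℝ := 4 * M * ρ / (1 - ρ) with hC
  have hC0 : 0 ≤ C := by positivity
  have hCρ : Tendsto (fun J : ℕ => C * ρ ^ J) atTop (𝓝 0) := by
    have := (tendsto_pow_atTop_nhds_zero_of_lt_one hρ0.le hρ1).const_mul C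
    rwa [mul_zero] at this
  have hPc : ∀ (v : ℝ) (J : ℕ), Continuous fun u => PhJ Ψ v u J := by
    intro v J
    unfold PhJ
    exact (continuous_finsetSum _ fun c _ =>
      continuous_const.mul (h2.comp (continuous_id.add continuous_const))).div_const _
  refine ⟨δ, Ψ, κ, Φ, h0, h0', h0'', h1, h2, h3, h4, h5, LQ_eps h9, fun v hv => ?_, fun Q r hQ K ε hε => ?_⟩
  · have hcont : Continuous (Φ v) := by
      have hu : TendstoUniformly (fun (J : ℕ) (u : ℝ) => PhJ Ψ v u J) (Φ v) atTop := by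
        rw [Metric.tendstoUniformly_iff]
        intro ε hε
        filter_upwards [hCρ.eventually (gt_mem_nhds hε)] with J hJ u
        rw [dist_comm, Real.dist_eq]
        exact ((hΦ v u hv).2 J).trans_lt hJ
      exact hu.continuous (Eventually.of_forall fun J => hPc v J).frequently
    refine ⟨?_, ?_, ?_, hκ v hv, hcont, ?_, ?_, ?_, fun u => (hΦ v u hv).1⟩
    · refine ge_of_tendsto' (hκ v hv) fun J => ?_
      have := kapJ_low hv hv (b := 1) (by rw [div_self (by linarith)]; simp) zero_le_one J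
      linarith
    · refine ge_of_tendsto' (hκ v hv) fun J => ?_
      have := kapJ_low hv (w := 2) (by norm_num) (b := 1 / 2)
        (le_min (by norm_num) (div_le_div_of_nonneg_right hv (by norm_num))) (by norm_num) J
      linarith
    · exact le_of_tendsto' (hκ v hv) fun J => kapJ_up v J
    · intro u
      have g1 := (hΦ v (u + 1) hv).1
      have g2 := (hΦ v u hv).1
      refine tendsto_nhds_unique g1 (g2.congr fun J => ?_)
      unfold PhJ
      congr 1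
      apply Finset.sum_congr rfl
      intro c _
      rw [show u + 1 + Real.logb 3 (sh v J c) = u + Real.logb 3 (sh v J c) + 1 by ring, h3]
    · intro u
      have hb : ∀ J, kapJ v J * (δ * (Real.log 3 / 2)) ≤ PhJ Ψ v u J ∧
          PhJ Ψ v u J ≤ kapJ v J * (δ * (3 * Real.log 3 / 2)) := by
        intro J
        unfold kapJ PhJ
        constructor
        · rw [div_mul_eq_mul_div, Finset.sum_mul]
          apply div_le_div_of_nonneg_right _ (by positivity)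
          exact Finset.sum_le_sum fun c _ => mul_le_mul_of_nonneg_left (h4 _).1 (sh_pos hv J c).le
        · rw [div_mul_eq_mul_div, Finset.sum_mul]
          apply div_le_div_of_nonneg_right _ (by positivity)
          exact Finset.sum_le_sum fun c _ => mul_le_mul_of_nonneg_left (h4 _).2 (sh_pos hv J c).le
      exact ⟨le_of_tendsto_of_tendsto' ((hκ v hv).mul_const _) (hΦ v u hv).1 fun J => (hb J).1,
        le_of_tendsto_of_tendsto' (hΦ v u hv).1 ((hκ v hv).mul_const _) fun J => (hb J).2⟩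
    · have hI : ∀ J : ℕ, ∫ u in (0 : ℝ)..1, PhJ Ψ v u J = kapJ v J * δ := by
        intro J
        unfold PhJ kapJ
        rw [intervalIntegral.integral_div, intervalIntegral.integral_finsetSum]
        · rw [div_mul_eq_mul_div, Finset.sum_mul]
          congr 1
          apply Finset.sum_congr rfl
          intro c _
          rw [intervalIntegral.integral_const_mul, int_shift h3, h5]
        · intro c _
          exact (continuous_const.mul (h2.comp (continuous_id.add continuous_const))).intervalIntegrable _ _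
      have hlim1 : Tendsto (fun J : ℕ => ∫ u in (0 : ℝ)..1, PhJ Ψ v u J) atTop (𝓝 (κ v * δ)) := by
        refine ((hκ v hv).mul_const δ).congr fun J => (hI J).symm
      have hlim2 : Tendsto (fun J : ℕ => ∫ u in (0 : ℝ)..1, PhJ Ψ v u J) atTop (𝓝 (∫ u in (0 : ℝ)..1, Φ v u)) := by
        rw [tendsto_iff_norm_sub_tendsto_zero]
        refine squeeze_zero (fun _ => norm_nonneg _) (fun J => ?_) hCρ
        rw [← intervalIntegral.integral_sub ((hPc v J).intervalIntegrable _ _) (hcont.intervalIntegrable _ _)]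
        have := intervalIntegral.norm_integral_le_of_norm_le_const (a := (0 : ℝ)) (b := 1) (C := C * ρ ^ J)
          (f := fun u => PhJ Ψ v u J - Φ v u) (fun u _ => by rw [Real.norm_eq_abs]; exact (hΦ v u hv).2 J)
        simpa using this
      rw [tendsto_nhds_unique hlim2 hlim1, mul_comm]
  · -- uniformity
    set G : ℝ × ℤ → ℝ → ℝ := fun p v => |cZ (fun n => (∀ j, ((Tn^[j] n : ℕ) : ℝ) ≤ v * p.1) ∧ n ≡ r [MOD Q]) p /
      (p.1 * gd PT p.1 p.2) - Φ v (sv PT p) / Q| with hG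
    set vv : ℝ × ℤ → ℝ := fun p => if h : ∃ v, 1 ≤ v ∧ ε < G p v then Classical.choose h else 1 with hvv
    have hvv1 : ∀ p, 1 ≤ vv p := by
      intro p
      rw [hvv]
      simp only
      split_ifs with h
      · exact (Classical.choose_spec h).1
      · exact le_rfl
    have hjl := joint_level h2 h3 hM h9 hQ r (Φ := Φ) hρ0 hρ1 (fun v hv u J => (hΦ v u hv).2 J) hvv1 (K * lam)
    have hev : ∀ᶠ p in xg PT (K * lam), ∀ v : ℝ, 1 ≤ v → G p v ≤ ε := by
      filter_upwards [Metric.tendsto_nhds.1 hjl ε hε] with p hp v hv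
      by_contra hcon
      push Not at hcon
      have hex : ∃ v, 1 ≤ v ∧ ε < G p v := ⟨v, hv, hcon⟩
      have e : vv p = Classical.choose hex := by rw [hvv]; exact dif_pos hex
      have h11 := (Classical.choose_spec hex).2
      rw [← e] at h11
      rw [Real.dist_eq, sub_zero] at hp
      exact lt_irrefl _ (h11.trans hp)
    obtain ⟨X₀, hX⟩ := xg_elem hev
    refine ⟨max X₀ 1, fun x hx k hk v hv => ?_⟩
    have hx0 : 0 < x := by
      have := (le_max_right X₀ 1).trans hx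
      linarith
    have h11 := hX x ((le_max_left _ _).trans hx) k hk v hv
    rw [hG] at h11
    simp only at h11
    rw [cZ_elem, gd_elem, sv_elem hx0] at h11
    exact h11

end Pool.Agent.R468.RC
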